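import Pool.Agent.D0H43.MQ.Stm
import Pool.Agent.D0H43.Q4.Stm5
import Pool.Agent.D0H10.Q5.Stm

/-!
# Project MQ (helper43): the quartic twists of `y² = x³ - x` over the extensions of `ℚ(i)` generated by the
# square roots of the divisors of `D`

Statements of the modules 4 - 8.  The curves are `y² = x³ + D t² x`, `D = κ Δ`, `t ∣ Δ`, `t` primary.
-/

set_option autoImplicit false

open NumberField IsDedekindDomain

namespace Pool.Agent.D0H43.MQ

open H385 (ZI RQ im1 nrm)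
open Pool.Agent.H304R3.HK (tc HC LH)
open Pool.Agent.Y699
open Pool.Agent.H304R2.EC.A1 (prim)
open Pool.Agent.D0H10.Q4 (dD)
open Pool.Agent.D0H43.Q4
open Pool.Agent.D0H10.Q5 (Ker cz Kd LF)

/-- MODULE 4 `LOCL` (local factors, 40 min): theorem `locl : S_LOCL` in `Pool/Agent/D0Hxx/MQ/Locl.lean`.
For every number field `L`, `A` in `𝓞 L`:
(a) from the `L`-series of Mathlib to the partial Euler product;
(b) back from the partial product to the `L`-series: meromorphic continuation, analytic and not zero at `1`.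
Proof. (a) section `gen` of `Pool/Agent/D0H69/JT/Lf1.lean` (general Weierstrass curves over number fields:
`PP`, `pp_diff`, `pp_one`, `hasProd_compl`, `fin_pl`) and `partK` (Lf2); (b) `fullF` at the end of `Lf3.lean`
(helper69, project JT: the same for `y² + D y = x³`).  The only new point is the analogue of `pp_good`
(Lf1) for `q4 A = ⟨0, 0, 0, A, 0⟩` (`Pool.Agent.Y715.Z.q4`): at the places with `2 A ∉ v` one has
`aV (q4 A) v = tn A v`, `eV (q4 A) v = qn v`: see also the first half of `good_odd`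
(`Pool/Agent/D0H69/Q4/Ls1.lean`, up to `ha`, `he`). -/
def S_LOCL : Prop := ∀ (L : Type) [Field L] [NumberField L] (A M : 𝓞 L), M ≠ 0 → 2 * A ∣ M →
  (∀ Λ : ℂ → ℂ, Differentiable ℂ Λ → Λ 1 ≠ 0 →
    (∀ s : ℂ, 2 < s.re → Λ s = (Pool.Agent.Y715.Z.q4 (A : L)).LSeries s) →
    ∃ G : ℂ → ℂ, Differentiable ℂ G ∧ G 1 ≠ 0 ∧ ∀ s : ℂ, 2 < s.re →
      HasProd (fun v : {v : HeightOneSpectrum (𝓞 L) // M ∉ v.asIdeal} => fac A s v.1) (G s)) ∧
  (∀ G : ℂ → ℂ, Differentiable ℂ G → G 1 ≠ 0 → (∀ s : ℂ, 2 < s.re →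
      HasProd (fun v : {v : HeightOneSpectrum (𝓞 L) // M ∉ v.asIdeal} => fac A s v.1) (G s)) →
    ∃ Λ : ℂ → ℂ, MeromorphicOn Λ Set.univ ∧ AnalyticAt ℂ Λ 1 ∧ Λ 1 ≠ 0 ∧
      ∀ s : ℂ, 2 < s.re → Λ s = (Pool.Agent.Y715.Z.q4 (A : L)).LSeries s)

/-- MODULE 5 `CNTT` (descent, 60 min): theorem `cntt : S_CNTT` in `Pool/Agent/D0Hxx/MQ/Cntt.lean`: the
rank and `Ш[2]` of the twists by `D t²` are bounded by the SAME kernel.
Proof. (i) the analogue of `up` (`Pool/Agent/D0H10/Q5/Up.lean`, `up1`, `up2`) for `D t²` in place of `D`: the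
local conditions are the same, because the valuation of `D t²` at every `π ∣ Δ` is odd (`1` or `3`) and
`D t²` and `D` have the same class modulo squares.  In the proof only `loc_bad'`
(`Pool/Agent/D0H49/Q4/Sel.lean`, `hval` = valuation `exp (-1)`) has to be replaced by the version for
`exp (-1)` or `exp (-3)` and `D` replaced by `D t²` in the local equation: `y² = m (m² + D t²)`, if
`v(m) ≤ v(D t²) / 2` then `m` is a square times a unit `= 1`, otherwise `m` is `D` times a square (see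
`Pool/Agent/D0H76/BKR/Dsc.lean`, `selT`, `sel1T`, `sel2T`, the same over `ℚ`).  (ii) `S_CNT` (`cnt` in
`Pool/Agent/D0H10/Q5/Cnt.lean`): copy with `Zc_card`, `Zc_lower` (only the upper bound). -/
def S_CNTT : Prop := ∀ (K : Type) [Field K] [NumberField K] (e : ZI ≃+* 𝓞 K) (Δ D t : ZI), PS Δ →
  Kd Δ D → prim t → t ∣ Δ →
  Finite {x : Pool.Agent.TH841.NF.D.Sha
    (Pool.Agent.Y715.Z.q4 (Pool.Agent.Y715.Z.em0 e (D * t ^ 2))) // 2 • x = 0} ∧
  2 ^ (Module.finrank ℤ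
      (Pool.Agent.Y682.MP (Pool.Agent.Y715.Z.q4 (Pool.Agent.Y715.Z.em0 e (D * t ^ 2))))) *
    Nat.card {x : Pool.Agent.TH841.NF.D.Sha
      (Pool.Agent.Y715.Z.q4 (Pool.Agent.Y715.Z.em0 e (D * t ^ 2))) // 2 • x = 0} ≤
    (Ker Δ).ncard ^ 2

/-- MODULE 6 `SELOT` (descent for `1 + i ∣ D`, 60 min): theorem `selot : S_SELOT` in
`Pool/Agent/D0Hxx/MQ/Selot.lean`.
Proof. As `selo` (`Pool/Agent/D0H76/Q4/Selo.lean`) with `D t²` in place of `D = i ^ σ (1 + i) Δ`: the
conditions at the `π ∣ Δ` as in module 5; at `1 + i`: `t` primary, so `t² = 1` modulo `4 + 4 i`, and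
the class of `D` modulo squares is the same; check that the local lemma at `1 + i` (`LocO`) holds for
`i ^ σ (1 + i) Δ'`, `Δ' = Δ t²` primary (it uses `Δ` only through its class, `prim Δ'`).  It is enough
to bound the order of `Zc`: no statement on the torsion is needed (rank zero). -/
def S_SELOT : Prop := ∀ (σ : ℕ) (K : Type) [Field K] [NumberField K] (e : ZI ≃+* 𝓞 K) (Δ t : ZI),
  PS Δ → dO σ Δ = 1 → prim t → t ∣ Δ →
  Module.finrank ℤ (Pool.Agent.Y682.MP (cO e σ (Δ * t ^ 2))) = 0 ∧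
    ∀ (n : ℕ) (x : Pool.Agent.TH841.NF.D.Sha (cO e σ (Δ * t ^ 2))), 2 ^ n • x = 0 → x = 0

open Classical in
/-- the exponents: `3` at the primes of `t`, `1` at the others -/
noncomputable def et (Δ t : ZI) (i : {π : ZI // π ∈ PD Δ}) : ℕ := if fam Δ i ∣ t then 3 else 1

/-- MODULE 7 `LST` (the `L`-series, 50 min): theorem `ls1t : S_LS1T` in `Pool/Agent/D0Hxx/MQ/Ls1t.lean`.
Proof. (i) `ls_gen'` : the theorem `ls_gen` (`Pool/Agent/D0H69/Q4/Gen.lean`) with the hypothesis `h1` weakened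
to: every primary prime `z ∣ D` divides `D` exactly once or exactly three times (`z * z * z ∣ D` and not
`z ^ 4 ∣ D`); the only change is `bad_odd` (`Ls1.lean`), where for the exponent three `bad_of4`
(`Loc.lean`) is used with `m = 9`.  (ii) the symbol: `q4 z (- i ^ σ Δ t²) = q4 z (- i ^ σ Δ) (q4 z t) ^ 2` and
`(q4 z t) ^ 2 = ∏_{π ∣ t} (q4 z π) ^ 2 = ∏_{π ∣ t} (q4 π z) ^ 2` (`q4_rec`: the sign disappears in the
square), so that `c4` with the exponents `et Δ t` comes out (`q4_twist` in `Gen.lean`). -/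
def S_LS1T : Prop := ∀ (σ : ℕ), σ % 2 = 1 → ∀ (K : Type) [Field K] [NumberField K]
  (e : ZI ≃+* 𝓞 K) (Δ t : ZI), PS Δ → prim t → t ∣ Δ → ∀ X : ZI →* ℂ, HC (8 * Δ) X →
    (∀ a, prim a →
      X a = (starRingEnd ℂ) (tc (wi (sg σ Δ) a * c4 (fam Δ) Finset.univ (et Δ t) a))) →
  ∀ s : ℂ, 3 / 2 < s.re →
    LSeriesSummable ((fun n : ℤ => (n : ℂ)) ∘ (cI e σ (Δ * t ^ 2)).LFunction) s ∧
      LG X s = (cI e σ (Δ * t ^ 2)).LSeries s

/-- MODULE 8 `LSOT`: theorem `lsot : S_SUPL → S_LSOT`, as module 7 and `lso` in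
`Pool/Agent/D0H69/Q4/Lso.lean` (same file as module 7 if you like). -/
def S_LSOT : Prop := ∀ (σ : ℕ) (K : Type) [Field K] [NumberField K]
  (e : ZI ≃+* 𝓞 K) (Δ t : ZI), PS Δ → prim t → t ∣ Δ → ∀ X : ZI →* ℂ, HC (f7 * Δ) X →
    (∀ a, prim a →
      X a = (starRingEnd ℂ) (tc (wo (sg σ Δ) a * c4 (fam Δ) Finset.univ (et Δ t) a))) →
  ∀ s : ℂ, 3 / 2 < s.re →
    LSeriesSummable ((fun n : ℤ => (n : ℂ)) ∘ (cO e σ (Δ * t ^ 2)).LFunction) s ∧
      LG X s = (cO e σ (Δ * t ^ 2)).LSeries s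

end Pool.Agent.D0H43.MQ
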