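import Pool.Agent.D0H10.Q5.Cnt
import Pool.Agent.D0H43.MQ.StmB

/-!
# Project MQ, module 5: the descent for `y² = x³ + D t² x`
-/

set_option autoImplicit false
set_option linter.unusedSectionVars false
set_option linter.unusedVariables false

open NumberField IsDedekindDomain

namespace Pool.Agent.D0H43.MQ

open Pool.Agent.Y682 (S1 S2 vv vv_coe IsT Zc Zc_card Zc_lower LL1 LL2 Sq quot_eq MP)
open Pool.Agent.Y699
open Pool.Agent.Y715.Z
open Pool.Agent.D0H10.Q4
open Pool.Agent.D0H10.Q5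
open Pool.Agent.D0H49.Q4
open H385 (ZI RQ im1 nrm)
open Pool.Agent.W164.RC (two2 prim_iff_dvd unit_norm unit_cases)
open Pool.Agent.H304R2.EC.A1 (prim prim_mul prim_cancel prim_one prim_norm_odd prim_star eq_one_of_prim
  norm_def' re_mul' im_mul' eq_of_dvd prim_ne_zero exists_prim)

lemma exp_odd {g : WithZero (Multiplicative ℤ)} {k : ℤ} (h : g ^ 2 = WithZero.exp (2 * k + 1)) :
    False := by
  have h1 := congrArg WithZero.log h
  rw [WithZero.log_pow, WithZero.log_exp] at h1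
  have h2 : (2 : ℤ) * WithZero.log g = 2 * k + 1 := by
    rw [← h1]; simp
  omega

/-- the local image at a prime dividing `D` with an odd exponent -/
lemma cls3 {L : Type} [Field L] (w : Valuation L (WithZero (Multiplicative ℤ)))
    (hens : ∀ t : L, w t < 1 → ∃ y : L, y ^ 2 = 1 + t) {D m : L} (hD0 : D ≠ 0) {k : ℤ}
    (hD : w D = WithZero.exp (2 * k + 1)) (h : S1 0 D m) :
    ∃ c : L, c ≠ 0 ∧ (m = c ^ 2 ∨ m = D * c ^ 2) := by
  rcases h with h | h | ⟨hm, y, hy⟩
  · exact ⟨1, one_ne_zero, Or.inl (by rw [h, one_pow])⟩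
  · exact ⟨1, one_ne_zero, Or.inr (by rw [h, one_pow, mul_one])⟩
  · have hwm : w m ≠ 0 := (Valuation.ne_zero_iff _).2 hm
    have hwD : w D ≠ 0 := (Valuation.ne_zero_iff _).2 hD0
    rw [zero_mul, add_zero] at hy
    rcases lt_trichotomy (w D) (w m ^ 2) with h1 | h1 | h1
    · have ht : w (D / m ^ 2) < 1 := by
        rw [map_div₀, map_pow, div_lt_iff₀ (pow_pos (zero_lt_iff.2 hwm) 2), one_mul]
        exact h1
      obtain ⟨r, hr⟩ := hens _ ht
      have hr0 : r ≠ 0 := by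
        rintro rfl
        have h2 : D / m ^ 2 = -1 := by linear_combination -hr
        rw [h2, Valuation.map_neg, map_one] at ht
        exact lt_irrefl _ ht
      have h2 : (m * r) ^ 2 = m ^ 2 + D := by
        rw [mul_pow, hr]
        field_simp
      rw [← h2] at hy
      have hmr : m * r ≠ 0 := mul_ne_zero hm hr0
      have hy0 : y ≠ 0 := by
        rintro rfl
        rw [zero_pow two_ne_zero] at hy
        exact mul_ne_zero hm (pow_ne_zero 2 hmr) hy.symm
      refine ⟨y / (m * r), div_ne_zero hy0 hmr, Or.inl ?_⟩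
      rw [div_pow, hy]
      field_simp
    · exfalso
      rw [hD] at h1
      exact exp_odd h1.symm
    · have ht : w (m ^ 2 / D) < 1 := by
        rw [map_div₀, map_pow, div_lt_iff₀ (zero_lt_iff.2 hwD), one_mul]
        exact h1
      obtain ⟨r, hr⟩ := hens _ ht
      have hr0 : r ≠ 0 := by
        rintro rfl
        have h2 : m ^ 2 / D = -1 := by linear_combination -hr
        rw [h2, Valuation.map_neg, map_one] at ht
        exact lt_irrefl _ ht
      have h2 : D * r ^ 2 = m ^ 2 + D := by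
        rw [hr]
        field_simp
        ring
      rw [← h2] at hy
      have hDr : D * r ≠ 0 := mul_ne_zero hD0 hr0
      have hy0 : y ≠ 0 := by
        rintro rfl
        rw [zero_pow two_ne_zero] at hy
        exact mul_ne_zero hm (mul_ne_zero hD0 (pow_ne_zero 2 hr0)) hy.symm
      refine ⟨y / (D * r), div_ne_zero hy0 hDr, Or.inr ?_⟩
      rw [div_pow, hy]
      field_simp

section

variable {K : Type} [Field K] [NumberField K] (e : ZI ≃+* 𝓞 K) {κ : ZI} {z : ZI} (hz : Prime z)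

/-- the valuation of `κ D t ^ 2` is odd -/
lemma val_odd {κ D t : ZI}
    (hD : (plc e hz).valuation K (em0 e D) = WithZero.exp (-1 : ℤ)) (hκ : ¬ z ∣ κ) (ht : t ≠ 0) :
    ∃ k : ℤ, (plc e hz).valuation K (em0 e (κ * D * t ^ 2)) = WithZero.exp (2 * k + 1) := by
  obtain ⟨n, hn⟩ := exists_exp ((plc e hz).valuation K) (em0_ne e ht)
  refine ⟨n - 1, ?_⟩
  rw [map_mul, map_mul, map_mul, map_mul, hD, val_one e hz hκ, one_mul, map_pow, map_pow, hn,
    ← WithZero.exp_nsmul, ← WithZero.exp_add]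
  congr 1
  simp
  ring

/-- the local condition at a prime dividing `D` with an odd exponent -/
lemma loc_bad3 (hP : PP z) {D d d' D' s : ZI} (h2 : ¬ z ∣ 2) (hD0 : D ≠ 0) (hs : s ≠ 0) {k : ℤ}
    (hDv : (plc e hz).valuation K (em0 e D) = WithZero.exp (2 * k + 1))
    {b w : K} (hw : w ≠ 0) (hb : b = em0 e d * w ^ 2)
    (h : ∃ y m : (plc e hz).adicCompletion K, y ≠ 0 ∧ ph e hz b * y ^ 2 = m ∧
      S1 0 (ph e hz (em0 e D)) m) :
    (¬ z ∣ d → qr z d = 1) ∧
      (Squarefree d → z ∣ d → d * d' * s ^ 2 = D * D' ^ 2 → ¬ z ∣ d' → qr z d' = 1) := by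
  obtain ⟨y, m, hy, hym, hm⟩ := h
  have h2' : (plc e hz).valuation K 2 = 1 := by
    have := val_one e hz h2
    rwa [map_ofNat] at this
  have hwD : vv (plc e hz) (ph e hz (em0 e D)) = WithZero.exp (2 * k + 1) := by
    rw [vv_coe, hDv]
  have hphD : ph e hz (em0 e D) ≠ 0 := (map_ne_zero _).2 (em0_ne e hD0)
  obtain ⟨c, hc, hmc⟩ := cls3 (vv (plc e hz)) (fun t ht => hens_odd (plc e hz) h2' t ht)
    hphD hwD hm
  have hpw : ph e hz w ≠ 0 := (map_ne_zero _).2 hw
  have hvy : vv (plc e hz) y ≠ 0 := (Valuation.ne_zero_iff _).2 hy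
  have hvc : vv (plc e hz) c ≠ 0 := (Valuation.ne_zero_iff _).2 hc
  have hvw : vv (plc e hz) (ph e hz w) ≠ 0 := (Valuation.ne_zero_iff _).2 hpw
  have hm2 : ph e hz (em0 e d) * (ph e hz w * y) ^ 2 = m := by
    rw [← hym, hb, map_mul, map_pow]; ring
  constructor
  · intro hzd
    rcases hmc with h1 | h1
    · apply qr_of_sqrt e hz hP hzd (x := c / (ph e hz w * y))
      rw [div_pow, ← h1, ← hm2]
      field_simp
    · exfalso
      have h3 := congrArg (vv (plc e hz)) (hm2.trans h1)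
      rw [map_mul, map_mul, vv_coe, val_one e hz hzd, one_mul, map_pow, map_pow, map_mul, hwD] at h3
      apply exp_odd (g := vv (plc e hz) (ph e hz w) * vv (plc e hz) y / vv (plc e hz) c) (k := k)
      rw [div_pow, h3]
      field_simp
  · intro hd hzd hdd hzd'
    rcases hmc with h1 | h1
    · exfalso
      have h3 := congrArg (vv (plc e hz)) (hm2.trans h1)
      rw [map_mul, vv_coe, val_sqf e hz hd hzd, map_pow, map_pow, map_mul] at h3
      apply exp_sq (g := vv (plc e hz) c / (vv (plc e hz) (ph e hz w) * vv (plc e hz) y))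
      rw [div_pow, ← h3]
      field_simp
    · have hpd : ph e hz (em0 e d) ≠ 0 := (map_ne_zero _).2 (em0_ne e hd.ne_zero)
      have hps : ph e hz (em0 e s) ≠ 0 := (map_ne_zero _).2 (em0_ne e hs)
      apply qr_of_sqrt e hz hP hzd'
        (x := ph e hz (em0 e D') * (ph e hz w * y) / (c * ph e hz (em0 e s)))
      have h4 : ph e hz (em0 e d) * ph e hz (em0 e d') * ph e hz (em0 e s) ^ 2 =
          ph e hz (em0 e D) * ph e hz (em0 e D') ^ 2 := by
        rw [← map_mul, ← map_mul, ← map_pow, ← map_pow, ← map_mul, ← map_mul, hdd, map_mul, map_mul,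
          map_pow, map_pow]
      have h5 : ph e hz (em0 e d) * (ph e hz w * y) ^ 2 = ph e hz (em0 e D) * c ^ 2 := hm2.trans h1
      rw [div_pow, mul_pow]
      rw [div_eq_iff (pow_ne_zero 2 (mul_ne_zero hc hps))]
      apply mul_left_cancel₀ (mul_ne_zero hphD hpd)
      linear_combination (ph e hz (em0 e D) * ph e hz (em0 e D') ^ 2) * h5 -
        (ph e hz (em0 e D) * c ^ 2) * h4

theorem up1t (hκ : κ = im1 ∨ κ = -im1) {Δ t : ZI} (hg : PS Δ) (htp : prim t) (ht : t ∣ Δ) {b : K} (hb : b ≠ 0)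
    (h : ∀ v : HeightOneSpectrum (𝓞 K), ∃ y m : v.adicCompletion K, y ≠ 0 ∧
      algebraMap K (v.adicCompletion K) b * y ^ 2 = m ∧
        S1 0 (algebraMap K (v.adicCompletion K) (em0 e (κ * Δ * t ^ 2))) m) :
    ∃ z ∈ Ker Δ, ∃ (a : ZMod 2) (c : K), b = em0 e (cz Δ z a) * c ^ 2 := by
  classical
  obtain ⟨d, w, hd, hw, hbd⟩ := exists_sqf e hb
  have hD0 := hg.ne
  have ht0 : t ≠ 0 := fun h0 => hD0 (zero_dvd_iff.1 (h0 ▸ ht))
  have hp := fam_PF hD0
  have hκn : κ.norm = 1 := by rcases hκ with rfl | rfl <;> decide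
  have hκu : IsUnit κ := Zsqrtd.norm_eq_one_iff.1 (by rw [hκn]; rfl)
  -- the primes of `d`
  have hprime : ∀ ρ : ZI, Prime ρ → ρ ∣ d → ρ ∣ Δ := by
    intro ρ hρ hρd
    by_contra hρD
    have h1 : ¬ ρ ∣ κ * Δ * t ^ 2 := by
      intro h2
      rcases hρ.dvd_or_dvd h2 with h2 | h2
      · rcases hρ.dvd_or_dvd h2 with h3 | h3
        · exact hρ.not_isUnit (isUnit_of_dvd_unit h3 hκu)
        · exact hρD h3
      · exact hρD ((hρ.dvd_of_dvd_pow h2).trans ht)
    exact not_dvd_of_loc e hρ h1 hd hw hbd (h (plc e hρ)) hρd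
  set S := Finset.univ.filter (fun i => fam Δ i ∣ d) with hS
  have hDV : DD (fam Δ) Finset.univ = Δ := hg.DD
  have hSd : DD (fam Δ) S ∣ d := by
    unfold DD
    refine Finset.prod_dvd_of_coprime ?_ ?_
    · intro i _ j _ hij
      exact (hp.pp i).cop (hp.pp j) fun h => hij (hp.inj h)
    · intro i hi
      exact (Finset.mem_filter.1 hi).2
  obtain ⟨u, hu⟩ := hSd
  have huu : IsUnit u := by
    by_contra hnu
    have hu0 : u ≠ 0 := by
      rintro rfl
      exact hd.ne_zero (by rw [hu, mul_zero])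
    obtain ⟨ρ, hρ, hρu⟩ := WfDvdMonoid.exists_irreducible_factor hnu hu0
    have hρ' : Prime ρ := irreducible_iff_prime.1 hρ
    have h1 : ρ ∣ d := by rw [hu]; exact hρu.mul_left _
    have h2 := hprime ρ hρ' h1
    rw [← hDV] at h2
    unfold DD at h2
    obtain ⟨i, hi, hρi⟩ := (hρ'.dvd_finsetProd_iff _).1 h2
    have h3 : fam Δ i ∣ ρ := by
      obtain ⟨c, hc⟩ := hρi
      rcases (hp.pp i).pr.irreducible.isUnit_or_isUnit hc with h4 | h4
      · exact absurd h4 hρ'.not_isUnit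
      · obtain ⟨c', hc'⟩ := h4.exists_right_inv
        exact ⟨c', by rw [hc, mul_assoc, hc', mul_one]⟩
    have h4 : i ∈ S := Finset.mem_filter.2 ⟨hi, h3.trans h1⟩
    have h5 : fam Δ i * fam Δ i ∣ d := by
      rw [hu]
      refine mul_dvd_mul ?_ (h3.trans hρu)
      unfold DD
      exact Finset.dvd_prod_of_mem _ h4
    exact (hp.pp i).pr.not_isUnit (hd _ h5)
  have hun : u.norm = 1 := by
    obtain ⟨e', rfl⟩ := huu
    exact unit_norm e'
  have hDS : Δ = DD (fam Δ) S * DD (fam Δ) Sᶜ := by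
    conv_lhs => rw [← hDV]
    unfold DD
    exact (Finset.prod_mul_prod_compl _ _).symm
  have hnd : ∀ (T : Finset {π : ZI // π ∈ PD Δ}) (j : {π : ZI // π ∈ PD Δ}), j ∉ T →
      ¬ fam Δ j ∣ DD (fam Δ) T := by
    intro T j hT h
    unfold DD at h
    obtain ⟨i, hi, hji⟩ := ((hp.pp j).pr.dvd_finsetProd_iff _).1 h
    exact not_dvd_of_ne hp (fun h' => hT (by rw [h']; exact hi)) hji
  -- the local conditions
  have hloc : ∀ j, (j ∉ S → qr (fam Δ j) u * qr (fam Δ j) (DD (fam Δ) S) = 1) ∧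
      (j ∈ S → qr (fam Δ j) u * (qr (fam Δ j) 2 * qr (fam Δ j) (DD (fam Δ) Sᶜ)) = 1) := by
    intro j
    have hP := hp.pp j
    have hjD : fam Δ j ∣ Δ := (Finset.dvd_prod_of_mem (fam Δ) (Finset.mem_univ j)).trans (dvd_of_eq hDV)
    have h2 := not_dvd_two hP
    have hq : qr (fam Δ j) 2 = qr (fam Δ j) κ := by
      rw [qr_two_sg hp, qr_unit_sg hp j hκn]
      congr 1
      unfold ue
      rw [if_neg (by rcases hκ with rfl | rfl <;> decide), one_mul]
    obtain ⟨k, hval⟩ := val_odd e hP.pr (val_sqf e hP.pr hg.sqf hjD) (not_dvd_unit hP hκn) ht0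
    have h20 : (κ * Δ * t ^ 2 : ZI) ≠ 0 := mul_ne_zero (mul_ne_zero hκu.ne_zero hD0) (pow_ne_zero 2 ht0)
    obtain ⟨h1, h3⟩ := loc_bad3 (d := d) (d' := u * (κ * DD (fam Δ) Sᶜ)) (D' := u) (s := t) e hP.pr hP
      h2 h20 ht0 hval hw hbd (h (plc e hP.pr))
    constructor
    · intro hjS
      have h4 := h1 (fun h' => hjS (Finset.mem_filter.2 ⟨Finset.mem_univ _, h'⟩))
      rw [hu, qr_mul hP] at h4
      rw [mul_comm]
      exact h4
    · intro hjS
      have h4 := h3 hd (Finset.mem_filter.1 hjS).2 (by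
        have h6 : d * (u * (κ * DD (fam Δ) Sᶜ)) * t ^ 2 =
            (κ * (DD (fam Δ) S * DD (fam Δ) Sᶜ) * t ^ 2) * u ^ 2 := by rw [hu]; ring
        exact h6.trans (congrArg (fun r => (κ * r * t ^ 2) * u ^ 2) hDS.symm)) (by
        intro h'
        rcases hP.pr.dvd_or_dvd h' with h4 | h4
        · exact not_dvd_unit hP hun h4
        · rcases hP.pr.dvd_or_dvd h4 with h5 | h5
          · exact not_dvd_unit hP hκn h5
          · exact hnd _ _ (fun h6 => (Finset.mem_compl.1 h6) hjS) h5)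
      rw [qr_mul hP, qr_mul hP] at h4
      rw [hq]
      exact h4
  obtain ⟨z, hz, hker⟩ := endg hp hun hloc
  obtain ⟨u0, hu0⟩ : ∃ u0 : ZI, u = im1 ^ (ue u).val * u0 ^ 2 := unit_class hun
  refine ⟨z, hker, ue u, em0 e u0 * w, ?_⟩
  have hS' : (Finset.univ.filter fun i => z i + ue u = 1) = S := by
    ext i
    rw [Finset.mem_filter, hz i]
    by_cases hi : i ∈ S
    · rw [if_pos hi]
      have h9 : ∀ a : ZMod 2, 1 + a + a = 1 := by decide
      exact ⟨fun _ => hi, fun _ => ⟨Finset.mem_univ _, h9 _⟩⟩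
    · rw [if_neg hi]
      have h9 : ∀ a : ZMod 2, 0 + a + a ≠ 1 := by decide
      exact ⟨fun h => absurd h.2 (h9 _), fun h => absurd h hi⟩
  unfold cz
  rw [hS', hbd, hu]
  conv_lhs => rw [hu0]
  simp only [map_mul, map_pow]
  ring

theorem up2t {Δ t : ZI} (hg : PS Δ) (htp : prim t) (ht : t ∣ Δ) {b : K} (hb : b ≠ 0)
    (h : ∀ v : HeightOneSpectrum (𝓞 K), ∃ y m : v.adicCompletion K, y ≠ 0 ∧
      algebraMap K (v.adicCompletion K) b * y ^ 2 = m ∧
        S1 0 (algebraMap K (v.adicCompletion K) (em0 e (2 * Δ * t ^ 2))) m) :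
    ∃ z ∈ Ker Δ, ∃ (a : ZMod 2) (c : K), b = em0 e (cz Δ z a) * c ^ 2 := by
  classical
  obtain ⟨d, w, hd, hw, hbd⟩ := exists_sqf e hb
  have hD0 := hg.ne
  have ht0 : t ≠ 0 := fun h0 => hD0 (zero_dvd_iff.1 (h0 ▸ ht))
  have hp := fam_PF hD0
  have hpi : ¬ pi1 ∣ d := not_pi1 e (Δ := Δ * t ^ 2) (by
    rw [sq]; exact prim_mul hg.prm (prim_mul htp htp)) hd hw hbd (by
    rw [← mul_assoc]; exact h (plc e pi1_prime))
  -- the primes of `d`
  have hprime : ∀ ρ : ZI, Prime ρ → ρ ∣ d → ρ ∣ Δ := by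
    intro ρ hρ hρd
    by_contra hρD
    have h1 : ¬ ρ ∣ 2 * Δ * t ^ 2 := by
      intro h2
      rcases hρ.dvd_or_dvd h2 with h2 | h2
      swap
      · exact hρD ((hρ.dvd_of_dvd_pow h2).trans ht)
      rcases hρ.dvd_or_dvd h2 with h3 | h3
      · rw [two_eq_pi] at h3
        rcases hρ.dvd_or_dvd h3 with h4 | h4
        · have h5 := hρ.dvd_of_dvd_pow h4
          have h6 := (hρ.dvd_prime_iff_associated pi1_prime).1 h5
          exact hpi (h6.symm.dvd.trans hρd)
        · refine hρ.not_isUnit (isUnit_of_dvd_unit h4 ?_)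
          exact ⟨⟨⟨0, -1⟩, ⟨0, 1⟩, by decide, by decide⟩, rfl⟩
      · exact hρD h3
    exact not_dvd_of_loc e hρ h1 hd hw hbd (h (plc e hρ)) hρd
  set S := Finset.univ.filter (fun i => fam Δ i ∣ d) with hS
  have hDV : DD (fam Δ) Finset.univ = Δ := hg.DD
  have hSd : DD (fam Δ) S ∣ d := by
    unfold DD
    refine Finset.prod_dvd_of_coprime ?_ ?_
    · intro i _ j _ hij
      exact (hp.pp i).cop (hp.pp j) fun h => hij (hp.inj h)
    · intro i hi
      exact (Finset.mem_filter.1 hi).2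
  obtain ⟨u, hu⟩ := hSd
  have huu : IsUnit u := by
    by_contra hnu
    have hu0 : u ≠ 0 := by
      rintro rfl
      exact hd.ne_zero (by rw [hu, mul_zero])
    obtain ⟨ρ, hρ, hρu⟩ := WfDvdMonoid.exists_irreducible_factor hnu hu0
    have hρ' : Prime ρ := irreducible_iff_prime.1 hρ
    have h1 : ρ ∣ d := by rw [hu]; exact hρu.mul_left _
    have h2 := hprime ρ hρ' h1
    rw [← hDV] at h2
    unfold DD at h2
    obtain ⟨i, hi, hρi⟩ := (hρ'.dvd_finsetProd_iff _).1 h2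
    have h3 : fam Δ i ∣ ρ := by
      obtain ⟨c, hc⟩ := hρi
      rcases (hp.pp i).pr.irreducible.isUnit_or_isUnit hc with h4 | h4
      · exact absurd h4 hρ'.not_isUnit
      · obtain ⟨c', hc'⟩ := h4.exists_right_inv
        exact ⟨c', by rw [hc, mul_assoc, hc', mul_one]⟩
    have h4 : i ∈ S := Finset.mem_filter.2 ⟨hi, h3.trans h1⟩
    have h5 : fam Δ i * fam Δ i ∣ d := by
      rw [hu]
      refine mul_dvd_mul ?_ (h3.trans hρu)
      unfold DD
      exact Finset.dvd_prod_of_mem _ h4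
    exact (hp.pp i).pr.not_isUnit (hd _ h5)
  have hun : u.norm = 1 := by
    obtain ⟨e', rfl⟩ := huu
    exact unit_norm e'
  have hDS : Δ = DD (fam Δ) S * DD (fam Δ) Sᶜ := by
    conv_lhs => rw [← hDV]
    unfold DD
    exact (Finset.prod_mul_prod_compl _ _).symm
  have hnd : ∀ (T : Finset {π : ZI // π ∈ PD Δ}) (j : {π : ZI // π ∈ PD Δ}), j ∉ T →
      ¬ fam Δ j ∣ DD (fam Δ) T := by
    intro T j hT h
    unfold DD at h
    obtain ⟨i, hi, hji⟩ := ((hp.pp j).pr.dvd_finsetProd_iff _).1 h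
    exact not_dvd_of_ne hp (fun h' => hT (by rw [h']; exact hi)) hji
  -- the local conditions
  have hloc : ∀ j, (j ∉ S → qr (fam Δ j) u * qr (fam Δ j) (DD (fam Δ) S) = 1) ∧
      (j ∈ S → qr (fam Δ j) u * (qr (fam Δ j) 2 * qr (fam Δ j) (DD (fam Δ) Sᶜ)) = 1) := by
    intro j
    have hP := hp.pp j
    have hjD : fam Δ j ∣ Δ := (Finset.dvd_prod_of_mem (fam Δ) (Finset.mem_univ j)).trans (dvd_of_eq hDV)
    have h2 := not_dvd_two hP
    obtain ⟨k, hval⟩ := val_odd e hP.pr (val_sqf e hP.pr hg.sqf hjD) h2 ht0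
    have h20 : (2 * Δ * t ^ 2 : ZI) ≠ 0 := mul_ne_zero (mul_ne_zero (by decide) hD0) (pow_ne_zero 2 ht0)
    obtain ⟨h1, h3⟩ := loc_bad3 (d := d) (d' := u * (2 * DD (fam Δ) Sᶜ)) (D' := u) (s := t) e hP.pr hP
      h2 h20 ht0 hval hw hbd (h (plc e hP.pr))
    constructor
    · intro hjS
      have h4 := h1 (fun h' => hjS (Finset.mem_filter.2 ⟨Finset.mem_univ _, h'⟩))
      rw [hu, qr_mul hP] at h4
      rw [mul_comm]
      exact h4
    · intro hjS
      have h4 := h3 hd (Finset.mem_filter.1 hjS).2 (by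
        have h6 : d * (u * (2 * DD (fam Δ) Sᶜ)) * t ^ 2 =
            (2 * (DD (fam Δ) S * DD (fam Δ) Sᶜ) * t ^ 2) * u ^ 2 := by rw [hu]; ring
        exact h6.trans (congrArg (fun r => (2 * r * t ^ 2) * u ^ 2) hDS.symm)) (by
        intro h'
        rcases hP.pr.dvd_or_dvd h' with h4 | h4
        · exact not_dvd_unit hP hun h4
        · rcases hP.pr.dvd_or_dvd h4 with h5 | h5
          · exact h2 h5
          · exact hnd _ _ (fun h6 => (Finset.mem_compl.1 h6) hjS) h5)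
      rw [qr_mul hP, qr_mul hP] at h4
      exact h4
  obtain ⟨z, hz, hker⟩ := endg hp hun hloc
  obtain ⟨u0, hu0⟩ : ∃ u0 : ZI, u = im1 ^ (ue u).val * u0 ^ 2 := unit_class hun
  refine ⟨z, hker, ue u, em0 e u0 * w, ?_⟩
  have hS' : (Finset.univ.filter fun i => z i + ue u = 1) = S := by
    ext i
    rw [Finset.mem_filter, hz i]
    by_cases hi : i ∈ S
    · rw [if_pos hi]
      have h9 : ∀ a : ZMod 2, 1 + a + a = 1 := by decide
      exact ⟨fun _ => hi, fun _ => ⟨Finset.mem_univ _, h9 _⟩⟩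
    · rw [if_neg hi]
      have h9 : ∀ a : ZMod 2, 0 + a + a ≠ 1 := by decide
      exact ⟨fun h => absurd h.2 (h9 _), fun h => absurd h hi⟩
  unfold cz
  rw [hS', hbd, hu]
  conv_lhs => rw [hu0]
  simp only [map_mul, map_pow]
  ring

end

/-- the upper bound for the twist by `t` -/
theorem upt {K : Type} [Field K] [NumberField K] (e : ZI ≃+* 𝓞 K) {Δ D t : ZI} (hΔ : PS Δ)
    (hD : Kd Δ D) (htp : prim t) (ht : t ∣ Δ) {b : K} (hb : b ≠ 0)
    (h : LF (em0 e (D * t ^ 2)) b) :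
    ∃ z ∈ Ker Δ, ∃ (a : ZMod 2) (c : K), b = em0 e (cz Δ z a) * c ^ 2 := by
  rcases hD with rfl | rfl | rfl
  · exact up1t e (Or.inl rfl) hΔ htp ht hb h
  · exact up1t e (Or.inr rfl) hΔ htp ht hb h
  · exact up2t e hΔ htp ht hb h

/-- **module 5.** -/
theorem cntt : S_CNTT := by
  classical
  intro K _ _ e Δ D t hΔ hD htp ht
  have hcard := Sel_card (K := K) e hΔ hD
  have ht0 : t ≠ 0 := fun h0 => hΔ.ne (zero_dvd_iff.1 (h0 ▸ ht))
  have hDK : (em0 e (D * t ^ 2) : K) ≠ 0 :=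
    em0_ne e (mul_ne_zero (kd_ne hΔ hD) (pow_ne_zero 2 ht0))
  have hT : IsT (q4 (em0 e (D * t ^ 2) : K)) 0 (em0 e (D * t ^ 2)) :=
    ⟨rfl, rfl, rfl, rfl, rfl, hDK, by
      rw [zero_pow two_ne_zero, zero_sub]
      exact neg_ne_zero.2 (mul_ne_zero (by norm_num) hDK)⟩
  have hfin : (Sel (em0 e D : K)).Finite := by
    rw [Sel_eq e hΔ hD]
    exact Set.toFinite _
  have : Finite (Sel (em0 e D : K)) := hfin.to_subtype
  have hone : (1 : Kˣ ⧸ Sq K) ∈ Sel (em0 e D : K) := by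
    refine ⟨1, rfl, ?_⟩
    constructor
    · intro v
      exact ⟨1, 1, one_ne_zero, by rw [Units.val_one, map_one, one_pow, one_mul], Or.inl rfl⟩
    · intro v
      exact ⟨1, 1, one_ne_zero, by rw [Units.val_one, map_one, one_pow, one_mul], Or.inl rfl⟩
  have hin : ∀ b : Kˣ, LF (em0 e (D * t ^ 2) : K) (b : K) → (b : Kˣ ⧸ Sq K) ∈ Sel (em0 e D : K) := by
    intro b hb
    obtain ⟨z, hz, a, c, hc⟩ := upt e hΔ hD htp ht b.ne_zero hb
    have hc0 : c ≠ 0 := by
      rintro rfl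
      rw [zero_pow two_ne_zero, mul_zero] at hc
      exact b.ne_zero hc
    rw [Sel_eq e hΔ hD]
    refine ⟨(z, a), ⟨hz, Set.mem_univ _⟩, ?_⟩
    unfold Phi
    rw [quot_eq]
    refine ⟨Units.mk0 c hc0, Units.ext ?_⟩
    rw [Units.val_mul, Units.val_pow_eq_pow_val, Units.val_mk0, Units.val_mk0, hc]
  obtain ⟨hf, hc⟩ := Zc_card hT (U := Sel (em0 e D : K)) (V := Sel (em0 e D : K)) hone
    (fun b hb => hin b (by
      intro v
      have h2 := hb.1 v
      rwa [map_zero] at h2)) (fun b hb => hin b (by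
      intro v
      have := Pool.Agent.Y682.charZero_adic v
      have h1 := hb.1 v
      rw [map_zero] at h1
      refine S2_S1 (i := algebraMap K (v.adicCompletion K) (em0 e im1)) ?_ h1
      rw [← map_pow, Pool.Agent.Y715.Z.im1_sq, map_neg, map_one]))
  obtain ⟨h3, h4⟩ := Zc_lower hT
  refine ⟨h3, ?_⟩
  have h5 : Nat.card (Sel (em0 e D : K)) = 2 * (Ker Δ).ncard := hcard
  rw [h5] at hc
  nlinarith

end Pool.Agent.D0H43.MQ
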