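import Pool.Agent.D0H43.MQ.Gen
import Pool.Agent.D0H43.MQ.Cntt

/-!
# Project MQ: the classes of twists
-/

set_option autoImplicit false

open NumberField IsDedekindDomain
open scoped Classical

namespace Pool.Agent.D0H43.MQ

open H385 (ZI RQ im1 nrm)
open Pool.Agent.Y699
open Pool.Agent.H304R2.EC.A1 (prim prim_mul prim_cancel exists_prim prim_norm_odd)
open Pool.Agent.D0H43.RZ (cv)

/-- the twists -/
def SU (U : Set ZI) (Δ : ZI) : Set ZI := {A | ∃ κ ∈ U, ∃ t, prim t ∧ t ∣ Δ ∧ A = κ * Δ * t ^ 2}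

/-- the radicands -/
def TV (V : Set ZI) (Δ : ZI) : Set ZI := {x | ∃ u ∈ V, ∃ t, prim t ∧ t ∣ Δ ∧ x = u * t}

/-- compatible sets of factors -/
structure CU (U V : Set ZI) (m : ZI) : Prop where
  m0 : m ≠ 0
  u0 : ∀ κ ∈ U, κ ≠ 0
  v0 : ∀ u ∈ V, u ≠ 0
  dv : ∀ κ ∈ U, ∀ u ∈ V, 2 * κ * u ∣ m
  cl : ∀ κ ∈ U, ∀ u ∈ V, ∃ κ' ∈ U, ∃ w, w ∣ m ∧ u ^ 2 * κ = w ^ 4 * κ'

theorem CU.Cl {U V : Set ZI} {m : ZI} (h : CU U V m) {Δ : ZI} (hΔ : Δ ≠ 0) :
    Cl (SU U Δ) (TV V Δ) (m * Δ ^ 4) where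
  ne := by
    rintro _ ⟨κ, hκ, t, -, ht, rfl⟩
    have ht0 : t ≠ 0 := fun h0 => hΔ (zero_dvd_iff.1 (h0 ▸ ht))
    exact mul_ne_zero (mul_ne_zero (h.u0 κ hκ) hΔ) (pow_ne_zero 2 ht0)
  m0 := mul_ne_zero h.m0 (pow_ne_zero 4 hΔ)
  t0 := by
    rintro _ ⟨u, hu, t, -, ht, rfl⟩
    have ht0 : t ≠ 0 := fun h0 => hΔ (zero_dvd_iff.1 (h0 ▸ ht))
    exact mul_ne_zero (h.v0 u hu) ht0
  dv := by
    rintro _ ⟨κ, hκ, t, -, ht, rfl⟩ _ ⟨u, hu, t', -, ht', rfl⟩
    have h1 : 2 * (κ * Δ * t ^ 2) * (u * t') = (2 * κ * u) * (Δ * t ^ 2 * t') := by ring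
    have h2 : Δ ^ 4 = Δ * Δ ^ 2 * Δ := by ring
    rw [h1, h2]
    exact mul_dvd_mul (h.dv κ hκ u hu) (mul_dvd_mul (mul_dvd_mul dvd_rfl (pow_dvd_pow_of_dvd ht 2)) ht')
  cl := by
    rintro _ ⟨κ, hκ, t, htp, ht, rfl⟩ _ ⟨u, hu, t', htp', ht', rfl⟩
    obtain ⟨κ', hκ', w, hw, h1⟩ := h.cl κ hκ u hu
    obtain ⟨g, c, hg, hc, hgd, hcd, h2⟩ := clos htp htp' ht ht'
    refine ⟨κ' * Δ * c ^ 2, ⟨κ', hκ', c, hc, hcd, rfl⟩, w * g, ?_, ?_⟩
    · exact mul_dvd_mul hw (hgd.trans (dvd_pow_self Δ (by norm_num)))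
    · calc (u * t') ^ 2 * (κ * Δ * t ^ 2) = (u ^ 2 * κ) * Δ * (t * t') ^ 2 := by ring
        _ = w ^ 4 * κ' * Δ * (c * g ^ 2) ^ 2 := by rw [h1, h2]
        _ = (w * g) ^ 4 * (κ' * Δ * c ^ 2) := by ring

/-- the units -/
def V4 : Set ZI := {1, im1, -1, -im1}

/-- `1` and `-1` -/
def V2 : Set ZI := {1, -1}

/-- class A -/
theorem cuA : CU {im1, -im1} V4 2 where
  m0 := by decide
  u0 := by
    rintro κ (rfl | rfl) <;> decide
  v0 := by
    rintro u (rfl | rfl | rfl | rfl) <;> decide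
  dv := by
    rintro κ (rfl | rfl) u (rfl | rfl | rfl | rfl)
    · exact ⟨-im1, by decide⟩
    · exact ⟨-1, by decide⟩
    · exact ⟨im1, by decide⟩
    · exact ⟨1, by decide⟩
    · exact ⟨im1, by decide⟩
    · exact ⟨1, by decide⟩
    · exact ⟨-im1, by decide⟩
    · exact ⟨-1, by decide⟩
  cl := by
    rintro κ (rfl | rfl) u (rfl | rfl | rfl | rfl)
    · exact ⟨im1, by simp, 1, one_dvd _, by decide⟩
    · exact ⟨-im1, by simp, 1, one_dvd _, by decide⟩
    · exact ⟨im1, by simp, 1, one_dvd _, by decide⟩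
    · exact ⟨-im1, by simp, 1, one_dvd _, by decide⟩
    · exact ⟨-im1, by simp, 1, one_dvd _, by decide⟩
    · exact ⟨im1, by simp, 1, one_dvd _, by decide⟩
    · exact ⟨-im1, by simp, 1, one_dvd _, by decide⟩
    · exact ⟨im1, by simp, 1, one_dvd _, by decide⟩

/-- class B -/
theorem cuB {κ : ZI} (hκ : κ ≠ 0) : CU {κ} V2 (2 * κ) where
  m0 := mul_ne_zero two_ne_zero hκ
  u0 := by
    intro κ' h
    rw [Set.mem_singleton_iff.1 h]
    exact hκ
  v0 := by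
    rintro u (rfl | rfl) <;> decide
  dv := by
    intro κ' h u hu
    rw [Set.mem_singleton_iff.1 h]
    rcases hu with rfl | rfl
    · exact ⟨1, by ring⟩
    · exact ⟨-1, by ring⟩
  cl := by
    intro κ' h u hu
    rw [Set.mem_singleton_iff.1 h]
    rcases hu with rfl | rfl
    · exact ⟨κ, rfl, 1, one_dvd _, by ring⟩
    · exact ⟨κ, rfl, 1, one_dvd _, by ring⟩

/-- class C -/
theorem cuC {κ : ZI} (hκ : κ ≠ 0) : CU {κ, -κ} V4 (2 * κ) where
  m0 := mul_ne_zero two_ne_zero hκ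
  u0 := by
    intro κ' h
    rcases h with h | h
    · rw [h]; exact hκ
    · rw [Set.mem_singleton_iff.1 h]; exact neg_ne_zero.2 hκ
  v0 := by
    rintro u (rfl | rfl | rfl | rfl) <;> decide
  dv := by
    have hi : (im1 : ZI) * im1 = -1 := by decide
    intro κ' h u hu
    rcases h with h | h
    · rw [h]
      rcases hu with rfl | rfl | rfl | rfl
      · exact ⟨1, by ring⟩
      · exact ⟨-im1, by linear_combination 2 * κ * hi⟩
      · exact ⟨-1, by ring⟩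
      · exact ⟨im1, by linear_combination 2 * κ * hi⟩
    · rw [Set.mem_singleton_iff.1 h]
      rcases hu with rfl | rfl | rfl | rfl
      · exact ⟨-1, by ring⟩
      · exact ⟨im1, by linear_combination 2 * κ * hi⟩
      · exact ⟨1, by ring⟩
      · exact ⟨-im1, by linear_combination 2 * κ * hi⟩
  cl := by
    have hi : (im1 : ZI) * im1 = -1 := by decide
    intro κ' h u hu
    rcases h with h | h
    · rw [h]
      rcases hu with rfl | rfl | rfl | rfl
      · exact ⟨κ, by simp, 1, one_dvd _, by ring⟩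
      · exact ⟨-κ, by simp, 1, one_dvd _, by linear_combination κ * hi⟩
      · exact ⟨κ, by simp, 1, one_dvd _, by ring⟩
      · exact ⟨-κ, by simp, 1, one_dvd _, by linear_combination κ * hi⟩
    · rw [Set.mem_singleton_iff.1 h]
      rcases hu with rfl | rfl | rfl | rfl
      · exact ⟨-κ, by simp, 1, one_dvd _, by ring⟩
      · exact ⟨κ, by simp, 1, one_dvd _, by linear_combination (-κ) * hi⟩
      · exact ⟨-κ, by simp, 1, one_dvd _, by ring⟩
      · exact ⟨κ, by simp, 1, one_dvd _, by linear_combination (-κ) * hi⟩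

/-- class D, the first choice of `i` -/
theorem cuD1 : CU {2, -im1} {1, -1, 1 + im1, -(1 + im1)} (4 * (1 + im1)) where
  m0 := by decide
  u0 := by
    rintro κ (rfl | rfl) <;> decide
  v0 := by
    rintro u (rfl | rfl | rfl | rfl) <;> decide
  dv := by
    rintro κ (rfl | rfl) u (rfl | rfl | rfl | rfl)
    · exact ⟨1 + im1, by decide⟩
    · exact ⟨-(1 + im1), by decide⟩
    · exact ⟨1, by decide⟩
    · exact ⟨-1, by decide⟩
    · exact ⟨2 * im1 * (1 + im1), by decide⟩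
    · exact ⟨-2 * im1 * (1 + im1), by decide⟩
    · exact ⟨2 * im1, by decide⟩
    · exact ⟨-2 * im1, by decide⟩
  cl := by
    rintro κ (rfl | rfl) u (rfl | rfl | rfl | rfl)
    · exact ⟨2, by simp, 1, one_dvd _, by decide⟩
    · exact ⟨2, by simp, 1, one_dvd _, by decide⟩
    · exact ⟨-im1, by simp, 1 + im1, Dvd.intro_left _ rfl, by decide⟩
    · exact ⟨-im1, by simp, 1 + im1, Dvd.intro_left _ rfl, by decide⟩
    · exact ⟨-im1, by simp, 1, one_dvd _, by decide⟩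
    · exact ⟨-im1, by simp, 1, one_dvd _, by decide⟩
    · exact ⟨2, by simp, 1, one_dvd _, by decide⟩
    · exact ⟨2, by simp, 1, one_dvd _, by decide⟩

/-- class D, the second choice of `i` -/
theorem cuD2 : CU {2, im1} {1, -1, 1 - im1, -(1 - im1)} (4 * (1 - im1)) where
  m0 := by decide
  u0 := by
    rintro κ (rfl | rfl) <;> decide
  v0 := by
    rintro u (rfl | rfl | rfl | rfl) <;> decide
  dv := by
    rintro κ (rfl | rfl) u (rfl | rfl | rfl | rfl)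
    · exact ⟨1 - im1, by decide⟩
    · exact ⟨-(1 - im1), by decide⟩
    · exact ⟨1, by decide⟩
    · exact ⟨-1, by decide⟩
    · exact ⟨-2 * im1 * (1 - im1), by decide⟩
    · exact ⟨2 * im1 * (1 - im1), by decide⟩
    · exact ⟨-2 * im1, by decide⟩
    · exact ⟨2 * im1, by decide⟩
  cl := by
    rintro κ (rfl | rfl) u (rfl | rfl | rfl | rfl)
    · exact ⟨2, by simp, 1, one_dvd _, by decide⟩
    · exact ⟨2, by simp, 1, one_dvd _, by decide⟩
    · exact ⟨im1, by simp, 1 - im1, Dvd.intro_left _ rfl, by decide⟩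
    · exact ⟨im1, by simp, 1 - im1, Dvd.intro_left _ rfl, by decide⟩
    · exact ⟨im1, by simp, 1, one_dvd _, by decide⟩
    · exact ⟨im1, by simp, 1, one_dvd _, by decide⟩
    · exact ⟨2, by simp, 1, one_dvd _, by decide⟩
    · exact ⟨2, by simp, 1, one_dvd _, by decide⟩

/-- the divisors of a primary element -/
theorem dec4 {t Δ : ZI} (ht : t ∣ Δ) (hΔ : prim Δ) : t ∈ TV V4 Δ := by
  have hodd : t.norm % 2 = 1 := by
    rw [norm_odd_iff]
    intro hp
    exact (norm_odd_iff Δ).1 (prim_norm_odd hΔ) (hp.trans ht)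
  obtain ⟨u, v, huv, hug⟩ := exists_prim t hodd
  have hu : IsUnit u := IsUnit.of_mul_eq_one v huv
  have hv : IsUnit v := IsUnit.of_mul_eq_one u (by rw [mul_comm]; exact huv)
  have e1 : t = v * (u * t) := by rw [← mul_assoc, mul_comm v u, huv, one_mul]
  have hn : v.norm = 1 := by
    obtain ⟨v', rfl⟩ := hv
    exact Pool.Agent.W164.RC.unit_norm v'
  refine ⟨v, ?_, u * t, hug, (hu.mul_left_dvd).2 ht, e1⟩
  have e2 : (im1 : ZI) ^ 2 = -1 := by decide
  have e3 : (im1 : ZI) ^ 3 = -im1 := by decide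
  rcases Pool.Agent.W164.RC.unit_cases hn with h | h | h | h
  · rw [h]; simp [V4]
  · rw [h]; simp [V4]
  · rw [h, e2]; simp [V4]
  · rw [h, e3]; simp [V4]

/-- the divisors that are `1` modulo `2` -/
theorem dec2 {t Δ : ZI} (ht : t ∣ Δ) (hΔ : prim Δ) (h2 : 2 ∣ t - 1) : t ∈ TV V2 Δ := by
  obtain ⟨u, hu, t', htp, ht', rfl⟩ := dec4 ht hΔ
  refine ⟨u, ?_, t', htp, ht', rfl⟩
  have h3 := Pool.Agent.D0H10.Q4.two_dvd.1 h2
  obtain ⟨p1, p2⟩ := htp
  rcases hu with rfl | rfl | rfl | rfl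
  · simp [V2]
  · exfalso
    simp [im1] at h3
    omega
  · simp [V2]
  · exfalso
    simp [im1] at h3
    omega

end Pool.Agent.D0H43.MQ
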