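import Pool.Agent.D0H43.MQ.Tow
import Pool.Agent.D0H43.MQ.StmB
import Pool.Agent.D0H43.RZ.Fin

/-!
# Project MQ: classes of twists that are closed under quadratic extensions
-/

set_option autoImplicit false

open NumberField IsDedekindDomain
open scoped Classical

namespace Pool.Agent.D0H43.MQ

open H385 (ZI RQ im1 nrm)
open Pool.Agent.Y699
open Pool.Agent.H304R2.EC.A1 (prim prim_mul prim_cancel exists_prim prim_norm_odd)
open Pool.Agent.D0H43.RZ (cv)

/-- two primary divisors -/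
theorem clos {Δ t₀ t : ZI} (h0 : prim t₀) (h : prim t) (h0d : t₀ ∣ Δ) (hd : t ∣ Δ) :
    ∃ g c : ZI, prim g ∧ prim c ∧ g ∣ Δ ∧ c ∣ Δ ∧ t₀ * t = c * g ^ 2 := by
  obtain ⟨g0, hd1, hd2, x, y, hxy⟩ : ∃ g0 : ZI, g0 ∣ t₀ ∧ g0 ∣ t ∧ ∃ x y : ZI,
      g0 = t₀ * x + t * y :=
    ⟨EuclideanDomain.gcd t₀ t, EuclideanDomain.gcd_dvd_left _ _, EuclideanDomain.gcd_dvd_right _ _,
      _, _, EuclideanDomain.gcd_eq_gcd_ab t₀ t⟩
  have hodd : g0.norm % 2 = 1 := by
    rw [norm_odd_iff]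
    intro hp
    exact (norm_odd_iff t₀).1 (prim_norm_odd h0) (hp.trans hd1)
  obtain ⟨u, v, huv, hug⟩ := exists_prim g0 hodd
  have hu : IsUnit u := IsUnit.of_mul_eq_one v huv
  obtain ⟨a, ha⟩ : u * g0 ∣ t₀ := (hu.mul_left_dvd).2 hd1
  obtain ⟨b, hb⟩ : u * g0 ∣ t := (hu.mul_left_dvd).2 hd2
  have hap : prim a := prim_cancel hug (by rwa [← ha])
  have hbp : prim b := prim_cancel hug (by rwa [← hb])
  have hg00 : g0 ≠ 0 := by
    intro h1
    rw [h1] at hodd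
    revert hodd
    decide
  have hcop : IsCoprime a b := by
    refine ⟨u * x, u * y, ?_⟩
    apply mul_left_cancel₀ hg00
    calc g0 * (u * x * a + u * y * b) = (u * g0 * a) * x + (u * g0 * b) * y := by ring
      _ = t₀ * x + t * y := by rw [← ha, ← hb]
      _ = g0 * 1 := by rw [mul_one, ← hxy]
  refine ⟨u * g0, a * b, hug, prim_mul hap hbp, ?_, ?_, ?_⟩
  · exact ((hu.mul_left_dvd).2 hd1).trans h0d
  · refine hcop.mul_dvd ((Dvd.intro_left _ ha.symm).trans h0d) ((Dvd.intro_left _ hb.symm).trans hd)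
  · rw [ha, hb]
    ring

/-- the partial Euler product is entire and not zero at `1` -/
def PL (F : Type) [Field F] [NumberField F] (A M : 𝓞 F) : Prop :=
  ∃ G : ℂ → ℂ, Differentiable ℂ G ∧ G 1 ≠ 0 ∧ ∀ s : ℂ, 2 < s.re →
    HasProd (fun v : {v : HeightOneSpectrum (𝓞 F) // M ∉ v.asIdeal} => fac A s v.1) (G s)

lemma np_pow4 {k : Type} [CommRing k] {c : k} (hc : IsUnit c) (A : k) : np (c ^ 4 * A) = np A := by
  obtain ⟨u, rfl⟩ := hc
  unfold np
  refine Nat.card_congr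
    { toFun := fun P => ⟨((↑u⁻¹ : k) ^ 2 * P.1.1, (↑u⁻¹ : k) ^ 3 * P.1.2), ?_⟩
      invFun := fun P => ⟨((u : k) ^ 2 * P.1.1, (u : k) ^ 3 * P.1.2), ?_⟩
      left_inv := fun P => ?_
      right_inv := fun P => ?_ }
  · have h := P.2
    have hu : (u : k) * ↑u⁻¹ = 1 := u.mul_inv
    have h4 : (u : k) ^ 4 * (↑u⁻¹ : k) ^ 4 = 1 := by rw [← mul_pow, hu, one_pow]
    show ((↑u⁻¹ : k) ^ 3 * P.1.2) ^ 2 = ((↑u⁻¹ : k) ^ 2 * P.1.1) ^ 3 + A * ((↑u⁻¹ : k) ^ 2 * P.1.1)
    linear_combination (↑u⁻¹ : k) ^ 6 * h + (A * (↑u⁻¹ : k) ^ 2 * P.1.1) * h4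
  · have h := P.2
    show ((u : k) ^ 3 * P.1.2) ^ 2 = ((u : k) ^ 2 * P.1.1) ^ 3 + u ^ 4 * A * ((u : k) ^ 2 * P.1.1)
    linear_combination (u : k) ^ 6 * h
  · apply Subtype.ext
    have hu : (u : k) * ↑u⁻¹ = 1 := u.mul_inv
    apply Prod.ext
    · show (u : k) ^ 2 * ((↑u⁻¹ : k) ^ 2 * P.1.1) = P.1.1
      rw [← mul_assoc, ← mul_pow, hu, one_pow, one_mul]
    · show (u : k) ^ 3 * ((↑u⁻¹ : k) ^ 3 * P.1.2) = P.1.2
      rw [← mul_assoc, ← mul_pow, hu, one_pow, one_mul]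
  · apply Subtype.ext
    have hu : (↑u⁻¹ : k) * u = 1 := u.inv_mul
    apply Prod.ext
    · show (↑u⁻¹ : k) ^ 2 * ((u : k) ^ 2 * P.1.1) = P.1.1
      rw [← mul_assoc, ← mul_pow, hu, one_pow, one_mul]
    · show (↑u⁻¹ : k) ^ 3 * ((u : k) ^ 3 * P.1.2) = P.1.2
      rw [← mul_assoc, ← mul_pow, hu, one_pow, one_mul]

section

variable {L : Type} [Field L] [NumberField L]

lemma fac_pow4 {A g : 𝓞 L} {v : HeightOneSpectrum (𝓞 L)} (hg : g ∉ v.asIdeal) (s : ℂ) :
    fac (g ^ 4 * A) s v = fac A s v := by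
  have hmax : v.asIdeal.IsMaximal := v.isPrime.isMaximal v.ne_bot
  have hu : IsUnit (Ideal.Quotient.mk v.asIdeal g) := by
    letI : Field (𝓞 L ⧸ v.asIdeal) := Ideal.Quotient.field v.asIdeal
    apply IsUnit.mk0
    rwa [Ne, Ideal.Quotient.eq_zero_iff_mem]
  have h : np (Ideal.Quotient.mk v.asIdeal (g ^ 4 * A)) = np (Ideal.Quotient.mk v.asIdeal A) := by
    rw [map_mul, map_pow]
    exact np_pow4 hu _
  unfold fac tn
  rw [h]

lemma PL_scale {A M g : 𝓞 L} (hg : g ∣ M) (h : PL L A M) : PL L (g ^ 4 * A) M := by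
  obtain ⟨G, h1, h2, h3⟩ := h
  refine ⟨G, h1, h2, fun s hs => ?_⟩
  refine (h3 s hs).congr_fun fun v => ?_
  refine (fac_pow4 (fun hv => v.2 ?_) s)
  obtain ⟨c, rfl⟩ := hg
  exact Ideal.mul_mem_right _ _ hv

lemma PL_step (H : S_STEP) {F : Type} [Field F] [NumberField F] [Algebra L F]
    (h2 : Module.finrank L F = 2) {A d M : 𝓞 L} {θ : 𝓞 F} (hθ : θ ^ 2 = algebraMap (𝓞 L) (𝓞 F) d)
    (hn : ∀ x : L, algebraMap L F x ≠ θ) (hM : 2 * A * d ∣ M) (h : PL L A M)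
    (h' : PL L (d ^ 2 * A) M) : PL F (algebraMap (𝓞 L) (𝓞 F) A) (algebraMap (𝓞 L) (𝓞 F) M) := by
  obtain ⟨G, h1, h2', h3⟩ := h
  obtain ⟨G', h1', h2'', h3'⟩ := h'
  exact ⟨fun s => G s * G' s, h1.mul h1', mul_ne_zero h2' h2'', fun s hs =>
    H L F h2 A d M θ hθ hn hM s _ _ hs (h3 s hs) (h3' s hs)⟩

end

/-- a class of twists closed under quadratic extensions -/
structure Cl (S T : Set ZI) (M : ZI) : Prop where
  ne : ∀ A ∈ S, A ≠ 0
  m0 : M ≠ 0
  t0 : ∀ t ∈ T, t ≠ 0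
  dv : ∀ A ∈ S, ∀ t ∈ T, 2 * A * t ∣ M
  cl : ∀ A ∈ S, ∀ t ∈ T, ∃ A' ∈ S, ∃ g : ZI, g ∣ M ∧ t ^ 2 * A = g ^ 4 * A'

section

variable {K : Type} [Field K] [NumberField K] (e : ZI ≃+* 𝓞 K)

/-- the map to the integers of an extension -/
noncomputable def io (F : Type) [Field F] [NumberField F] [Algebra K F] : ZI →+* 𝓞 F :=
  (algebraMap (𝓞 K) (𝓞 F)).comp (e : ZI →+* 𝓞 K)

/-- the base -/
lemma io_bij (F : Type) [Field F] [NumberField F] [Algebra K F]
    (h : Function.Bijective (algebraMap K F)) : ∃ e' : ZI ≃+* 𝓞 F, ∀ a, e' a = io e F a := by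
  have hb : Function.Bijective (io e F) := by
    constructor
    · intro a b hab
      apply e.injective
      have h1 := congrArg (fun z : 𝓞 F => (z : F)) hab
      exact RingOfIntegers.ext (h.1 h1)
    · intro y
      obtain ⟨x, hx⟩ := h.2 (y : F)
      have hint : IsIntegral ℤ x := by
        have h2 : IsIntegral ℤ (algebraMap K F x) := by rw [hx]; exact y.2
        exact (isIntegral_algHom_iff ((algebraMap K F).toIntAlgHom) (algebraMap K F).injective).1 h2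
      obtain ⟨a, ha⟩ := e.surjective ⟨x, hint⟩
      refine ⟨a, ?_⟩
      apply RingOfIntegers.ext
      show algebraMap K F ((e a : 𝓞 K) : K) = y
      rw [ha]
      exact hx
  exact ⟨RingEquiv.ofBijective _ hb, fun a => rfl⟩

lemma io_tower {L F : Type} [Field L] [NumberField L] [Field F] [NumberField F] [Algebra K L]
    [Algebra K F] [Algebra L F] [IsScalarTower K L F] (a : ZI) :
    io e F a = algebraMap (𝓞 L) (𝓞 F) (io e L a) := by
  apply RingOfIntegers.ext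
  show algebraMap K F ((e a : 𝓞 K) : K) = algebraMap L F (algebraMap K L ((e a : 𝓞 K) : K))
  exact IsScalarTower.algebraMap_apply K L F _

/-- `F` is generated over `K` by square roots of elements of `T` -/
def Gn (T : Set ZI) (F : Type) [Field F] [NumberField F] [Algebra K F] : Prop :=
  ∃ (n : ℕ) (x : Fin n → F), (∀ i, ∃ t ∈ T, x i ^ 2 = algebraMap K F ((e t : 𝓞 K) : K)) ∧
    IntermediateField.adjoin K (Set.range x) = ⊤

/-- **the Euler products over the extensions** -/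
theorem overL (H : S_STEP) {S T : Set ZI} {M : ZI} (C : Cl S T M)
    (hK : ∀ (K' : Type) [Field K'] [NumberField K'] (e' : ZI ≃+* 𝓞 K'), ∀ A ∈ S,
      PL K' (e' A) (e' M)) (F : Type) [Field F] [NumberField F] [Algebra K F] (hF : Gn e T F) :
    ∀ A ∈ S, PL F (io e F A) (io e F M) := by
  obtain ⟨n, x, hx, hg⟩ := hF
  refine tower (K := K) {y | ∃ t ∈ T, y = e t}
    (fun F _ _ _ => ∀ A ∈ S, PL F (io e F A) (io e F M)) ?_ ?_ n F x ?_ hg
  · intro F _ _ _ hb A hA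
    obtain ⟨e', he'⟩ := io_bij e F hb
    rw [← he', ← he']
    exact hK F e' A hA
  · rintro L F _ _ _ _ _ _ _ _ h2 _ ⟨t, ht, rfl⟩ θ hθ hn hQ A hA
    rw [io_tower e (L := L) A, io_tower e (L := L) M]
    obtain ⟨A', hA', g, hg', heq⟩ := C.cl A hA t ht
    refine PL_step H h2 (d := io e L t) (θ := θ) ?_ hn ?_ (hQ A hA) ?_
    · rw [hθ, ← io_tower e (L := L) t]
      rfl
    · rw [← map_ofNat (io e L) 2, ← map_mul, ← map_mul]
      exact map_dvd _ (C.dv A hA t ht)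
    · rw [← map_pow, ← map_mul, heq, map_mul, map_pow]
      exact PL_scale (map_dvd _ hg') (hQ A' hA')
  · intro i
    obtain ⟨t, ht, h⟩ := hx i
    exact ⟨e t, ⟨t, ht, rfl⟩, h⟩

/-- the curve over an extension -/
noncomputable def rk (F : Type) [Field F] [NumberField F] [Algebra K F] (A : ZI) : ℕ :=
  Module.finrank ℤ (cv ((io e F A : 𝓞 F) : F)).toAffine.Point

/-- **the ranks over the extensions** -/
theorem overR {S T : Set ZI} {M : ZI} (C : Cl S T M) (R : ℕ)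
    (hK : ∀ (K' : Type) [Field K'] [NumberField K'] (e' : ZI ≃+* 𝓞 K'), ∀ A ∈ S,
      Module.finrank ℤ (cv ((e' A : 𝓞 K') : K')).toAffine.Point ≤ R)
    (F : Type) [Field F] [NumberField F] [Algebra K F] (hF : Gn e T F) :
    ∀ A ∈ S, rk e F A ≤ R * Module.finrank K F := by
  obtain ⟨n, x, hx, hg⟩ := hF
  refine tower (K := K) {y | ∃ t ∈ T, y = e t}
    (fun F _ _ _ => ∀ A ∈ S, rk e F A ≤ R * Module.finrank K F) ?_ ?_ n F x ?_ hg
  · intro F _ _ _ hb A hA
    obtain ⟨e', he'⟩ := io_bij e F hb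
    have h1 : Module.finrank K F = 1 := by
      have hbt : (⊥ : Subalgebra K F) = ⊤ := by
        rw [eq_top_iff]
        intro y _
        obtain ⟨x, hx⟩ := hb.2 y
        exact Algebra.mem_bot.2 ⟨x, hx⟩
      exact Subalgebra.bot_eq_top_iff_finrank_eq_one.1 hbt
    rw [h1, mul_one]
    unfold rk
    rw [← he']
    exact hK F e' A hA
  · rintro L F _ _ _ _ _ _ _ _ h2 _ ⟨t, ht, rfl⟩ θ hθ hn hQ A hA
    obtain ⟨A', hA', g, hg', heq⟩ := C.cl A hA t ht
    have hinj : Function.Injective (io e L) := by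
      intro a b hab
      apply e.injective
      have h1 := congrArg (fun z : 𝓞 L => (z : L)) hab
      exact RingOfIntegers.ext ((algebraMap K L).injective h1)
    have hne : ∀ a : ZI, a ≠ 0 → ((io e L a : 𝓞 L) : L) ≠ 0 := by
      intro a ha h
      apply ha
      apply hinj
      rw [map_zero]
      exact RingOfIntegers.ext h
    have hθ' : (θ : F) ^ 2 = algebraMap L F ((io e L t : 𝓞 L) : L) := by
      have h3 := congrArg (fun z : 𝓞 F => (z : F)) hθ
      have h4 : ((θ ^ 2 : 𝓞 F) : F) = (θ : F) ^ 2 := by push_cast; rfl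
      rw [← h4, h3]
      exact congrArg (fun z : 𝓞 F => (z : F)) (io_tower e (L := L) t)
    have h3 := Pool.Agent.D0H43.RZ.rank_quad h2 hθ' hn (hne A (C.ne A hA))
    have e1 : algebraMap L F ((io e L A : 𝓞 L) : L) = ((io e F A : 𝓞 F) : F) := by
      exact (congrArg (fun z : 𝓞 F => (z : F)) (io_tower e (L := L) A)).symm
    have hg0 : g ≠ 0 := by
      rintro rfl
      exact C.m0 (zero_dvd_iff.1 hg')
    have e2 : ((io e L t : 𝓞 L) : L) ^ 2 * ((io e L A : 𝓞 L) : L) =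
        ((io e L g : 𝓞 L) : L) ^ 4 * ((io e L A' : 𝓞 L) : L) := by
      have h4 := congrArg (fun z : 𝓞 L => (z : L)) (congrArg (io e L) heq)
      simpa only [map_mul, map_pow] using h4
    rw [e1, e2] at h3
    have h5 := Pool.Agent.D0H43.RZ.rank_scale (hne g hg0) (hne A' (C.ne A' hA'))
    have h6 : Module.finrank K F = Module.finrank K L * 2 := by
      rw [← h2, Module.finrank_mul_finrank]
    have h7 := hQ A hA
    have h8 := hQ A' hA'
    unfold rk at h7 h8 ⊢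
    rw [h6, ← mul_assoc]
    calc _ ≤ _ := h3
      _ ≤ R * Module.finrank K L + R * Module.finrank K L :=
          Nat.add_le_add h7 (h5.trans h8)
      _ = R * Module.finrank K L * 2 := by ring
  · intro i
    obtain ⟨t, ht, h⟩ := hx i
    exact ⟨e t, ⟨t, ht, rfl⟩, h⟩

end

end Pool.Agent.D0H43.MQ
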