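import Pool.Agent.D0H43.MQ.Cls
import Pool.Agent.D0H43.Q4.AllR

/-!
# Project MQ: the facts over `ℚ(i)`
-/

set_option autoImplicit false

open NumberField IsDedekindDomain
open scoped Classical

namespace Pool.Agent.D0H43.MQ

open H385 (ZI RQ im1 nrm)
open Pool.Agent.H304R3.HK (tc HC LH)
open Pool.Agent.Y699 (PS PD fam on1 LG LG_diff PF Cg uu)
open Pool.Agent.H304R2.EC.A1 (prim prim_mul prim_cancel exists_prim prim_norm_odd)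
open Pool.Agent.D0H43.RZ (cv)
open Pool.Agent.D0H10.Q4 (dD BD nl exists_val2 cg_unit)
open Pool.Agent.D0H43.Q4
open Pool.Agent.D0H10.Q5 (Ker Kd)
open Pool.Agent.Y715.Z (em0)

/-- the inputs -/
structure BM : Prop where
  step : S_STEP
  locl : S_LOCL
  ls1 : S_LS1T
  lso : S_LSOT
  selo : S_SELOT

lemma et_odd (Δ t : ZI) (i : {π : ZI // π ∈ PD Δ}) : et Δ t i % 2 = 1 := by
  unfold et
  split_ifs <;> norm_num

lemma et_four (Δ t : ZI) (i : {π : ZI // π ∈ PD Δ}) : et Δ t i % 4 ≠ 0 := by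
  unfold et
  split_ifs <;> norm_num

/-- the `L`-function, class A -/
theorem lfunA (B : BD) (M : BM) {σ : ℕ} (hσ : σ % 2 = 1) {Δ t : ZI} (h : PS Δ) (htp : prim t)
    (ht : t ∣ Δ) (hd : dD Δ = 1) :
    ∃ Λ : ℂ → ℂ, Differentiable ℂ Λ ∧ Λ 1 ≠ 0 ∧
      ∀ (K : Type) [Field K] [NumberField K] (e : ZI ≃+* 𝓞 K) (s : ℂ), 3 / 2 < s.re →
        Λ s = (cI e σ (Δ * t ^ 2)).LSeries s := by
  have hp := Pool.Agent.Y699.fam_PF h.ne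
  have hsg : sg σ Δ % 2 = 1 := by
    unfold sg
    omega
  obtain ⟨X, hX1, hX2, hX3⟩ := B.hec (sg σ Δ) hsg _ (fam Δ) hp Finset.univ (et Δ t)
    (fun i _ => et_four Δ t i)
  rw [h.DD] at hX1
  refine ⟨LG X, LG_diff hX1, ?_, fun K _ _ e s hs => (M.ls1 σ hσ K e Δ t h htp ht X hX1 hX2 s hs).2⟩
  apply Pool.Agent.Y699.LG_one
  obtain ⟨L, Ω, s, hN⟩ := nl
  rw [hX3 _ (B.lim (sg σ Δ) hsg L Ω s hN _ (fam Δ) hp Finset.univ (et Δ t))]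
  intro h0
  have h1 : lvi (sg σ Δ) L Ω (fam Δ) Finset.univ (et Δ t) = 0 := by
    rwa [map_eq_zero] at h0
  refine exists_val2 fun Γ _ v hv => ?_
  have h2 := B.bet (sg σ Δ) hsg L Ω s hN Γ v hv _ (fam Δ) hp Finset.univ (et Δ t)
    (fun i _ => et_odd Δ t i)
  have h3 : Pool.Agent.D0H10.Q4.dq (fam Δ) Finset.univ = 1 := hd
  rw [h1, zero_div, h3] at h2
  have h4 := (cg_unit h2).2.2 rfl
  rw [map_zero] at h4
  exact zero_ne_one h4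

/-- the `L`-function, class B -/
theorem lfunB (B : O.BO) (M : BM) (σ : ℕ) {Δ t : ZI} (h : PS Δ) (htp : prim t)
    (ht : t ∣ Δ) (hd : dO σ Δ = 1) :
    ∃ Λ : ℂ → ℂ, Differentiable ℂ Λ ∧ Λ 1 ≠ 0 ∧
      ∀ (K : Type) [Field K] [NumberField K] (e : ZI ≃+* 𝓞 K) (s : ℂ), 3 / 2 < s.re →
        Λ s = (cO e σ (Δ * t ^ 2)).LSeries s := by
  have hp := Pool.Agent.Y699.fam_PF h.ne
  obtain ⟨X, hX1, hX2, hX3⟩ := B.hec (sg σ Δ) _ (fam Δ) hp Finset.univ (et Δ t)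
    (fun i _ => et_four Δ t i)
  rw [h.DD] at hX1
  refine ⟨LG X, LG_diff hX1, ?_, fun K _ _ e s hs => (M.lso σ K e Δ t h htp ht X hX1 hX2 s hs).2⟩
  apply Pool.Agent.Y699.LG_one
  obtain ⟨L, Ω, s, hN⟩ := nl
  rw [hX3 _ (B.lim (sg σ Δ) L Ω s hN _ (fam Δ) hp Finset.univ (et Δ t))]
  intro h0
  have h1 : lvo (sg σ Δ) L Ω (fam Δ) Finset.univ (et Δ t) = 0 := by
    rwa [map_eq_zero] at h0
  refine exists_val2 fun Γ _ v hv => ?_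
  have hw := O.ot_ex hN.gl
  have h2 := B.bet (sg σ Δ) L Ω s hN Γ v hv _ (fam Δ) hp Finset.univ (et Δ t)
    (fun i _ => et_odd Δ t i) _ hw
  rw [h1, zero_mul, zero_div, O.bq_eq h, hd] at h2
  have h4 := (cg_unit h2).2.2 rfl
  rw [map_zero] at h4
  exact zero_ne_one h4

section

variable {K' : Type} [Field K'] [NumberField K'] (e' : ZI ≃+* 𝓞 K')

lemma pl_of (M : BM) {A m : ZI} (hm : m ≠ 0) (hd : 2 * A ∣ m) {Λ : ℂ → ℂ} (h1 : Differentiable ℂ Λ)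
    (h2 : Λ 1 ≠ 0) (h3 : ∀ s : ℂ, 3 / 2 < s.re →
      Λ s = (Pool.Agent.Y715.Z.q4 (em0 e' A : K')).LSeries s) : PL K' (e' A) (e' m) := by
  have hm' : e' m ≠ 0 := (map_ne_zero_iff e' e'.injective).2 hm
  have hd' : 2 * e' A ∣ e' m := by
    rw [← map_ofNat e' 2, ← map_mul]
    exact map_dvd e' hd
  exact (M.locl K' (e' A) (e' m) hm' hd').1 Λ h1 h2 fun s hs => h3 s (by linarith)

/-- the Euler products, class A -/
theorem plA (B : BD) (M : BM) {Δ : ZI} (h : PS Δ) (hd : dD Δ = 1) {m : ZI} (hm : m ≠ 0) {A : ZI}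
    (hA : A ∈ SU {im1, -im1} Δ) (hdv : 2 * A ∣ m) : PL K' (e' A) (e' m) := by
  obtain ⟨κ, hκ, t, htp, ht, rfl⟩ := hA
  have e3 : (im1 : ZI) ^ 3 = -im1 := by decide
  rcases hκ with hκ | hκ
  · obtain ⟨Λ, h1, h2, h3⟩ := lfunA B M (σ := 1) (by norm_num) h htp ht hd
    refine pl_of e' M hm hdv h1 h2 fun s hs => ?_
    rw [h3 K' e' s hs, hκ, mul_assoc]
    unfold cI
    rw [pow_one]
  · obtain ⟨Λ, h1, h2, h3⟩ := lfunA B M (σ := 3) (by norm_num) h htp ht hd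
    refine pl_of e' M hm hdv h1 h2 fun s hs => ?_
    rw [h3 K' e' s hs, Set.mem_singleton_iff.1 hκ, mul_assoc]
    unfold cI
    rw [e3]

/-- the Euler products, class B -/
theorem plB (B : O.BO) (M : BM) (σ : ℕ) {Δ : ZI} (h : PS Δ) (hd : dO σ Δ = 1) {m : ZI} (hm : m ≠ 0)
    {A : ZI} (hA : A ∈ SU {im1 ^ σ * l1} Δ) (hdv : 2 * A ∣ m) : PL K' (e' A) (e' m) := by
  obtain ⟨κ, hκ, t, htp, ht, rfl⟩ := hA
  obtain ⟨Λ, h1, h2, h3⟩ := lfunB B M σ h htp ht hd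
  refine pl_of e' M hm hdv h1 h2 fun s hs => ?_
  rw [h3 K' e' s hs, Set.mem_singleton_iff.1 hκ, mul_assoc _ Δ]
  rfl

/-- the Euler products, class C -/
theorem plC (B : O.BO) (M : BM) (σ : ℕ) {Δ : ZI} (h : PS Δ) (hd : dO σ Δ = 1)
    (hd' : dO (σ + 2) Δ = 1) {m : ZI} (hm : m ≠ 0)
    {A : ZI} (hA : A ∈ SU {im1 ^ σ * l1, -(im1 ^ σ * l1)} Δ) (hdv : 2 * A ∣ m) :
    PL K' (e' A) (e' m) := by
  obtain ⟨κ, hκ, t, htp, ht, rfl⟩ := hA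
  rcases hκ with hκ | hκ
  · exact plB e' B M σ h hd hm ⟨κ, hκ, t, htp, ht, rfl⟩ hdv
  · refine plB e' B M (σ + 2) h hd' hm ⟨κ, ?_, t, htp, ht, rfl⟩ hdv
    rw [Set.mem_singleton_iff] at hκ ⊢
    have e2 : (im1 : ZI) ^ 2 = -1 := by decide
    rw [hκ, pow_add, e2]
    ring

lemma pow_two_le {a b : ℕ} (h : 2 ^ a ≤ 2 ^ b) : a ≤ b := (Nat.pow_le_pow_iff_right (by norm_num)).1 h

/-- the rank, all the kinds -/
theorem rkK {Δ D t : ZI} (h : PS Δ) (hD : Kd Δ D) (htp : prim t) (ht : t ∣ Δ) {r : ℕ}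
    (hr : (Ker Δ).ncard = 2 ^ r) :
    Module.finrank ℤ (cv ((e' (D * t ^ 2) : 𝓞 K') : K')).toAffine.Point ≤ 2 * r := by
  obtain ⟨hf, hc⟩ := cntt K' e' Δ D t h hD htp ht
  rw [hr, ← pow_mul, mul_comm r 2] at hc
  have h1 : 1 ≤ Nat.card {x : Pool.Agent.TH841.NF.D.Sha
      (Pool.Agent.Y715.Z.q4 (Pool.Agent.Y715.Z.em0 e' (D * t ^ 2))) // 2 • x = 0} := by
    haveI := hf
    haveI : Nonempty {x : Pool.Agent.TH841.NF.D.Sha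
      (Pool.Agent.Y715.Z.q4 (Pool.Agent.Y715.Z.em0 e' (D * t ^ 2))) // 2 • x = 0} :=
      ⟨⟨0, smul_zero _⟩⟩
    exact Nat.card_pos
  have h2 : 2 ^ (Module.finrank ℤ
      (Pool.Agent.Y682.MP (Pool.Agent.Y715.Z.q4 (Pool.Agent.Y715.Z.em0 e' (D * t ^ 2))))) ≤
      2 ^ (2 * r) := (Nat.le_mul_of_pos_right _ h1).trans hc
  exact pow_two_le h2

/-- the rank, class A -/
theorem rkA {Δ : ZI} (h : PS Δ) {r : ℕ} (hr : (Ker Δ).ncard = 2 ^ r) {A : ZI}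
    (hA : A ∈ SU {im1, -im1} Δ) :
    Module.finrank ℤ (cv ((e' A : 𝓞 K') : K')).toAffine.Point ≤ 2 * r := by
  obtain ⟨κ, hκ, t, htp, ht, rfl⟩ := hA
  refine rkK e' h ?_ htp ht hr
  rcases hκ with hκ | hκ
  · exact Or.inl (by rw [hκ])
  · exact Or.inr (Or.inl (by rw [Set.mem_singleton_iff.1 hκ]))

/-- the rank, class D -/
theorem rkD1 {Δ : ZI} (h : PS Δ) {r : ℕ} (hr : (Ker Δ).ncard = 2 ^ r) {A : ZI}
    (hA : A ∈ SU {2, -im1} Δ) :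
    Module.finrank ℤ (cv ((e' A : 𝓞 K') : K')).toAffine.Point ≤ 2 * r := by
  obtain ⟨κ, hκ, t, htp, ht, rfl⟩ := hA
  refine rkK e' h ?_ htp ht hr
  rcases hκ with hκ | hκ
  · exact Or.inr (Or.inr (by rw [hκ]))
  · exact Or.inr (Or.inl (by rw [Set.mem_singleton_iff.1 hκ]))

/-- the rank, class D -/
theorem rkD2 {Δ : ZI} (h : PS Δ) {r : ℕ} (hr : (Ker Δ).ncard = 2 ^ r) {A : ZI}
    (hA : A ∈ SU {2, im1} Δ) :
    Module.finrank ℤ (cv ((e' A : 𝓞 K') : K')).toAffine.Point ≤ 2 * r := by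
  obtain ⟨κ, hκ, t, htp, ht, rfl⟩ := hA
  refine rkK e' h ?_ htp ht hr
  rcases hκ with hκ | hκ
  · exact Or.inr (Or.inr (by rw [hκ]))
  · exact Or.inl (by rw [Set.mem_singleton_iff.1 hκ])

/-- the rank, class B -/
theorem rkB (hs : S_SELOT) (σ : ℕ) {Δ : ZI} (h : PS Δ) (hd : dO σ Δ = 1)
    {A : ZI} (hA : A ∈ SU {im1 ^ σ * l1} Δ) :
    Module.finrank ℤ (cv ((e' A : 𝓞 K') : K')).toAffine.Point ≤ 0 := by
  obtain ⟨κ, hκ, t, htp, ht, rfl⟩ := hA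
  have h1 := (hs σ K' e' Δ t h hd htp ht).1
  rw [Set.mem_singleton_iff.1 hκ, mul_assoc _ Δ]
  exact h1.le

/-- the rank, class C -/
theorem rkC (hs : S_SELOT) (σ : ℕ) {Δ : ZI} (h : PS Δ) (hd : dO σ Δ = 1) (hd' : dO (σ + 2) Δ = 1)
    {A : ZI} (hA : A ∈ SU {im1 ^ σ * l1, -(im1 ^ σ * l1)} Δ) :
    Module.finrank ℤ (cv ((e' A : 𝓞 K') : K')).toAffine.Point ≤ 0 := by
  obtain ⟨κ, hκ, t, htp, ht, rfl⟩ := hA
  rcases hκ with hκ | hκ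
  · exact rkB e' hs σ h hd ⟨κ, hκ, t, htp, ht, rfl⟩
  · refine rkB e' hs (σ + 2) h hd' ⟨κ, ?_, t, htp, ht, rfl⟩
    rw [Set.mem_singleton_iff] at hκ ⊢
    have e2 : (im1 : ZI) ^ 2 = -1 := by decide
    rw [hκ, pow_add, e2]
    ring

open Pool.Agent.TH841.NF.D (Sha)

/-- the Tate-Shafarevich group, class A -/
theorem shA {Δ : ZI} (h : PS Δ) (hd : (Ker Δ).ncard = 1) {A : ZI}
    (hA : A ∈ SU {im1, -im1} Δ) (n : ℕ) (x : Sha (cv ((e' A : 𝓞 K') : K')))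
    (hx : 2 ^ n • x = 0) : x = 0 := by
  obtain ⟨κ, hκ, t, htp, ht, rfl⟩ := hA
  have hkd : Kd Δ (κ * Δ) := by
    rcases hκ with hκ | hκ
    · exact Or.inl (by rw [hκ])
    · exact Or.inr (Or.inl (by rw [Set.mem_singleton_iff.1 hκ]))
  obtain ⟨hf, hc⟩ := cntt K' e' Δ (κ * Δ) t h hkd htp ht
  have h2 : ∀ x : Sha (cv ((e' (κ * Δ * t ^ 2) : 𝓞 K') : K')), 2 • x = 0 → x = 0 := by
    intro x hx
    by_contra hne
    haveI : Finite {x : Sha (cv ((e' (κ * Δ * t ^ 2) : 𝓞 K') : K')) // 2 • x = 0} := hf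
    haveI : Nontrivial {x : Sha (cv ((e' (κ * Δ * t ^ 2) : 𝓞 K') : K')) // 2 • x = 0} :=
      ⟨⟨⟨x, hx⟩, ⟨0, smul_zero _⟩, fun h => hne (congrArg Subtype.val h)⟩⟩
    have h3 : 1 < Nat.card {x : Sha (cv ((e' (κ * Δ * t ^ 2) : 𝓞 K') : K')) // 2 • x = 0} :=
      Finite.one_lt_card
    have h4 : 1 ≤ 2 ^ (Module.finrank ℤ
      (Pool.Agent.Y682.MP (Pool.Agent.Y715.Z.q4 (Pool.Agent.Y715.Z.em0 e' (κ * Δ * t ^ 2))))) :=
      Nat.one_le_two_pow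
    rw [hd, one_pow] at hc
    have h5 : 1 < 2 ^ (Module.finrank ℤ
      (Pool.Agent.Y682.MP (Pool.Agent.Y715.Z.q4 (Pool.Agent.Y715.Z.em0 e' (κ * Δ * t ^ 2))))) *
      Nat.card {x : Sha (cv ((e' (κ * Δ * t ^ 2) : 𝓞 K') : K')) // 2 • x = 0} :=
      lt_of_lt_of_le h3 (Nat.le_mul_of_pos_left _ h4)
    exact absurd hc (not_le.2 h5)
  induction n with
  | zero => rwa [pow_zero, one_smul] at hx
  | succ n ih =>
    apply ih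
    apply h2
    rw [← mul_smul, ← pow_succ']
    exact hx

/-- the Tate-Shafarevich group, class B -/
theorem shB (hs : S_SELOT) (σ : ℕ) {Δ : ZI} (h : PS Δ) (hd : dO σ Δ = 1)
    {A : ZI} (hA : A ∈ SU {im1 ^ σ * l1} Δ) (n : ℕ) (x : Sha (cv ((e' A : 𝓞 K') : K')))
    (hx : 2 ^ n • x = 0) : x = 0 := by
  obtain ⟨κ, hκ, t, htp, ht, rfl⟩ := hA
  have h1 := (hs σ K' e' Δ t h hd htp ht).2 n
  have h2 : κ * Δ * t ^ 2 = im1 ^ σ * l1 * (Δ * t ^ 2) := by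
    rw [Set.mem_singleton_iff.1 hκ, mul_assoc _ Δ]
  have h3 : ∀ x : Sha (cv ((e' (κ * Δ * t ^ 2) : 𝓞 K') : K')), 2 ^ n • x = 0 → x = 0 := by
    rw [h2]
    exact h1
  exact h3 x hx

/-- the Tate-Shafarevich group, class C -/
theorem shC (hs : S_SELOT) (σ : ℕ) {Δ : ZI} (h : PS Δ) (hd : dO σ Δ = 1) (hd' : dO (σ + 2) Δ = 1)
    {A : ZI} (hA : A ∈ SU {im1 ^ σ * l1, -(im1 ^ σ * l1)} Δ) (n : ℕ)
    (x : Sha (cv ((e' A : 𝓞 K') : K'))) (hx : 2 ^ n • x = 0) : x = 0 := by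
  obtain ⟨κ, hκ, t, htp, ht, rfl⟩ := hA
  rcases hκ with hκ | hκ
  · exact shB e' hs σ h hd ⟨κ, hκ, t, htp, ht, rfl⟩ n x hx
  · refine shB e' hs (σ + 2) h hd' ⟨κ, ?_, t, htp, ht, rfl⟩ n x hx
    rw [Set.mem_singleton_iff] at hκ ⊢
    have e2 : (im1 : ZI) ^ 2 = -1 := by decide
    rw [hκ, pow_add, e2]
    ring

end

end Pool.Agent.D0H43.MQ
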