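import Pool.Agent.D0H43.MQ.Gen
import Pool.Agent.Y682.YS.Real
import Pool.Agent.Y655.XT.Shavc

/-!
# Project MQ: the `2`-primary part of the Tate-Shafarevich group over a quadratic extension
-/

set_option autoImplicit false
set_option linter.unusedSectionVars false

open NumberField IsDedekindDomain WeierstrassCurve

namespace Pool.Agent.D0H43.MQ

open Pool.Agent.TH841.SH.D (Pt act Gal Coch IsCoc IsCob LocTriv cob)
open Pool.Agent.TH841.NF (Sc tm tm_some tm_act act_tm tm_tm tm_congr act_some' pt_ext act_id act_act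
  aL cor cor_coc cor_cob cor_add cor_loc cor_zero_of mem_H sec sec_spec sec_one coc_fin coc_of_fin
  aut_of_two Loc place_r)
open Pool.Agent.TH841.NF.D (Sha shaCoc IsShaCoc)
open Pool.Agent.Y715.CS
open Pool.Agent.Y715.CS.YS (Cor_shaG)
open Pool.Agent.D0H43.RZ (cv)

/-- **The exponent of the Tate-Shafarevich group over `F`** (the proof is the one of `sha_FG`,
`Pool/Agent/Y682/YS/Real.lean`, with an exponent). -/
theorem sha_FGM {K F : Type} [Field K] [NumberField K] [Field F] [NumberField F] [Algebra K F]
    [IsGalois K F]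
    (e : AlgebraicClosure F ≃+* AlgebraicClosure K)
    (he : ∀ x : K, e (algebraMap F _ (algebraMap K F x)) = algebraMap K _ x)
    {T : Type} [Fintype T] (W : T → WeierstrassCurve K) (W' : WeierstrassCurve F) (u : T → F)
    (S0 : ∀ t, Sc (RingHom.id F) (u t) W' ((W t).baseChange F))
    (hsum : ∀ g : Gal K, ¬ Fx e g → ∀ P : Pt W' (AlgebraicClosure F),
      ∑ t, tm (scI e he (S0 t)) (act (W t) g.toAlgHom (tm (scE e he (S0 t)) P)) = 0)
    (p M : ℕ) (hyp : ∀ t, ∀ (n : ℕ) (x : Sha (W t)), p ^ n • x = 0 → M • x = 0) (n : ℕ) (x : Sha W')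
    (hx : p ^ n • x = 0) : (M * Fintype.card T) • x = 0 := by
  classical
  have hfd : FiniteDimensional K F := finKF
  have hfin := HF_finite e he
  let _ : Fintype (Gal K ⧸ HF e) := Fintype.ofFinite _
  have hN := HF_normal e he
  induction x using QuotientAddGroup.induction_on with
  | H f =>
    have h1 : IsCob W' (p ^ n • (f : Coch W')) := by
      have h2 := (QuotientAddGroup.eq_zero_iff (p ^ n • f)).1 hx
      exact h2
    -- the corestrictions are coboundaries
    have h2 : ∀ t, IsCob (W t) (M • Cor e he (S0 t) (f : Coch W')) := by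
      intro t
      have h3 := Cor_shaG e he (S0 t) f.2
      have h4 : IsCob (W t) (p ^ n • Cor e he (S0 t) (f : Coch W')) := by
        rw [← Cor_nsmul]
        exact Cor_cob e he (S0 t) h1
      have h5 := hyp t n (QuotientAddGroup.mk (⟨Cor e he (S0 t) (f : Coch W'), h3⟩ :
        shaCoc (W t)) : Sha (W t)) ((QuotientAddGroup.eq_zero_iff (p ^ n •
          (⟨Cor e he (S0 t) (f : Coch W'), h3⟩ : shaCoc (W t)))).2 h4)
      exact (QuotientAddGroup.eq_zero_iff (M • (⟨Cor e he (S0 t) (f : Coch W'), h3⟩ :
        shaCoc (W t)))).1 h5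
    choose P hP using h2
    refine (QuotientAddGroup.eq_zero_iff ((M * Fintype.card T) • f)).2 ?_
    change IsCob W' ((M * Fintype.card T) • (f : Coch W'))
    refine ⟨∑ t, tm (scI e he (S0 t)) (P t), fun σ => ?_⟩
    have hσ : cQ e he σ ∈ HF e := cQ_fx e he σ
    have h3 : ∀ t, M • tm (scI e he (S0 t)) (Cor e he (S0 t) (f : Coch W') (cQ e he σ)) =
        act W' σ.toAlgHom (tm (scI e he (S0 t)) (P t)) - tm (scI e he (S0 t)) (P t) := by
      intro t
      have h6 : M • Cor e he (S0 t) (f : Coch W') (cQ e he σ) =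
          act (W t) (cQ e he σ).toAlgHom (P t) - P t := hP t _
      rw [← map_nsmul, h6, map_sub, inv_act e he (S0 t) hσ, cF_cQ]
    have h4 : ∑ t, tm (scI e he (S0 t)) (Cor e he (S0 t) (f : Coch W') (cQ e he σ)) =
        Fintype.card T • (f : Coch W') σ := by
      have h5 : ∀ t, tm (scI e he (S0 t)) (Cor e he (S0 t) (f : Coch W') (cQ e he σ)) =
          ∑ q : Gal K ⧸ HF e, tm (scI e he (S0 t)) (act (W t) (sec (HF e) q).toAlgHom
            (tm (scE e he (S0 t)) ((f : Coch W') (cF e ((sec (HF e) q)⁻¹ * cQ e he σ *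
              sec (HF e) q))))) := by
        intro t
        rw [Cor_res e he (S0 t) hN _ hσ, map_sum]
        rfl
      rw [Finset.sum_congr rfl fun t _ => h5 t, Finset.sum_comm,
        Finset.sum_eq_single ((1 : Gal K) : Gal K ⧸ HF e)]
      · rw [sec_one]
        have h6 : ∀ t, tm (scI e he (S0 t)) (act (W t) (1 : Gal K).toAlgHom
            (tm (scE e he (S0 t)) ((f : Coch W') (cF e ((1 : Gal K)⁻¹ * cQ e he σ * 1))))) =
            (f : Coch W') σ := by
          intro t
          have h7 : act (W t) (1 : Gal K).toAlgHom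
            (tm (scE e he (S0 t)) ((f : Coch W') (cF e ((1 : Gal K)⁻¹ * cQ e he σ * 1)))) =
            tm (scE e he (S0 t)) ((f : Coch W') (cF e ((1 : Gal K)⁻¹ * cQ e he σ * 1))) :=
            act_id (W t) (1 : Gal K).toAlgHom (fun x => rfl) _
          rw [h7, inv_left e he (S0 t), inv_one, one_mul, mul_one, cF_cQ]
        rw [Finset.sum_congr rfl fun t _ => h6 t, Finset.sum_const, Finset.card_univ]
      · intro q _ hq1
        apply hsum
        intro hmem
        apply hq1
        rw [← sec_spec (HF e) q, eq_comm, QuotientGroup.eq, inv_one, one_mul]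
        exact hmem
      · intro h0
        exact absurd (Finset.mem_univ _) h0
    have h5 : ((M * Fintype.card T) • (f : Coch W')) σ =
        M • (Fintype.card T • (f : Coch W') σ) := by
      rw [← mul_smul]
      rfl
    rw [h5, ← h4, Finset.smul_sum, Finset.sum_congr rfl fun t _ => h3 t, Finset.sum_sub_distrib,
      map_sum]

/-- an isomorphism of the algebraic closures -/
lemma exists_e2 {K F : Type} [Field K] [Field F] [Algebra K F] [Algebra.IsAlgebraic K F] :
    ∃ e : AlgebraicClosure F ≃+* AlgebraicClosure K,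
      ∀ x : K, e (algebraMap F _ (algebraMap K F x)) = algebraMap K _ x := by
  have _ : IsAlgClosure K (AlgebraicClosure F) := IsAlgClosure.ofAlgebraic K F (AlgebraicClosure F)
  refine ⟨(IsAlgClosure.equiv K (AlgebraicClosure F) (AlgebraicClosure K)).toRingEquiv,
    fun x => ?_⟩
  rw [← IsScalarTower.algebraMap_apply K F (AlgebraicClosure F)]
  exact (IsAlgClosure.equiv K (AlgebraicClosure F) (AlgebraicClosure K)).commutes x

/-- **One quadratic step.** -/
theorem sha_quad {L F : Type} [Field L] [NumberField L] [Field F] [NumberField F] [Algebra L F]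
    (h2 : Module.finrank L F = 2) {d : L} {θ : F} (hθ : θ ^ 2 = algebraMap L F d)
    (hn : ∀ x : L, algebraMap L F x ≠ θ) {A : L} (M : ℕ)
    (hy0 : ∀ (n : ℕ) (x : Sha (cv A)), 2 ^ n • x = 0 → M • x = 0)
    (hy1 : ∀ (n : ℕ) (x : Sha (cv (d ^ 2 * A))), 2 ^ n • x = 0 → M • x = 0)
    (n : ℕ) (x : Sha (cv (algebraMap L F A))) (hx : 2 ^ n • x = 0) : (M * 2) • x = 0 := by
  classical
  haveI : Algebra.IsQuadraticExtension L F := ⟨h2⟩
  obtain ⟨σ, hs1, hs2, hs3⟩ := Pool.Agent.D0H43.RZ.exists_sigma h2 hθ hn
  have hfd : FiniteDimensional L F := finKF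
  obtain ⟨e, he⟩ := exists_e2 (K := L) (F := F)
  have hθ0 : θ ≠ 0 := by
    intro h
    exact hn 0 (by rw [map_zero, h])
  set W : Bool → WeierstrassCurve L := fun b => if b then cv (d ^ 2 * A) else cv A with hW
  set u : Bool → F := fun b => if b then θ else 1 with hu
  have S0 : ∀ b, Sc (RingHom.id F) (u b) (cv (algebraMap L F A)) ((W b).baseChange F) := by
    intro b
    cases b
    · refine ⟨one_ne_zero, ?_, ?_, ?_, ?_, ?_⟩
      · change algebraMap L F 0 = (0 : F) * _
        rw [map_zero, zero_mul]
      · change algebraMap L F 0 = (0 : F) * _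
        rw [map_zero, zero_mul]
      · change algebraMap L F 0 = (0 : F) * _
        rw [map_zero, zero_mul]
      · change algebraMap L F A = (algebraMap L F A) * 1 ^ 4
        rw [one_pow, mul_one]
      · change algebraMap L F 0 = (0 : F) * _
        rw [map_zero, zero_mul]
    · refine ⟨hθ0, ?_, ?_, ?_, ?_, ?_⟩
      · change algebraMap L F 0 = (0 : F) * _
        rw [map_zero, zero_mul]
      · change algebraMap L F 0 = (0 : F) * _
        rw [map_zero, zero_mul]
      · change algebraMap L F 0 = (0 : F) * _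
        rw [map_zero, zero_mul]
      · change algebraMap L F (d ^ 2 * A) = (algebraMap L F A) * θ ^ 4
        rw [map_mul, map_pow, ← hθ]
        ring
      · change algebraMap L F 0 = (0 : F) * _
        rw [map_zero, zero_mul]
  have key := sha_FGM (K := L) (F := F) e he (T := Bool) W (cv (algebraMap L F A)) u S0 ?_ 2 M
    (fun b => by cases b; exacts [hy0, hy1]) n x hx
  · rwa [Fintype.card_bool] at key
  · intro g hg P
    set φ : AlgebraicClosure F →+* AlgebraicClosure F :=
      (e.symm : AlgebraicClosure L →+* AlgebraicClosure F).comp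
        ((g : AlgebraicClosure L →+* AlgebraicClosure L).comp
          (e : AlgebraicClosure F →+* AlgebraicClosure L)) with hφ
    have hφa : ∀ x, φ x = e.symm (g (e x)) := fun x => rfl
    set m : F →+* AlgebraicClosure F := algebraMap F (AlgebraicClosure F) with hm
    have hφK : ∀ y : L, φ (m (algebraMap L F y)) = m (algebraMap L F y) := by
      intro y
      rw [hφa, he, AlgEquiv.commutes, ← he, RingEquiv.symm_apply_apply]
    have hmθ : m θ ≠ 0 := (map_ne_zero m).2 hθ0
    have hφθ : φ (m θ) = -m θ := by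
      have h1 : φ (m θ) ^ 2 = m θ ^ 2 := by
        rw [← map_pow, ← map_pow, hθ, hφK]
      rcases sq_eq_sq_iff_eq_or_eq_neg.1 h1 with h | h
      · exfalso
        apply hg
        intro y
        -- `y = a + b θ`
        obtain ⟨a, ha⟩ := hs2 (y + σ y) (by rw [map_add, hs3, add_comm])
        obtain ⟨b, hb⟩ := hs2 ((y - σ y) / θ) (by
          rw [map_div₀, map_sub, hs3, hs1]
          field_simp
          ring)
        have h5 : (2 : F) * y = algebraMap L F a + algebraMap L F b * θ := by
          rw [ha, hb]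
          field_simp
          ring
        have h6 : φ (m ((2 : F) * y)) = m ((2 : F) * y) := by
          rw [h5]
          simp only [map_add, map_mul]
          rw [hφK, hφK, h]
        rw [map_mul, map_mul, map_ofNat, map_ofNat] at h6
        have h7 : φ (m y) = m y := mul_left_cancel₀ (two_ne_zero (α := AlgebraicClosure F)) h6
        have h8 : e.symm (g (e (m y))) = m y := h7
        have h9 := congrArg e h8
        rw [RingEquiv.apply_symm_apply] at h9
        exact h9
      · exact h
    rw [Fintype.sum_bool]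
    have hkey : tm (scI e he (S0 true))
        (act (W true) g.toAlgHom (tm (scE e he (S0 true)) P)) =
        -tm (scI e he (S0 false)) (act (W false) g.toAlgHom (tm (scE e he (S0 false)) P)) := by
      rcases P with _ | ⟨X, Y, h⟩
      · exact neg_zero.symm
      · rw [tm_some, act_some', tm_some, tm_some, act_some', tm_some]
        refine Eq.trans ?_ (Affine.Point.neg_some _).symm
        have hX : ∀ b, e.symm (g (e X * (e (m (u b))) ^ 2)) * ((m (u b))⁻¹) ^ 2 = φ X := by
          intro b
          rw [map_mul, map_mul, map_pow, map_pow, ← hφa, ← hφa]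
          cases b
          · have h1 : m (u false) = 1 := map_one m
            rw [h1, map_one]
            ring
          · have h1 : m (u true) = m θ := rfl
            rw [h1, hφθ]
            field_simp
        have hY0 : e.symm (g (e Y * (e (m (u false))) ^ 3)) * ((m (u false))⁻¹) ^ 3 = φ Y := by
          rw [map_mul, map_mul, map_pow, map_pow, ← hφa, ← hφa]
          have h1 : m (u false) = 1 := map_one m
          rw [h1, map_one]
          ring
        have hY1 : e.symm (g (e Y * (e (m (u true))) ^ 3)) * ((m (u true))⁻¹) ^ 3 = -φ Y := by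
          rw [map_mul, map_mul, map_pow, map_pow, ← hφa, ← hφa]
          have h1 : m (u true) = m θ := rfl
          rw [h1, hφθ]
          field_simp
        refine pt_ext _ _ ?_ ?_
        · exact (hX true).trans (hX false).symm
        · refine hY1.trans ?_
          have h3 : ∀ z w : AlgebraicClosure F,
              ((cv (algebraMap L F A)).baseChange (AlgebraicClosure F)).toAffine.negY z w = -w := by
            intro z w
            unfold Affine.negY
            have e1 : ((cv (algebraMap L F A)).baseChange (AlgebraicClosure F)).toAffine.a₁ = 0 :=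
              map_zero m
            have e3 : ((cv (algebraMap L F A)).baseChange (AlgebraicClosure F)).toAffine.a₃ = 0 :=
              map_zero m
            rw [e1, e3, zero_mul, sub_zero, sub_zero]
          refine Eq.trans ?_ (h3 _ _).symm
          rw [neg_inj]
          exact hY0.symm
    rw [hkey, neg_add_cancel]

/-- isomorphic curves -/
theorem sha_scale {K : Type} [Field K] [NumberField K] {A u : K} (hu : u ≠ 0) (hA : A ≠ 0) (M : ℕ)
    (h : ∀ (n : ℕ) (x : Sha (cv A)), 2 ^ n • x = 0 → M • x = 0) (n : ℕ)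
    (x : Sha (cv (u ^ 4 * A))) (hx : 2 ^ n • x = 0) : M • x = 0 := by
  have hvr : Pool.Agent.Y700.VR (cv (u ^ 4 * A)) (cv A) u 0 0 0 := by
    refine ⟨hu, ?_, ?_, ?_, ?_, ?_⟩ <;> simp [cv]
  have hΔ : (cv A).Δ ≠ 0 := by
    have h1 : (cv A).Δ = -64 * A ^ 3 := by
      simp only [cv, WeierstrassCurve.Δ, WeierstrassCurve.b₂, WeierstrassCurve.b₄,
        WeierstrassCurve.b₆, WeierstrassCurve.b₈]
      ring
    rw [h1]
    exact mul_ne_zero (by norm_num) (pow_ne_zero 3 hA)
  let I : Sha (cv A) ≃+ Sha (cv (u ^ 4 * A)) := (Pool.Agent.Y655.XT.isoVR hvr hΔ).sha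
  have h1 := h n (I.symm x) (by rw [← map_nsmul, hx, map_zero])
  have h2 := congrArg I h1
  rwa [map_nsmul, I.apply_symm_apply, map_zero] at h2

open H385 (ZI RQ im1 nrm) in
/-- **the Tate-Shafarevich groups over the extensions** -/
theorem overS {K : Type} [Field K] [NumberField K] (e : ZI ≃+* 𝓞 K) {S T : Set ZI} {M : ZI}
    (C : Cl S T M)
    (hK : ∀ (K' : Type) [Field K'] [NumberField K'] (e' : ZI ≃+* 𝓞 K'), ∀ A ∈ S,
      ∀ (n : ℕ) (x : Sha (cv ((e' A : 𝓞 K') : K'))), 2 ^ n • x = 0 → x = 0)
    (F : Type) [Field F] [NumberField F] [Algebra K F] (hF : Gn e T F) :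
    ∀ A ∈ S, ∀ (n : ℕ) (x : Sha (cv ((io e F A : 𝓞 F) : F))), 2 ^ n • x = 0 →
      Module.finrank K F • x = 0 := by
  obtain ⟨n, x, hx, hg⟩ := hF
  refine tower (K := K) {y | ∃ t ∈ T, y = e t}
    (fun F _ _ _ => ∀ A ∈ S, ∀ (n : ℕ) (x : Sha (cv ((io e F A : 𝓞 F) : F))), 2 ^ n • x = 0 →
      Module.finrank K F • x = 0) ?_ ?_ n F x ?_ hg
  · intro F _ _ _ hb A hA n x hx
    obtain ⟨e', he'⟩ := io_bij e F hb
    rw [← he'] at x
    have h1 := hK F e' A hA
    rw [he'] at h1
    rw [h1 n _ hx, smul_zero]
  · rintro L F _ _ _ _ _ _ _ _ h2 _ ⟨t, ht, rfl⟩ θ hθ hn hQ A hA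
    obtain ⟨A', hA', g, hg', heq⟩ := C.cl A hA t ht
    have hinj : Function.Injective (io e L) := by
      intro a b hab
      apply e.injective
      have h1 := congrArg (fun z : 𝓞 L => (z : L)) hab
      exact RingOfIntegers.ext ((algebraMap K L).injective h1)
    have hne : ∀ a : ZI, a ≠ 0 → ((io e L a : 𝓞 L) : L) ≠ 0 := by
      intro a ha h
      apply ha
      apply hinj
      rw [map_zero]
      exact RingOfIntegers.ext h
    have hθ' : (θ : F) ^ 2 = algebraMap L F ((io e L t : 𝓞 L) : L) := by
      have h3 := congrArg (fun z : 𝓞 F => (z : F)) hθ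
      have h4 : ((θ ^ 2 : 𝓞 F) : F) = (θ : F) ^ 2 := by push_cast; rfl
      rw [← h4, h3]
      exact congrArg (fun z : 𝓞 F => (z : F)) (io_tower e (L := L) t)
    have e1 : algebraMap L F ((io e L A : 𝓞 L) : L) = ((io e F A : 𝓞 F) : F) := by
      exact (congrArg (fun z : 𝓞 F => (z : F)) (io_tower e (L := L) A)).symm
    have hg0 : g ≠ 0 := by
      rintro rfl
      exact C.m0 (zero_dvd_iff.1 hg')
    have e2 : ((io e L t : 𝓞 L) : L) ^ 2 * ((io e L A : 𝓞 L) : L) =
        ((io e L g : 𝓞 L) : L) ^ 4 * ((io e L A' : 𝓞 L) : L) := by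
      have h4 := congrArg (fun z : 𝓞 L => (z : L)) (congrArg (io e L) heq)
      simpa only [map_mul, map_pow] using h4
    have h6 : Module.finrank K F = Module.finrank K L * 2 := by
      rw [← h2, Module.finrank_mul_finrank]
    have h3 := sha_quad h2 hθ' hn (A := ((io e L A : 𝓞 L) : L)) (Module.finrank K L) (hQ A hA) (by
      rw [e2]
      exact sha_scale (hne g hg0) (hne A' (C.ne A' hA')) _ (hQ A' hA'))
    rw [e1, ← h6] at h3
    exact h3
  · intro i
    obtain ⟨t, ht, h⟩ := hx i
    exact ⟨e t, ⟨t, ht, rfl⟩, h⟩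

end Pool.Agent.D0H43.MQ
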