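import Pool.Agent.D0H43.MQ.Lk
import Pool.Agent.D0H43.MQ.Sha
import Pool.Agent.D0H43.RZ.Fin
import Pool.Agent.D0H43.JQ.End

/-!
# Project MQ: the facts over the extensions
-/

set_option autoImplicit false

open NumberField IsDedekindDomain
open scoped Classical

namespace Pool.Agent.D0H43.MQ

open H385 (ZI RQ im1 nrm)
open Pool.Agent.Y699 (PS PD fam)
open Pool.Agent.H304R2.EC.A1 (prim prim_mul prim_cancel exists_prim prim_norm_odd)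
open Pool.Agent.D0H43.RZ (cv)
open Pool.Agent.D0H10.Q4 (dD BD cl FinT OddI TwP inS2_iff twoK oneK inS1_iff)
open Pool.Agent.D0H43.Q4
open Pool.Agent.D0H43.Q4.P (Evn evnK)
open Pool.Agent.D0H10.Q5 (Ker Kd)

/-- the rank part with rank zero -/
def RkF {F : Type} [Field F] [NumberField F] (W : WeierstrassCurve F) : Prop :=
  W.IsElliptic ∧ Finite W.toAffine.Point ∧
  ∃ Λ : ℂ → ℂ, MeromorphicOn Λ Set.univ ∧ AnalyticAt ℂ Λ 1 ∧ Λ 1 ≠ 0 ∧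
    ∀ s : ℂ, 2 < s.re → Λ s = W.LSeries s

/-- `F` is generated over `K` by square roots of elements with the property `T` -/
def GenBy {K : Type} [Field K] [NumberField K] (F : Type) [Field F] [NumberField F] [Algebra K F]
    (T : 𝓞 K → Prop) : Prop :=
  ∃ (n : ℕ) (x : Fin n → F), (∀ k, ∃ t : 𝓞 K, T t ∧ x k ^ 2 = algebraMap K F (t : K)) ∧
    IntermediateField.adjoin K (Set.range x) = ⊤

section

variable {K : Type} [Field K] [NumberField K] (e : ZI ≃+* 𝓞 K) {F : Type} [Field F] [NumberField F]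
  [Algebra K F]

lemma gn_of {T : 𝓞 K → Prop} {T' : Set ZI} (h : ∀ t : ZI, T (e t) → t ∈ T') (hF : GenBy F T) :
    Gn e T' F := by
  obtain ⟨n, x, hx, hg⟩ := hF
  refine ⟨n, x, fun k => ?_, hg⟩
  obtain ⟨t, ht, h1⟩ := hx k
  obtain ⟨t, rfl⟩ := e.surjective t
  exact ⟨t, h t ht, h1⟩

lemma cvF_ell {D : 𝓞 F} (hD : D ≠ 0) : (cv (D : F)).IsElliptic := Pool.Agent.D0H10.Q4.cv_ell hD

lemma io_ne {A : ZI} (hA : A ≠ 0) : io e F A ≠ 0 := by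
  intro h
  apply hA
  apply e.injective
  rw [map_zero]
  apply RingOfIntegers.ext
  have h1 := congrArg (fun z : 𝓞 F => (z : F)) h
  have h2 : algebraMap K F ((e A : 𝓞 K) : K) = algebraMap K F ((0 : 𝓞 K) : K) := by
    have h3 : ((0 : 𝓞 K) : K) = 0 := rfl
    rw [h3, map_zero]
    exact h1
  exact (algebraMap K F).injective h2

lemma V4_one : (1 : ZI) ∈ V4 := by simp [V4]

lemma V2_one : (1 : ZI) ∈ V2 := by simp [V2]

lemma TV_one {V : Set ZI} (h : (1 : ZI) ∈ V) (Δ : ZI) : (TV V Δ).Nonempty :=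
  ⟨1, 1, h, 1, Pool.Agent.H304R2.EC.A1.prim_one, one_dvd _, by rw [mul_one]⟩

/-- twisting -/
lemma mem_SU {U V : Set ZI} (hU : ∀ κ ∈ U, ∀ u ∈ V, u ^ 2 * κ ∈ U) {Δ κ x : ZI} (hκ : κ ∈ U)
    (hx : x ∈ TV V Δ) : κ * Δ * x ^ 2 ∈ SU U Δ := by
  obtain ⟨u, hu, t, htp, ht, rfl⟩ := hx
  exact ⟨u ^ 2 * κ, hU κ hκ u hu, t, htp, ht, by ring⟩

lemma clB (κ : ZI) : ∀ κ' ∈ ({κ} : Set ZI), ∀ u ∈ V2, u ^ 2 * κ' ∈ ({κ} : Set ZI) := by
  intro κ' h u hu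
  rw [Set.mem_singleton_iff.1 h]
  rcases hu with rfl | rfl
  · rw [Set.mem_singleton_iff]; ring
  · rw [Set.mem_singleton_iff]; ring

lemma clC (κ : ZI) : ∀ κ' ∈ ({κ, -κ} : Set ZI), ∀ u ∈ V4, u ^ 2 * κ' ∈ ({κ, -κ} : Set ZI) := by
  have e1 : (im1 : ZI) ^ 2 = -1 := by decide
  have e2 : (-im1 : ZI) ^ 2 = -1 := by decide
  intro κ' h u hu
  have hu2 : u ^ 2 = 1 ∨ u ^ 2 = -1 := by
    rcases hu with rfl | rfl | rfl | rfl
    · left; ring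
    · right; exact e1
    · left; ring
    · right; exact e2
  have hk : κ' = κ ∨ κ' = -κ := h
  rcases hk with hk | hk <;> rcases hu2 with h2 | h2 <;> rw [hk, h2]
  · left; ring
  · right; rw [Set.mem_singleton_iff]; ring
  · right; rw [Set.mem_singleton_iff]; ring
  · left; ring

/-- the field with the square roots of the divisors of `D`: odd, the ideal generated is the same -/
lemma dvd_of_unit {u D t : ZI} (hu : IsUnit u) (h : t ∣ u * D) : t ∣ D := (hu.dvd_mul_left).1 h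

lemma unit_im (σ : ℕ) : IsUnit ((im1 : ZI) ^ σ) := Pool.Agent.D0H10.Q4.unit_im σ

lemma odd_of_two {t : ZI} (h : 2 ∣ t - 1) : ¬ Pool.Agent.Y699.pi1 ∣ t := by
  rw [Pool.Agent.Y699.odd_iff]
  have h1 := Pool.Agent.D0H10.Q4.two_dvd.1 h
  have h2 : (t - 1).re = t.re - 1 := by simp
  have h3 : (t - 1).im = t.im := by simp
  omega

lemma dvd_of_pi {t D : ZI} (ht : ¬ Pool.Agent.Y699.pi1 ∣ t) (h : t ∣ Pool.Agent.Y699.pi1 * D) :
    t ∣ D := by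
  have hc : IsCoprime t Pool.Agent.Y699.pi1 :=
    ((Pool.Agent.Y699.pi1_prime.irreducible.coprime_iff_not_dvd).2 ht).symm
  exact hc.dvd_of_dvd_mul_left h

end

section res

variable {K : Type} [Field K] [NumberField K]

/-- what is needed about one curve -/
def Pk (D : 𝓞 K) (T : 𝓞 K → Prop) : Prop :=
  ∃ (e : ZI ≃+* 𝓞 K) (S T' : Set ZI) (m : ZI), Cl S T' m ∧ T'.Nonempty ∧
    (∀ t : ZI, T (e t) → t ∈ T') ∧ (∀ t : ZI, T (e t) → ∃ A ∈ S, e A = D * e t ^ 2) ∧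
    (S_SELOT → ∀ (K' : Type) [Field K'] [NumberField K'] (e' : ZI ≃+* 𝓞 K'), ∀ A ∈ S,
      Module.finrank ℤ (cv ((e' A : 𝓞 K') : K')).toAffine.Point ≤ 0) ∧
    (BM → ∀ (K' : Type) [Field K'] [NumberField K'] (e' : ZI ≃+* 𝓞 K'), ∀ A ∈ S,
      PL K' (e' A) (e' m)) ∧
    (S_SELOT → ∀ (K' : Type) [Field K'] [NumberField K'] (e' : ZI ≃+* 𝓞 K'), ∀ A ∈ S,
      ∀ (n : ℕ) (x : Pool.Agent.TH841.NF.D.Sha (cv ((e' A : 𝓞 K') : K'))), 2 ^ n • x = 0 → x = 0)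

/-- **finiteness over the extensions** -/
theorem Pk.fin {D : 𝓞 K} {T : 𝓞 K → Prop} (h : Pk D T) (hs : S_SELOT)
    (F : Type) [Field F] [NumberField F] [Algebra K F] (hF : GenBy (K := K) F T)
    (t : 𝓞 K) (ht : T t) :
    Finite (cv (algebraMap K F ((D * t ^ 2 : 𝓞 K) : K))).toAffine.Point := by
  obtain ⟨e, S, T', m, C, hT, h1, h2, h3, -, -⟩ := h
  obtain ⟨t, rfl⟩ := e.surjective t
  obtain ⟨A, hA, h4⟩ := h2 t ht
  rw [← h4]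
  have hA0 := io_ne e (F := F) (C.ne A hA)
  have hA1 : ((io e F A : 𝓞 F) : F) ≠ 0 := by
    intro h
    exact hA0 (RingOfIntegers.ext h)
  haveI : Module.Finite ℤ (cv ((io e F A : 𝓞 F) : F)).toAffine.Point :=
    Pool.Agent.D0H43.RZ.mw hA1
  have h5 : Finite (cv ((io e F A : 𝓞 F) : F)).toAffine.Point := by
    refine Pool.Agent.D0H43.RZ.fin_of_rank ?_
    have h := overR e C 0 (fun K' _ _ e' A hA => h3 hs K' e' A hA) F (gn_of e h1 hF) A hA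
    rw [zero_mul] at h
    exact Nat.le_zero.1 h
  exact h5

/-- **the rank part over the extensions** -/
theorem Pk.rkF {D : 𝓞 K} {T : 𝓞 K → Prop} (h : Pk D T) (M : BM)
    (F : Type) [Field F] [NumberField F] [Algebra K F] (hF : GenBy (K := K) F T)
    (t : 𝓞 K) (ht : T t) : RkF (cv (algebraMap K F ((D * t ^ 2 : 𝓞 K) : K))) := by
  have hfin := h.fin M.selo F hF t ht
  obtain ⟨e, S, T', m, C, ⟨t₁, hT⟩, h1, h2, -, h3, -⟩ := h
  obtain ⟨t, rfl⟩ := e.surjective t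
  obtain ⟨A, hA, h4⟩ := h2 t ht
  rw [← h4] at hfin ⊢
  have hA0 := io_ne e (F := F) (C.ne A hA)
  refine ⟨cvF_ell hA0, hfin, ?_⟩
  obtain ⟨G, h1, h2, h3⟩ := overL e M.step C (fun K' _ _ e' A hA => h3 M K' e' A hA) F
    (gn_of e h1 hF) A hA
  have hd : 2 * io e F A ∣ io e F m := by
    rw [← map_ofNat (io e F) 2, ← map_mul]
    exact map_dvd _ ((Dvd.intro _ rfl).trans (C.dv A hA t₁ hT))
  obtain ⟨Λ, h4, h5, h6, h7⟩ := (M.locl F (io e F A) (io e F m) (io_ne e C.m0) hd).2 G h1 h2 h3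
  exact ⟨Λ, h4, h5, h6, h7⟩

/-- **the Tate-Shafarevich groups over the extensions** -/
theorem Pk.sha {D : 𝓞 K} {T : 𝓞 K → Prop} (h : Pk D T) (hs : S_SELOT)
    (F : Type) [Field F] [NumberField F] [Algebra K F] (hF : GenBy (K := K) F T)
    (t : 𝓞 K) (ht : T t) (n : ℕ)
    (x : Pool.Agent.TH841.NF.D.Sha (cv (algebraMap K F ((D * t ^ 2 : 𝓞 K) : K))))
    (hx : 2 ^ n • x = 0) : Module.finrank K F • x = 0 := by
  obtain ⟨e, S, T', m, C, hT, h1, h2, -, -, h3⟩ := h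
  obtain ⟨t, rfl⟩ := e.surjective t
  obtain ⟨A, hA, h4⟩ := h2 t ht
  have h5 := overS e C (fun K' _ _ e' A hA => h3 hs K' e' A hA) F (gn_of e h1 hF) A hA n
  have h6 : ∀ x : Pool.Agent.TH841.NF.D.Sha
      (cv (algebraMap K F ((D * e t ^ 2 : 𝓞 K) : K))), 2 ^ n • x = 0 →
      Module.finrank K F • x = 0 := by
    rw [← h4]
    exact h5
  exact h6 x hx

lemma odd_of_cop (e : ZI ≃+* 𝓞 K) {t : ZI} (h : IsCoprime (e t) 2) :
    ¬ Pool.Agent.Y699.pi1 ∣ t := by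
  intro hp
  have h1 : IsCoprime t 2 := by
    have h2 := h.map (e.symm : 𝓞 K →+* ZI)
    have h3 : (e.symm : 𝓞 K →+* ZI) (e t) = t := e.symm_apply_apply t
    have h4 : (e.symm : 𝓞 K →+* ZI) 2 = 2 := map_ofNat _ 2
    rwa [h3, h4] at h2
  have h2 : Pool.Agent.Y699.pi1 ∣ 2 := ⟨1 - im1, by decide⟩
  exact Pool.Agent.Y699.pi1_prime.not_isUnit (h1.isUnit_of_dvd' hp h2)

variable [IsCyclotomicExtension {4} ℚ K]

/-- **class A** -/
theorem pkA (B : BD) {D : 𝓞 K} (hD : Squarefree D ∧ OddI D) (hT : FinT D) :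
    Pk D fun t => t ∣ D := by
  obtain ⟨e, he⟩ := Pool.Agent.D0H10.Q4.Rng.exists_e K
  obtain ⟨D, rfl⟩ := e.surjective D
  obtain ⟨p, hp, Δ, hΔ, rfl⟩ := (oneK e D).1 hD
  obtain ⟨a, hσ, hk, hpa⟩ : ∃ a : ℕ, a % 2 = 1 ∧ im1 ^ a ∈ ({im1, -im1} : Set ZI) ∧ p = (a, 0) := by
    have h1 : p = (1, 0) ∨ p = (3, 0) := by simpa [Pool.Agent.D0H10.Q4.S1] using hp
    rcases h1 with h1 | h1
    · exact ⟨1, by norm_num, by left; decide, h1⟩
    · exact ⟨3, by norm_num, by right; decide, h1⟩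
  subst hpa
  have hcl : cl a 0 Δ = im1 ^ a * Δ := (Pool.Agent.D0H10.Q4.im1_pow a Δ).symm
  have hd : dD Δ = 1 := (Pool.Agent.D0H10.Q4.factsD B e hσ hΔ).2.1 hT
  have hdiv : ∀ t : ZI, e t ∣ e (cl a 0 Δ) → t ∈ TV V4 Δ := by
    intro t ht
    have h1 : t ∣ cl a 0 Δ := by
      have h2 := map_dvd e.symm ht
      rwa [e.symm_apply_apply, e.symm_apply_apply] at h2
    rw [hcl] at h1
    exact dec4 (dvd_of_unit (unit_im a) h1) hΔ.prm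
  refine ⟨e, _, _, _, cuA.Cl hΔ.ne, TV_one V4_one Δ, hdiv, fun t ht => ?_, fun hs K' _ _ e' A hA => ?_,
    fun M K' _ _ e' A hA => ?_, fun hs K' _ _ e' A hA =>
      shA e' hΔ ((Pool.Agent.D0H10.Q5.ker Δ hΔ).2.2 hd) hA⟩
  · refine ⟨im1 ^ a * Δ * t ^ 2, mem_SU (clC im1) hk (hdiv t ht), ?_⟩
    show _ = e (cl a 0 Δ) * e t ^ 2
    rw [hcl]
    simp only [map_mul, map_pow]
  · have h1 := rkA e' hΔ (r := 0) (by rw [pow_zero]; exact (Pool.Agent.D0H10.Q5.ker Δ hΔ).2.2 hd) hA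
    rwa [mul_zero] at h1
  · exact plA e' B M hΔ hd ((cuA.Cl hΔ.ne).m0) hA
      ((Dvd.intro _ rfl).trans ((cuA.Cl hΔ.ne).dv A hA 1 ⟨1, V4_one, 1,
        Pool.Agent.H304R2.EC.A1.prim_one, one_dvd _, by rw [mul_one]⟩))

lemma cl_one (a : ℕ) (Δ : ZI) : cl a 1 Δ = im1 ^ a * l1 * Δ := by
  unfold cl
  rw [pow_one, mul_assoc]
  rfl

lemma evn_ex {e : ZI ≃+* 𝓞 K} {D : ZI} (h : Evn (e D)) :
    ∃ (a : ℕ) (Δ : ZI), a < 4 ∧ PS Δ ∧ D = cl a 1 Δ := by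
  obtain ⟨p, hp, Δ, hΔ, hD⟩ := (evnK e D).1 h
  have h1 : p = (0, 1) ∨ p = (1, 1) ∨ p = (2, 1) ∨ p = (3, 1) := by simpa [P.S5] using hp
  rcases h1 with h1 | h1 | h1 | h1 <;> rw [h1] at hD
  · exact ⟨0, Δ, by norm_num, hΔ, hD⟩
  · exact ⟨1, Δ, by norm_num, hΔ, hD⟩
  · exact ⟨2, Δ, by norm_num, hΔ, hD⟩
  · exact ⟨3, Δ, by norm_num, hΔ, hD⟩

/-- **class B** -/
theorem pkB (B : O.BO) {D : 𝓞 K} (hD : Evn D) (hT : FinT D) :
    Pk D fun t => t ∣ D ∧ 2 ∣ t - 1 := by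
  obtain ⟨e, he⟩ := Pool.Agent.D0H10.Q4.Rng.exists_e K
  obtain ⟨D, rfl⟩ := e.surjective D
  obtain ⟨a, Δ, ha4, hΔ, rfl⟩ := evn_ex hD
  have hcl := cl_one a Δ
  have hd : dO a Δ = 1 := (O.factsO B e a hΔ).2.1 hT
  have hk0 : (im1 ^ a * l1 : ZI) ≠ 0 := mul_ne_zero (unit_im a).ne_zero (by decide)
  have hdiv : ∀ t : ZI, (e t ∣ e (cl a 1 Δ) ∧ 2 ∣ e t - 1) → t ∈ TV V2 Δ := by
    rintro t ⟨ht, h2⟩
    have h1 : t ∣ cl a 1 Δ := by
      have h2 := map_dvd e.symm ht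
      rwa [e.symm_apply_apply, e.symm_apply_apply] at h2
    have h2' : (2 : ZI) ∣ t - 1 := (P.two_dvd_e e t).1 h2
    rw [hcl, mul_assoc] at h1
    exact dec2 (dvd_of_pi (odd_of_two h2') (dvd_of_unit (unit_im a) h1)) hΔ.prm h2'
  refine ⟨e, _, _, _, (cuB hk0).Cl hΔ.ne, TV_one V2_one Δ, hdiv, fun t ht => ?_,
    fun hs K' _ _ e' A hA => rkB e' hs a hΔ hd hA, fun M K' _ _ e' A hA => ?_,
    fun hs K' _ _ e' A hA => shB e' hs a hΔ hd hA⟩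
  · refine ⟨im1 ^ a * l1 * Δ * t ^ 2,
      mem_SU (clB (im1 ^ a * l1)) (Set.mem_singleton _) (hdiv t ht), ?_⟩
    rw [hcl]
    simp only [map_mul, map_pow]
  · exact plB e' B M a hΔ hd (((cuB hk0).Cl hΔ.ne).m0) hA
      ((Dvd.intro _ rfl).trans (((cuB hk0).Cl hΔ.ne).dv A hA 1 ⟨1, V2_one, 1,
        Pool.Agent.H304R2.EC.A1.prim_one, one_dvd _, by rw [mul_one]⟩))

/-- **class C** -/
theorem pkC (B : O.BO) {D : 𝓞 K} (hD : Evn D) (hT : FinT D) (hT' : FinT (-D)) :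
    Pk D fun t => t ∣ D ∧ IsCoprime t 2 := by
  obtain ⟨e, he⟩ := Pool.Agent.D0H10.Q4.Rng.exists_e K
  obtain ⟨D, rfl⟩ := e.surjective D
  obtain ⟨a, Δ, ha4, hΔ, rfl⟩ := evn_ex hD
  have hcl := cl_one a Δ
  have hd : dO a Δ = 1 := (O.factsO B e a hΔ).2.1 hT
  have hd' : dO (a + 2) Δ = 1 := by
    have h1 : -(cl a 1 Δ) = cl ((a + 2) % 4) 1 Δ := Pool.Agent.D0H43.JQ.neg_cl ha4 Δ
    have h2 : -e (cl a 1 Δ) = e (cl ((a + 2) % 4) 1 Δ) := by rw [← map_neg, h1]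
    rw [h2] at hT'
    have h3 := (O.factsO B e ((a + 2) % 4) hΔ).2.1 hT'
    rwa [Pool.Agent.D0H43.JQ.dO_mod ha4] at h3
  have hk0 : (im1 ^ a * l1 : ZI) ≠ 0 := mul_ne_zero (unit_im a).ne_zero (by decide)
  have hdiv : ∀ t : ZI, (e t ∣ e (cl a 1 Δ) ∧ IsCoprime (e t) 2) → t ∈ TV V4 Δ := by
    rintro t ⟨ht, h2⟩
    have h1 : t ∣ cl a 1 Δ := by
      have h2 := map_dvd e.symm ht
      rwa [e.symm_apply_apply, e.symm_apply_apply] at h2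
    rw [hcl, mul_assoc] at h1
    exact dec4 (dvd_of_pi (odd_of_cop e h2) (dvd_of_unit (unit_im a) h1)) hΔ.prm
  refine ⟨e, _, _, _, (cuC hk0).Cl hΔ.ne, TV_one V4_one Δ, hdiv, fun t ht => ?_,
    fun hs K' _ _ e' A hA => rkC e' hs a hΔ hd hd' hA, fun M K' _ _ e' A hA => ?_,
    fun hs K' _ _ e' A hA => shC e' hs a hΔ hd hd' hA⟩
  · refine ⟨im1 ^ a * l1 * Δ * t ^ 2, mem_SU (clC (im1 ^ a * l1)) (by simp) (hdiv t ht), ?_⟩
    rw [hcl]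
    simp only [map_mul, map_pow]
  · exact plC e' B M a hΔ hd hd' (((cuC hk0).Cl hΔ.ne).m0) hA
      ((Dvd.intro _ rfl).trans (((cuC hk0).Cl hΔ.ne).dv A hA 1 ⟨1, V4_one, 1,
        Pool.Agent.H304R2.EC.A1.prim_one, one_dvd _, by rw [mul_one]⟩))

lemma Pk.mono {D : 𝓞 K} {T T₁ : 𝓞 K → Prop} (h : Pk D T) (hT : ∀ t, T₁ t → T t) : Pk D T₁ := by
  obtain ⟨e, S, T', m, C, hT', h1, h2, h3⟩ := h
  exact ⟨e, S, T', m, C, hT', fun t ht => h1 t (hT _ ht), fun t ht => h2 t (hT _ ht), h3⟩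

/-- the two kinds -/
lemma notOne_or {D : 𝓞 K} (h : P.NotOne D) : (Squarefree D ∧ OddI D) ∨ Evn D := by
  obtain ⟨e, he⟩ := Pool.Agent.D0H10.Q4.Rng.exists_e K
  obtain ⟨D, rfl⟩ := e.surjective D
  obtain ⟨p, hp, Δ, hΔ, hD⟩ := (P.notOneK e D).1 h
  have h1 : ∀ p ∈ P.S4, p ∈ Pool.Agent.D0H10.Q4.S1 ∨ p ∈ P.S5 := by decide
  rcases h1 p hp with h2 | h2
  · exact Or.inl ((oneK e D).2 ⟨p, h2, Δ, hΔ, hD⟩)
  · exact Or.inr ((evnK e D).2 ⟨p, h2, Δ, hΔ, hD⟩)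

/-- **the first statement** -/
theorem pkN1 (B : BD) (B' : O.BO) {D : 𝓞 K} (hD : P.NotOne D) (hT : FinT D) :
    Pk D fun t => t ∣ D ∧ 2 ∣ t - 1 := by
  rcases notOne_or hD with h | h
  · exact (pkA B h hT).mono fun t ht => ht.1
  · exact pkB B' h hT

/-- **the second statement** -/
theorem pkN2 (B : BD) (B' : O.BO) {D : 𝓞 K} (hD : P.NotOne D) (hT : FinT D) (hT' : FinT (-D)) :
    Pk D fun t => t ∣ D ∧ IsCoprime t 2 := by
  rcases notOne_or hD with h | h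
  · exact (pkA B h hT).mono fun t ht => ht.1
  · exact pkC B' h hT hT'

/-- **the third statement** -/
theorem resN3 {D : 𝓞 K} (hD : Squarefree D ∧ OddI D) (hT : FinT D) : FinT (-D) := by
  obtain ⟨e, he⟩ := Pool.Agent.D0H10.Q4.Rng.exists_e K
  obtain ⟨D, rfl⟩ := e.surjective D
  obtain ⟨p, hp, Δ, hΔ, rfl⟩ := (oneK e D).1 hD
  exact (Pool.Agent.D0H43.JQ.odd_iff e hp hΔ).1 hT

end res

end Pool.Agent.D0H43.MQ
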