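import Pool.Agent.D0H43.MQ.Lst
import Pool.Agent.D0H43.MQ.Ov
import Pool.Agent.D0H10.Q4.AllK

/-!
# Project MQ: the third class, `D = 2 Δ`
-/

set_option autoImplicit false
set_option linter.unusedSectionVars false

open NumberField IsDedekindDomain
open scoped Classical

namespace Pool.Agent.D0H43.MQ

open H385 (ZI RQ im1 nrm)
open Pool.Agent.Y699 hiding q4 wi
open Pool.Agent.Y715.Z
open Pool.Agent.W164.RC (tc_mul tc_star)
open Pool.Agent.H304R3.HK (tc HC LH)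
open Pool.Agent.H304R2.EC.A1 (prim prim_mul norm_def')
open Pool.Agent.D0H10.Q4 (S_SUP S_HEC S_LIM S_BET Cc rh dD BD nl exists_val2 cg_unit)
open Pool.Agent.D0H69.Q4
open Pool.Agent.D0H43.RZ (cv)
open Pool.Agent.D0H10.Q5 (Ker Kd)

/-- the sign -/
lemma c4_et_neg {Δ t : ZI} (hΔ : PS Δ) (z : ZI) :
    c4 (fam Δ) Finset.univ (et Δ t) (-z) =
      (-1) ^ (∑ i : {π : ZI // π ∈ PD Δ}, wq (fam Δ i)) *
        c4 (fam Δ) Finset.univ (et Δ t) z := by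
  have hp := fam_PF hΔ.ne
  have e1 : -z = (-1) * z := by ring
  rw [e1, c4_mul hp, c4_unit hp _ _ (by decide : (-1 : ZI).norm = 1)]
  congr 1
  unfold Wt
  rw [← Finset.prod_pow_eq_pow_sum, ← Finset.prod_pow_eq_pow_sum]
  refine Finset.prod_congr rfl fun i _ => ?_
  rw [pow_mul]
  congr 1
  exact (Nat.odd_iff.2 (et_odd Δ t i)).neg_one_pow

/-- the character at the primary primes -/
theorem X_primeT (hS : S_SUP) (J : JJ) {Δ t : ZI} (hΔ : PS Δ) (htp : prim t) (ht : t ∣ Δ)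
    {X : ZI →* ℂ} (H : HC (8 * Δ) X)
    (hX : ∀ a, Cc a → X a = (starRingEnd ℂ) (tc (rh a * c4 (fam Δ) Finset.univ (et Δ t) a)))
    {z : ZI} (hz : PP z) (hzD : ¬ z ∣ Δ) :
    X z = (starRingEnd ℂ) (tc (Y699.q4 z (-(2 * (Δ * t ^ 2))))) := by
  have hp := fam_PF hΔ.ne
  have hDD := hΔ.DD
  have hne : ∀ i : {π : ZI // π ∈ PD Δ}, z ≠ fam Δ i := by
    intro i h
    apply hzD
    rw [h]
    exact ((mem_PD hΔ.ne).1 i.2).2
  have e1 : -(2 * (Δ * t ^ 2)) = (-2) * Δ * t ^ 2 := by ring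
  have e2 : Y699.q4 z Δ = ∏ i : {π : ZI // π ∈ PD Δ}, Y699.q4 z (fam Δ i) := by
    have h1 : Y699.q4 z (DD (fam Δ) Finset.univ) = ∏ i : {π : ZI // π ∈ PD Δ}, Y699.q4 z (fam Δ i) := by
      unfold DD
      exact q4_prod hz _ (fam Δ)
    rw [hDD] at h1
    exact h1
  have e3 : Y699.q4 z Δ = c4 (fam Δ) Finset.univ on1 z *
      ((-1) ^ (wq z)) ^ (∑ i : {π : ZI // π ∈ PD Δ}, wq (fam Δ i)) := by
    rw [e2, c4_one_exp hp, ← pow_mul, Finset.mul_sum, ← Finset.prod_pow_eq_pow_sum,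
      ← Finset.prod_mul_distrib]
    exact Finset.prod_congr rfl fun i _ => q4_rec J hz (hp.pp i) (hne i)
  have e4 := c4_et J hΔ htp ht hz hzD
  have hw : ((-1 : ZI)) ^ (wq z) = ((Y699.wi z.im : ℤ) : ZI) := neg_one_w (norm_def' z) hz
  have h1 := hz.re_odd
  have h2 := hz.im_even
  have h3 : (z.re + z.im) % 4 = 1 := hz.prm.2
  rw [e1, q4_mul hz, q4_mul hz, hS z hz, e3, hw, q4_pow hz]
  by_cases h4 : z.re % 4 = 1
  · have h5 : z.im % 4 = 0 := by omega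
    rw [hX z ⟨h4, h2⟩, e4]
    unfold Y699.wi
    rw [if_pos h5]
    congr 2
    simp
    ring
  · have h5 : z.im % 4 = 2 := by omega
    have h6 : Cc (-z) := by
      constructor
      · show (-z.re) % 4 = 1
        omega
      · show (-z.im) % 2 = 0
        omega
    have h7 : X z = -X (-z) := by rw [HC.neg H, neg_neg]
    rw [h7, hX (-z) h6, rh_neg h5, c4_et_neg hΔ, e4]
    unfold Y699.wi
    rw [if_neg (by omega)]
    rw [← map_neg]
    congr 1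
    have e5 : ∀ a : ZI, -tc a = tc (-a) := by
      intro a
      unfold tc
      simp
      ring
    rw [e5]
    congr 1
    push_cast
    ring

/-- the `L`-series -/
theorem lskt (hS : S_SUP) (K : Type) [Field K] [NumberField K] (e : ZI ≃+* 𝓞 K) {Δ t : ZI}
    (hΔ : PS Δ) (htp : prim t) (ht : t ∣ Δ) {X : ZI →* ℂ} (H : HC (8 * Δ) X)
    (hX : ∀ a, Cc a → X a = (starRingEnd ℂ) (tc (rh a * c4 (fam Δ) Finset.univ (et Δ t) a)))
    (s : ℂ) (hs : 3 / 2 < s.re) :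
    LG X s = (q4 (em0 e (2 * (Δ * t ^ 2)))).LSeries s := by
  have hu : ∀ z, PP z → ¬ z ∣ (2 : ZI) := fun z hz => not_dvd_two hz
  refine (ls_gen2 e (D := 2 * (Δ * t ^ 2)) H ?_ ?_ ?_ ?_ ?_ s hs).2
  · intro v hPP hd
    exact bad_t e hΔ ht hu v hPP hd
  · intro z hz h
    exact ((pp_t ht hz (hu z hz)).1 h).mul_left _
  · exact (pi1_two.trans ⟨4, by norm_num⟩).mul_right _
  · refine bad_two_of e (b := 2) (c := -im1 * (Δ * t ^ 2)) (by norm_num) ?_ ?_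
    · have h2 : (2 : ZI) = pi1 ^ 2 * -im1 := by decide
      linear_combination (Δ * t ^ 2) * h2
    · intro h
      rcases pi1_prime.dvd_or_dvd h with h | h
      · exact pi1_prime.not_isUnit (isUnit_of_dvd_unit h (IsUnit.of_mul_eq_one im1 (by decide)))
      · exact pi1_prim (pt_prim hΔ htp) h
  · intro z hz hzD
    have hzΔ : ¬ z ∣ Δ := fun h => hzD ((pp_t ht hz (hu z hz)).2 h)
    exact X_primeT hS (JJ_of e) hΔ htp ht H hX hz hzΔ

/-- the `L`-function, class `2 Δ` -/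
theorem lfunK2 {Δ t : ZI} (h : PS Δ) (htp : prim t) (ht : t ∣ Δ) (hd : dD Δ = 1) :
    ∃ Λ : ℂ → ℂ, Differentiable ℂ Λ ∧ Λ 1 ≠ 0 ∧
      ∀ (K : Type) [Field K] [NumberField K] (e : ZI ≃+* 𝓞 K) (s : ℂ), 3 / 2 < s.re →
        Λ s = (q4 (em0 e (2 * (Δ * t ^ 2)))).LSeries s := by
  have hp := Pool.Agent.Y699.fam_PF h.ne
  obtain ⟨X, hX1, hX2, hX3⟩ := Pool.Agent.D0H54.Q4.hec _ (fam Δ) hp Finset.univ (et Δ t)
    (fun i _ => et_four Δ t i)
  rw [h.DD] at hX1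
  refine ⟨LG X, LG_diff hX1, ?_, fun K _ _ e s hs =>
    lskt Pool.Agent.D0H77.Q4.sup K e h htp ht hX1 hX2 s hs⟩
  apply Pool.Agent.Y699.LG_one
  obtain ⟨L, Ω, s, hN⟩ := nl
  rw [hX3 _ (Pool.Agent.D0H52.Q4.lim L Ω s hN _ (fam Δ) hp Finset.univ (et Δ t))]
  intro h0
  have h1 : Pool.Agent.D0H10.Q4.lv L Ω (fam Δ) Finset.univ (et Δ t) = 0 := by
    rwa [map_eq_zero] at h0
  refine exists_val2 fun Γ _ v hv => ?_
  have h2 := Pool.Agent.D0H10.Q4.betA L Ω s hN Γ v hv _ (fam Δ) hp Finset.univ (et Δ t)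
    (fun i _ => et_odd Δ t i)
  have h3 : Pool.Agent.D0H10.Q4.dq (fam Δ) Finset.univ = 1 := hd
  rw [h1, zero_div, h3] at h2
  have h4 := (cg_unit h2).2.2 rfl
  rw [map_zero] at h4
  exact zero_ne_one h4

section

variable {K' : Type} [Field K'] [NumberField K'] (e' : ZI ≃+* 𝓞 K')

/-- the Euler products, class `2 Δ` -/
theorem plK (M : BM) {Δ : ZI} (h : PS Δ) (hd : dD Δ = 1) {m : ZI} (hm : m ≠ 0) {A : ZI}
    (hA : A ∈ SU {2} Δ) (hdv : 2 * A ∣ m) : PL K' (e' A) (e' m) := by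
  obtain ⟨κ, hκ, t, htp, ht, rfl⟩ := hA
  obtain ⟨Λ, h1, h2, h3⟩ := lfunK2 h htp ht hd
  refine pl_of e' M hm hdv h1 h2 fun s hs => ?_
  rw [h3 K' e' s hs, Set.mem_singleton_iff.1 hκ, mul_assoc]

/-- the Euler products, class D -/
theorem plD (B : BD) (M : BM) {Δ κ : ZI} (hκ : κ = im1 ∨ κ = -im1) (h : PS Δ) (hd : dD Δ = 1)
    {m : ZI} (hm : m ≠ 0) {A : ZI} (hA : A ∈ SU {2, κ} Δ) (hdv : 2 * A ∣ m) :
    PL K' (e' A) (e' m) := by
  obtain ⟨κ', hκ', t, htp, ht, rfl⟩ := hA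
  rcases hκ' with h1 | h1
  · exact plK e' M h hd hm ⟨κ', h1, t, htp, ht, rfl⟩ hdv
  · rw [Set.mem_singleton_iff] at h1
    refine plA e' B M h hd hm ⟨κ', ?_, t, htp, ht, rfl⟩ hdv
    rcases hκ with h2 | h2
    · left; rw [h1, h2]
    · right; rw [Set.mem_singleton_iff, h1, h2]

open Pool.Agent.TH841.NF.D (Sha)

/-- the Tate-Shafarevich group, all the kinds -/
theorem shK {Δ D t : ZI} (h : PS Δ) (hkd : Kd Δ D) (htp : prim t) (ht : t ∣ Δ)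
    (hd : (Ker Δ).ncard = 1) (n : ℕ) (x : Sha (cv ((e' (D * t ^ 2) : 𝓞 K') : K')))
    (hx : 2 ^ n • x = 0) : x = 0 := by
  obtain ⟨hf, hc⟩ := cntt K' e' Δ D t h hkd htp ht
  have h2 : ∀ x : Sha (cv ((e' (D * t ^ 2) : 𝓞 K') : K')), 2 • x = 0 → x = 0 := by
    intro x hx
    by_contra hne
    haveI : Finite {x : Sha (cv ((e' (D * t ^ 2) : 𝓞 K') : K')) // 2 • x = 0} := hf
    haveI : Nontrivial {x : Sha (cv ((e' (D * t ^ 2) : 𝓞 K') : K')) // 2 • x = 0} :=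
      ⟨⟨⟨x, hx⟩, ⟨0, smul_zero _⟩, fun h => hne (congrArg Subtype.val h)⟩⟩
    have h3 : 1 < Nat.card {x : Sha (cv ((e' (D * t ^ 2) : 𝓞 K') : K')) // 2 • x = 0} :=
      Finite.one_lt_card
    have h4 : 1 ≤ 2 ^ (Module.finrank ℤ
      (Pool.Agent.Y682.MP (Pool.Agent.Y715.Z.q4 (Pool.Agent.Y715.Z.em0 e' (D * t ^ 2))))) :=
      Nat.one_le_two_pow
    rw [hd, one_pow] at hc
    have h5 : 1 < 2 ^ (Module.finrank ℤ
      (Pool.Agent.Y682.MP (Pool.Agent.Y715.Z.q4 (Pool.Agent.Y715.Z.em0 e' (D * t ^ 2))))) *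
      Nat.card {x : Sha (cv ((e' (D * t ^ 2) : 𝓞 K') : K')) // 2 • x = 0} :=
      lt_of_lt_of_le h3 (Nat.le_mul_of_pos_left _ h4)
    exact absurd hc (not_le.2 h5)
  induction n with
  | zero => rwa [pow_zero, one_smul] at hx
  | succ n ih =>
    apply ih
    apply h2
    rw [← mul_smul, ← pow_succ']
    exact hx

/-- class D: the kinds -/
lemma kdD {Δ κ κ' : ZI} (hκ : κ = im1 ∨ κ = -im1) (h : κ' ∈ ({2, κ} : Set ZI)) : Kd Δ (κ' * Δ) := by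
  rcases h with h1 | h1
  · exact Or.inr (Or.inr (by rw [h1]))
  · rw [Set.mem_singleton_iff] at h1
    rcases hκ with h2 | h2
    · exact Or.inl (by rw [h1, h2])
    · exact Or.inr (Or.inl (by rw [h1, h2]))

/-- the Tate-Shafarevich group, class D -/
theorem shD {Δ κ : ZI} (hκ : κ = im1 ∨ κ = -im1) (h : PS Δ) (hd : (Ker Δ).ncard = 1) {A : ZI}
    (hA : A ∈ SU {2, κ} Δ) (n : ℕ) (x : Sha (cv ((e' A : 𝓞 K') : K')))
    (hx : 2 ^ n • x = 0) : x = 0 := by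
  obtain ⟨κ', hκ', t, htp, ht, rfl⟩ := hA
  exact shK e' h (kdD hκ hκ') htp ht hd n x hx

/-- the rank, class D -/
theorem rkD {Δ κ : ZI} (hκ : κ = im1 ∨ κ = -im1) (h : PS Δ) {r : ℕ} (hr : (Ker Δ).ncard = 2 ^ r)
    {A : ZI} (hA : A ∈ SU {2, κ} Δ) :
    Module.finrank ℤ (cv ((e' A : 𝓞 K') : K')).toAffine.Point ≤ 2 * r := by
  obtain ⟨κ', hκ', t, htp, ht, rfl⟩ := hA
  exact rkK e' h (kdD hκ hκ') htp ht hr

end

end Pool.Agent.D0H43.MQ
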