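import Pool.Agent.D0H43.MQ.StmB
import Pool.Agent.D0H69.Q4.Lso

/-!
# Project MQ (helper43): the `L`-series of `y² = x³ + D t² x` over `ℚ(i)`, `D = κ Δ`, `t ∣ Δ`

Modules 7 and 8 (the method is `ls_gen`, helper69's file `D0H69/Q4/Gen.lean`).
-/

set_option autoImplicit false
set_option linter.unusedSectionVars false

open NumberField IsDedekindDomain

namespace Pool.Agent.D0H43.MQ

open scoped Classical
open WeierstrassCurve
open Pool.Agent.Y699 hiding q4 wi
open Pool.Agent.Y715.Z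
open Pool.Agent.W189.NF (aV eV)
open Pool.Agent.H921R2.TatePole (nm two_le_nm)
open H385 (ZI RQ im1 nrm)
open Pool.Agent.W164.RC (tc_mul tc_star Ip Ip_spec)
open Pool.Agent.H304R3.HK (tc HC LH)
open Pool.Agent.H304R2.EC.A1 (prim prim_cancel prim_mul)
open Pool.Agent.Y696 (HBd LSeries_hasProd')
open Pool.Agent.D0H43.Q4 (S_SUPL cO cI sg wo wi l1 f7 xl)
open Pool.Agent.D0H69.Q4

section main

variable {K : Type} [Field K] [NumberField K] (e : ZI ≃+* 𝓞 K)

/-- additive reduction at an odd prime with exponent `m`, not divisible by four -/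
theorem bad_exp {D c : ZI} {m : ℕ} (v : HeightOneSpectrum (𝓞 K)) (hPP : PP (pg e v))
    (hm : ¬ 4 ∣ m) (hc : D = pg e v ^ m * c) (hzc : ¬ pg e v ∣ c) :
    aV (q4 (em0 e D)) v = 0 ∧ eV (q4 (em0 e D)) v = 0 := by
  have hsp := pg_span e v
  set z := pg e v with hz
  have hzp : Prime z := pg_prime e v
  have ht0 : e z ≠ 0 := by
    rw [Ne, map_eq_zero_iff e e.injective]
    exact hzp.ne_zero
  refine bad_of4 (t := e z) (r := e (-64 * c ^ 3)) (m := 3 * m) ht0 hsp (by omega) ?_ ?_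
  · rw [mem_iff e hsp]
    intro h
    rcases hzp.dvd_or_dvd h with h3 | h3
    · have e5 : (-64 : ZI) = -(2 ^ 6) := by decide
      rw [e5, dvd_neg] at h3
      exact not_dvd_two hPP (hzp.dvd_of_dvd_pow h3)
    · exact hzc (hzp.dvd_of_dvd_pow h3)
  · rw [disc_eq' e, ← map_pow, ← map_mul]
    congr 1
    rw [hc]
    ring

/-- **the `L`-series, general form**, with the additive reduction as hypothesis -/
theorem ls_gen2 {D f : ZI} {X : ZI →* ℂ} (H : HC f X)
    (h1 : ∀ v : HeightOneSpectrum (𝓞 K), PP (pg e v) → pg e v ∣ D →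
      aV (q4 (em0 e D)) v = 0 ∧ eV (q4 (em0 e D)) v = 0)
    (h2 : ∀ z, PP z → z ∣ D → z ∣ f) (h3 : pi1 ∣ f)
    (h4 : ∀ v : HeightOneSpectrum (𝓞 K), v = plc e pi1_prime →
      aV (q4 (em0 e D)) v = 0 ∧ eV (q4 (em0 e D)) v = 0)
    (h5 : ∀ z, PP z → ¬ z ∣ D → X z = (starRingEnd ℂ) (tc (Y699.q4 z (-D)))) (s : ℂ)
    (hs : 3 / 2 < s.re) :
    LSeriesSummable ((fun n : ℤ => (n : ℂ)) ∘ (q4 (em0 e D)).LFunction) s ∧
      LG X s = (q4 (em0 e D)).LSeries s := by
  have key : ∀ (v : HeightOneSpectrum (𝓞 K)) (s : ℂ),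
      HBd (aV (q4 (em0 e D)) v) (eV (q4 (em0 e D)) v) (nm v) ∧
      (1 - (aV (q4 (em0 e D)) v : ℂ) * (nm v : ℂ) ^ (-s) +
        (eV (q4 (em0 e D)) v : ℂ) * ((nm v : ℂ) ^ (-s)) ^ 2)⁻¹ = g1 X e s v * g2 X e s v := by
    intro v s
    by_cases hb : pg e v = pi1 ∨ pg e v ∣ D
    · have h0 : (aV (q4 (em0 e D)) v = 0 ∧ eV (q4 (em0 e D)) v = 0) ∧ pg e v ∣ f := by
        rcases pg_cases e v with ⟨g1, g2⟩ | ⟨g1, g2⟩
        · have g2' : pg e v = pi1 := g2
          refine ⟨h4 v ?_, by rw [g2']; exact h3⟩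
          apply HeightOneSpectrum.ext
          show v.asIdeal = Ideal.span {e pi1}
          rw [← g2']
          exact pg_span e v
        · have hPP : PP (pg e v) := ⟨(Ip_spec (Pool.Agent.H921R2.TatePole.below v).2 g2).2.1,
            (Ip_spec (Pool.Agent.H921R2.TatePole.below v).2 g2).1⟩
          have hzD : pg e v ∣ D := by
            rcases hb with h | h
            · exfalso
              have := pi1_prim hPP.prm
              rw [h] at this
              exact this dvd_rfl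
            · exact h
          exact ⟨h1 v hPP hzD, h2 _ hPP hzD⟩
      refine ⟨Or.inl h0.1, ?_⟩
      have hX0 : X (pg e v) = 0 := X_zero H (pg_prime e v) h0.2
      rw [h0.1.1, h0.1.2]
      unfold g1 g2
      rw [hX0]
      simp
    · push Not at hb
      have hPP : PP (pg e v) := by
        rcases pg_cases e v with ⟨g1, g2⟩ | ⟨g1, g2⟩
        · exact absurd g2 hb.1
        · exact ⟨(Ip_spec (Pool.Agent.H921R2.TatePole.below v).2 g2).2.1,
            (Ip_spec (Pool.Agent.H921R2.TatePole.below v).2 g2).1⟩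
      obtain ⟨k1, k2, k3, k4⟩ := good_odd e v hPP hb.2
      have hXz := h5 _ hPP hb.2
      set q := Pool.Agent.Y699.q4 (pg e v) (-D) with hq
      constructor
      · refine Or.inr ⟨(starRingEnd ℂ) (tc q) * tc (pg e v), ?_, ?_, ?_⟩
        · rw [k1, map_mul, Complex.conj_conj]
        · rw [k2, map_mul, Complex.conj_conj]
          linear_combination (-(nm v : ℂ)) * k3 - (tc q * (starRingEnd ℂ) (tc q)) * k4
        · rw [map_mul, Complex.conj_conj]
          linear_combination ((nm v : ℂ)) * k3 + (tc q * (starRingEnd ℂ) (tc q)) * k4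
      · unfold g1 g2
        rw [hXz, Complex.conj_conj, tc_star, ← mul_inv, k1, k2]
        congr 1
        have hnm : ((Ideal.absNorm v.asIdeal : ℕ) : ℂ) = (nm v : ℂ) := rfl
        rw [hnm]
        linear_combination (-((nm v : ℂ) ^ (-s)) ^ 2 * (nm v : ℂ)) * k3 -
          (((nm v : ℂ) ^ (-s)) ^ 2 * tc q * (starRingEnd ℂ) (tc q)) * k4
  obtain ⟨k1, k2⟩ := LSeries_hasProd' (q4 (em0 e D)) (fun v => (key v s).1) hs
  refine ⟨k1, ?_⟩
  have hX0 : X pi1 = 0 := X_zero H pi1_prime h3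
  have k3 := (g1_hasProd H hX0 e hs).mul (g2_hasProd H hX0 e hs)
  exact k3.unique (k2.congr_fun fun v => ((key v s).2).symm)

end main

/-! ### the symbol of the twist -/

lemma pp_t {Δ t : ZI} (ht : t ∣ Δ) {z : ZI} (hz : PP z) {u : ZI} (hu : ¬ z ∣ u) :
    z ∣ u * (Δ * t ^ 2) ↔ z ∣ Δ := by
  constructor
  · intro h
    rcases hz.pr.dvd_or_dvd h with h | h
    · exact absurd h hu
    · rcases hz.pr.dvd_or_dvd h with h | h
      · exact h
      · exact (hz.pr.dvd_of_dvd_pow h).trans ht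
  · intro h
    exact (h.mul_right _).mul_left _

/-- the primes of `t` -/
lemma t_prod {Δ t : ZI} (hΔ : PS Δ) (htp : prim t) (ht : t ∣ Δ) :
    t = ∏ i : {π : ZI // π ∈ PD Δ}, (if fam Δ i ∣ t then fam Δ i else 1) := by
  have hS : PS t := hΔ.of_dvd htp ht
  have h1 : PD t = (PD Δ).filter (fun π => π ∣ t) := by
    ext π
    rw [Finset.mem_filter, mem_PD hS.ne, mem_PD hΔ.ne]
    constructor
    · rintro ⟨a, b⟩
      exact ⟨⟨a, b.trans ht⟩, b⟩
    · rintro ⟨⟨a, _⟩, b⟩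
      exact ⟨a, b⟩
  have h2 := hS.prod
  rw [h1, Finset.prod_filter] at h2
  rw [← Finset.prod_coe_sort (PD Δ) (fun π => if π ∣ t then π else 1)] at h2
  exact h2.symm

/-- the symbols with the exponents `1` and `3` -/
lemma c4_et (J : JJ) {Δ t : ZI} (hΔ : PS Δ) (htp : prim t) (ht : t ∣ Δ) {z : ZI} (hz : PP z)
    (hzD : ¬ z ∣ Δ) :
    c4 (fam Δ) Finset.univ (et Δ t) z = c4 (fam Δ) Finset.univ on1 z * Y699.q4 z t ^ 2 := by
  have hp := fam_PF hΔ.ne
  have hne : ∀ i : {π : ZI // π ∈ PD Δ}, z ≠ fam Δ i := by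
    intro i h
    apply hzD
    have h1 := ((mem_PD hΔ.ne).1 i.2).2
    rw [h]
    exact h1
  have e1 : Y699.q4 z t = ∏ i : {π : ZI // π ∈ PD Δ}, (if fam Δ i ∣ t then Y699.q4 z (fam Δ i) else 1) := by
    conv_lhs => rw [t_prod hΔ htp ht]
    rw [q4_prod hz]
    refine Finset.prod_congr rfl fun i _ => ?_
    split_ifs
    · rfl
    · exact q4_one hz
  rw [e1, ← Finset.prod_pow]
  unfold c4
  rw [← Finset.prod_mul_distrib]
  refine Finset.prod_congr rfl fun i _ => ?_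
  have hnd : ¬ fam Δ i ∣ z := by
    intro h
    exact hne i ((hp.pp i).eq_of_dvd hz h).symm
  unfold fe et
  rw [if_neg hnd, if_neg hnd]
  by_cases h : fam Δ i ∣ t
  · rw [if_pos h, if_pos h, q4_rec J hz (hp.pp i) (hne i)]
    have h2 : ((-1 : ZI) ^ (nrm z / 4 * (nrm (fam Δ i) / 4))) ^ 2 = 1 := by
      rw [← pow_mul, mul_comm _ 2, pow_mul]
      norm_num
    linear_combination (-(Y699.q4 (fam Δ i) z) ^ 3) * h2
  · rw [if_neg h, if_neg h]
    ring

section main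

variable {K : Type} [Field K] [NumberField K] (e : ZI ≃+* 𝓞 K)

/-- additive reduction at the odd primes of `u Δ t²` -/
lemma bad_t {Δ t u : ZI} (hΔ : PS Δ) (ht : t ∣ Δ) (hu : ∀ z, PP z → ¬ z ∣ u)
    (v : HeightOneSpectrum (𝓞 K)) (hPP : PP (pg e v)) (hd : pg e v ∣ u * (Δ * t ^ 2)) :
    aV (q4 (em0 e (u * (Δ * t ^ 2)))) v = 0 ∧ eV (q4 (em0 e (u * (Δ * t ^ 2)))) v = 0 := by
  have hz := (pp_t ht hPP (hu _ hPP)).1 hd
  obtain ⟨c, hc⟩ := hz
  have hsq : ∀ d, ¬ (pg e v ∣ c ∧ d = 1) := by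
    rintro d ⟨⟨w, hw⟩, _⟩
    apply hPP.pr.not_isUnit
    apply hΔ.sqf (pg e v)
    exact ⟨w, by rw [hc, hw]; ring⟩
  have hzc : ¬ pg e v ∣ c := fun h => hsq 1 ⟨h, rfl⟩
  by_cases h : pg e v ∣ t
  · obtain ⟨t', ht'⟩ := h
    have htc : ¬ pg e v ∣ t' := by
      rintro ⟨w, hw⟩
      apply hPP.pr.not_isUnit
      apply hΔ.sqf (pg e v)
      refine Dvd.dvd.trans ⟨w, ?_⟩ ht
      rw [ht', hw]
      ring
    refine bad_exp e v hPP (m := 3) (c := u * c * t' ^ 2) (by norm_num) ?_ ?_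
    · rw [ht']
      conv_lhs => rw [hc]
      ring
    · intro h
      rcases hPP.pr.dvd_or_dvd h with h | h
      · rcases hPP.pr.dvd_or_dvd h with h | h
        · exact hu _ hPP h
        · exact hzc h
      · exact htc (hPP.pr.dvd_of_dvd_pow h)
  · refine bad_exp e v hPP (m := 1) (c := u * c * t ^ 2) (by norm_num) ?_ ?_
    · conv_lhs => rw [hc]
      ring
    · intro h'
      rcases hPP.pr.dvd_or_dvd h' with h' | h'
      · rcases hPP.pr.dvd_or_dvd h' with h' | h'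
        · exact hu _ hPP h'
        · exact hzc h'
      · exact h (hPP.pr.dvd_of_dvd_pow h')

end main

lemma pp_unit {z u : ZI} (hz : PP z) (hu : IsUnit u) : ¬ z ∣ u :=
  fun h => hz.pr.not_isUnit (isUnit_of_dvd_unit h hu)

lemma pt_prim {Δ t : ZI} (hΔ : PS Δ) (htp : prim t) : prim (Δ * t ^ 2) := by
  rw [pow_two]
  exact prim_mul hΔ.prm (prim_mul htp htp)

/-- **the `L`-series, odd exponent of the unit** -/
theorem ls1t : S_LS1T := by
  intro σ hσ K _ _ e Δ t hΔ htp ht X H hX s hs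
  have hu : ∀ z, PP z → ¬ z ∣ (im1 ^ σ : ZI) := fun z hz => pp_unit hz (isUnit_im1_pow σ)
  refine ls_gen2 e (D := im1 ^ σ * (Δ * t ^ 2)) H ?_ ?_ ?_ ?_ ?_ s hs
  · intro v hPP hd
    exact bad_t e hΔ ht hu v hPP hd
  · intro z hz h
    exact ((pp_t ht hz (hu z hz)).1 h).mul_left _
  · exact (pi1_two.trans ⟨4, by norm_num⟩).mul_right _
  · have h3 := odd_twist hσ (pt_prim hΔ htp)
    intro v hv
    exact bad_two e h3.1 h3.2 v hv
  · intro z hz hzD
    have hzΔ : ¬ z ∣ Δ := fun h => hzD ((pp_t ht hz (hu z hz)).2 h)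
    rw [hX z hz.prm]
    congr 2
    have e1 : -(im1 ^ σ * (Δ * t ^ 2)) = im1 ^ (σ + 2) * Δ * t ^ 2 := by
      have h2 : (im1 : ZI) ^ 2 = -1 := by rw [pow_two, im1_sq']
      rw [pow_add, h2]
      ring
    have hS' : sg σ Δ = σ + 2 + 2 * ∑ i : {π : ZI // π ∈ PD Δ}, wq (fam Δ i) := rfl
    rw [e1, q4_mul hz, q4_twist (JJ_of e) hΔ (σ + 2) hz hzΔ, c4_et (JJ_of e) hΔ htp ht hz hzΔ,
      q4_pow hz, hS']
    unfold wi
    ring

/-- **the `L`-series, `b = 1`** -/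
theorem lsot : S_SUPL → S_LSOT := by
  intro hS σ K _ _ e Δ t hΔ htp ht X H hX s hs
  have hu : ∀ z, PP z → ¬ z ∣ (im1 ^ σ * l1 : ZI) := by
    intro z hz h
    rcases hz.pr.dvd_or_dvd h with h | h
    · exact pp_unit hz (isUnit_im1_pow σ) h
    · exact pp_l1 hz h
  refine ls_gen2 e (D := im1 ^ σ * l1 * (Δ * t ^ 2)) H ?_ ?_ ?_ ?_ ?_ s hs
  · intro v hPP hd
    exact bad_t e hΔ ht hu v hPP hd
  · intro z hz h
    exact ((pp_t ht hz (hu z hz)).1 h).mul_left _
  · exact Dvd.dvd.mul_right (⟨8, by decide⟩ : pi1 ∣ f7) Δ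
  · refine bad_two_of e (b := 1) (c := im1 ^ σ * (Δ * t ^ 2)) (by norm_num) ?_ ?_
    · have : l1 = pi1 := rfl
      rw [this]
      ring
    · intro h
      rcases pi1_prime.dvd_or_dvd h with h | h
      · exact pi1_prime.not_isUnit (isUnit_of_dvd_unit h (isUnit_im1_pow σ))
      · exact pi1_prim (pt_prim hΔ htp) h
  · intro z hz hzD
    have hzΔ : ¬ z ∣ Δ := fun h => hzD ((pp_t ht hz (hu z hz)).2 h)
    rw [hX z hz.prm]
    congr 2
    have e1 : -(im1 ^ σ * l1 * (Δ * t ^ 2)) = l1 * (im1 ^ (σ + 2) * Δ) * t ^ 2 := by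
      have h2 : (im1 : ZI) ^ 2 = -1 := by rw [pow_two, im1_sq']
      rw [pow_add, h2]
      ring
    have hS' : sg σ Δ = σ + 2 + 2 * ∑ i : {π : ZI // π ∈ PD Δ}, wq (fam Δ i) := rfl
    rw [e1, q4_mul hz, q4_mul hz, q4_twist (JJ_of e) hΔ (σ + 2) hz hzΔ, hS z hz,
      c4_et (JJ_of e) hΔ htp ht hz hzΔ, q4_pow hz, hS']
    unfold wo
    rw [pow_add]
    ring

end Pool.Agent.D0H43.MQ
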