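import Pool.Agent.D0H43.MQ.Ov

/-!
# Project MQ: the ranks over the extensions
-/

set_option autoImplicit false

open NumberField IsDedekindDomain Filter
open scoped Classical Topology

namespace Pool.Agent.D0H43.MQ

open H385 (ZI RQ im1 nrm)
open Pool.Agent.Y699 (PS PD fam)
open Pool.Agent.H304R2.EC.A1 (prim prim_mul prim_cancel exists_prim prim_norm_odd)
open Pool.Agent.D0H43.RZ (cv)
open Pool.Agent.D0H10.Q4 (dD BD cl FinT OddI TwP inS2_iff twoK oneK inS1_iff InS two_cl)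
open Pool.Agent.D0H43.Q4
open Pool.Agent.D0H43.Q4.P (Evn evnK NotOne notOneK)
open Pool.Agent.D0H10.Q5 (Ker Kd facts_s prob S_LA2 S_SUM)
open Pool.Agent.D0H10.Q5.Inf (killed)

section res

variable {K : Type} [Field K] [NumberField K] [IsCyclotomicExtension {4} ℚ K]

/-- the rank over the extensions, class A -/
theorem rkOverA {i : K} (hi : i ^ 2 = -1) {D : 𝓞 K} (hD : Squarefree D ∧ OddI D) {r : ℕ}
    (hr : (killed i (D : K)).ncard = 2 ^ r)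
    (F : Type) [Field F] [NumberField F] [Algebra K F] (hF : GenBy (K := K) F fun t => t ∣ D) :
    Module.finrank ℤ (cv (algebraMap K F (D : K))).toAffine.Point ≤ 2 * r * Module.finrank K F := by
  obtain ⟨e, he⟩ := Pool.Agent.D0H10.Q4.Rng.exists_e K
  obtain ⟨D, rfl⟩ := e.surjective D
  obtain ⟨p, hp, Δ, hΔ, rfl⟩ := (oneK e D).1 hD
  have hk : (Ker Δ).ncard = 2 ^ r :=
    ((facts_s e hi p ((by decide : Pool.Agent.D0H10.Q4.S1 ⊆ Pool.Agent.D0H10.Q4.S3) hp) Δ hΔ).2 r).1 hr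
  obtain ⟨a, hσ, hki, hpa⟩ : ∃ a : ℕ, a % 2 = 1 ∧ im1 ^ a ∈ ({im1, -im1} : Set ZI) ∧ p = (a, 0) := by
    have h1 : p = (1, 0) ∨ p = (3, 0) := by simpa [Pool.Agent.D0H10.Q4.S1] using hp
    rcases h1 with h1 | h1
    · exact ⟨1, by norm_num, by left; decide, h1⟩
    · exact ⟨3, by norm_num, by right; decide, h1⟩
  subst hpa
  have hcl : cl a 0 Δ = im1 ^ a * Δ := (Pool.Agent.D0H10.Q4.im1_pow a Δ).symm
  have hdiv : ∀ t : ZI, e t ∣ e (cl a 0 Δ) → t ∈ TV V4 Δ := by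
    intro t ht
    have h1 : t ∣ cl a 0 Δ := by
      have h2 := map_dvd e.symm ht
      rwa [e.symm_apply_apply, e.symm_apply_apply] at h2
    rw [hcl] at h1
    exact dec4 (dvd_of_unit (unit_im a) h1) hΔ.prm
  have hm : im1 ^ a * Δ ∈ SU {im1, -im1} Δ :=
    ⟨im1 ^ a, hki, 1, Pool.Agent.H304R2.EC.A1.prim_one, one_dvd _, by ring⟩
  have h := overR e (cuA.Cl hΔ.ne) (2 * r) (fun K' _ _ e' A hA => rkA e' hΔ hk hA) F
    (gn_of e hdiv hF) _ hm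
  rw [hcl]
  exact h

/-- the admissible elements for `D = 2 Δ` -/
def TD (i D t : 𝓞 K) : Prop := ∃ t' : 𝓞 K, t' ∣ D ∧ 2 ∣ t' - 1 ∧ (t = t' ∨ t = (1 + i) * t')

/-- the rank over the extensions, class D -/
theorem rkOverD {i : K} (hi : i ^ 2 = -1) (j : 𝓞 K) (hj : j ^ 2 = -1) {D : 𝓞 K} (hD : TwP D) {r : ℕ}
    (hr : (killed i (D : K)).ncard = 2 ^ r)
    (F : Type) [Field F] [NumberField F] [Algebra K F] (hF : GenBy (K := K) F (TD j D)) :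
    Module.finrank ℤ (cv (algebraMap K F (D : K))).toAffine.Point ≤ 2 * r * Module.finrank K F := by
  obtain ⟨e, he⟩ := Pool.Agent.D0H10.Q4.Rng.exists_e K
  obtain ⟨D, rfl⟩ := e.surjective D
  obtain ⟨p, hp, Δ, hΔ, rfl⟩ := (twoK e D).1 hD
  have h2 : ∀ p ∈ Pool.Agent.D0H10.Q4.S2, p = (3, 2) := by decide
  have hp' := h2 p hp
  subst hp'
  have hk : (Ker Δ).ncard = 2 ^ r := ((facts_s e hi (3, 2) (by decide) Δ hΔ).2 r).1 hr
  have hcl : cl 3 2 Δ = 2 * Δ := (two_cl Δ).symm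
  obtain ⟨u, hu⟩ := e.surjective j
  have hu2 : u ^ 2 = -1 := by
    apply e.injective
    rw [map_pow, hu, hj, map_neg, map_one]
  have hdiv : ∀ t : ZI, TD j (e (cl 3 2 Δ)) (e t) → t ∈ TV {1, -1, 1 + u, -(1 + u)} Δ := by
    rintro t ⟨t', h1, h2, h3⟩
    obtain ⟨t', rfl⟩ := e.surjective t'
    have h1' : t' ∣ cl 3 2 Δ := by
      have h2 := map_dvd e.symm h1
      rwa [e.symm_apply_apply, e.symm_apply_apply] at h2
    have h2' : (2 : ZI) ∣ t' - 1 := (P.two_dvd_e e t').1 h2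
    have hodd := odd_of_two h2'
    have h4 : t' ∣ Δ := by
      rw [hcl, Pool.Agent.Y699.two_eq_pi] at h1'
      have e1 : Pool.Agent.Y699.pi1 ^ 2 * (⟨0, -1⟩ : ZI) * Δ =
          Pool.Agent.Y699.pi1 * (Pool.Agent.Y699.pi1 * ((⟨0, -1⟩ : ZI) * Δ)) := by ring
      rw [e1] at h1'
      exact dvd_of_unit (IsUnit.of_mul_eq_one (⟨0, 1⟩ : ZI) (by decide))
        (dvd_of_pi hodd (dvd_of_pi hodd h1'))
    obtain ⟨v, hv, t'', hp'', ht'', h5⟩ := dec2 h4 hΔ.prm h2'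
    rcases h3 with h3 | h3
    · have h6 : t = t' := e.injective h3
      rw [h6, h5]
      refine ⟨v, ?_, t'', hp'', ht'', rfl⟩
      rcases hv with rfl | rfl
      · simp
      · simp
    · have h6 : t = (1 + u) * t' := by
        apply e.injective
        rw [h3, map_mul, map_add, map_one, hu]
      rw [h6, h5]
      refine ⟨(1 + u) * v, ?_, t'', hp'', ht'', by ring⟩
      rcases hv with rfl | rfl
      · simp
      · right; right; right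
        rw [Set.mem_singleton_iff]
        ring
  have hm : ∀ κ : ZI, 2 * Δ ∈ SU {2, κ} Δ := fun κ =>
    ⟨2, by simp, 1, Pool.Agent.H304R2.EC.A1.prim_one, one_dvd _, by ring⟩
  rw [hcl]
  rcases Pool.Agent.D0H10.Q4.sq_neg hu2 with hu' | hu'
  · subst hu'
    exact overR e (cuD1.Cl hΔ.ne) (2 * r) (fun K' _ _ e' A hA => rkD1 e' hΔ hk hA) F
      (gn_of e hdiv hF) _ (hm _)
  · subst hu'
    have h7 : ({1, -1, 1 + -im1, -(1 + -im1)} : Set ZI) = {1, -1, 1 - im1, -(1 - im1)} := by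
      rw [sub_eq_add_neg]
    rw [h7] at hdiv
    exact overR e (cuD2.Cl hΔ.ne) (2 * r) (fun K' _ _ e' A hA => rkD2 e' hΔ hk hA) F
      (gn_of e hdiv hF) _ (hm _)

end res

/-- the lower bounds for the proportions and the average -/
theorem core2 (hLA : S_LA2) (hs : S_SUM) (K : Type) [Field K] [NumberField K]
    [IsCyclotomicExtension {4} ℚ K] (i : K) (hi : i ^ 2 = -1) (Q : 𝓞 K → Prop)
    (hQ : Q = (fun D => Squarefree D ∧ OddI D) ∨ Q = TwP) (rk : 𝓞 K → ℕ)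
    (h : ∀ D, Q D → ∀ r : ℕ, (killed i (D : K)).ncard = 2 ^ r → rk D ≤ 2 * r) :
    (∀ R : ℕ, ∀ a : ℝ, a < ∑ r ∈ Finset.range (R + 1), prob r → ∀ᶠ X : ℕ in atTop,
        a < ({D : 𝓞 K | Algebra.norm ℤ D ≤ X ∧ Q D ∧ rk D ≤ 2 * R}.ncard : ℝ) /
          ({D : 𝓞 K | Algebra.norm ℤ D ≤ X ∧ Q D}.ncard : ℝ)) ∧
      (∀ᶠ X : ℕ in atTop, (∑ᶠ D ∈ {D : 𝓞 K | Algebra.norm ℤ D ≤ X ∧ Q D}, (rk D : ℝ)) /
          ({D : 𝓞 K | Algebra.norm ℤ D ≤ X ∧ Q D}.ncard : ℝ) < 1.53) := by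
  obtain ⟨h1, h2⟩ := Pool.Agent.D0H43.RZ.core hLA hs K i hi Q hQ (fun D => 2 * rk D)
    (fun D hD r hr => by
      have := h D hD r hr
      show 2 * rk D ≤ 4 * r
      omega)
  refine ⟨fun R a ha => ?_, ?_⟩
  · filter_upwards [h1 R a ha] with X hX
    have e1 : {D : 𝓞 K | Algebra.norm ℤ D ≤ X ∧ Q D ∧ 2 * rk D ≤ 4 * R} =
        {D : 𝓞 K | Algebra.norm ℤ D ≤ X ∧ Q D ∧ rk D ≤ 2 * R} := by
      ext D
      have h3 : 2 * rk D ≤ 4 * R ↔ rk D ≤ 2 * R := by omega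
      simp only [Set.mem_ofPred_eq, h3]
    have hX' : a < ({D : 𝓞 K | Algebra.norm ℤ D ≤ X ∧ Q D ∧ 2 * rk D ≤ 4 * R}.ncard : ℝ) /
          ({D : 𝓞 K | Algebra.norm ℤ D ≤ X ∧ Q D}.ncard : ℝ) := hX
    rwa [e1] at hX'
  · filter_upwards [h2] with X hX
    have e1 : (∑ᶠ D ∈ {D : 𝓞 K | Algebra.norm ℤ D ≤ X ∧ Q D}, ((2 * rk D : ℕ) : ℝ)) =
        2 * ∑ᶠ D ∈ {D : 𝓞 K | Algebra.norm ℤ D ≤ X ∧ Q D}, (rk D : ℝ) := by
      obtain ⟨e, he⟩ := Pool.Agent.D0H10.Q4.Rng.exists_e K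
      have hf : {D : 𝓞 K | Algebra.norm ℤ D ≤ X ∧ Q D}.Finite :=
        Pool.Agent.D0H10.Q5.fin_K e he X Q
      rw [finsum_mem_eq_finite_toFinset_sum _ hf, finsum_mem_eq_finite_toFinset_sum _ hf,
        Finset.mul_sum]
      refine Finset.sum_congr rfl fun D _ => ?_
      push_cast
      ring
    have hX' : (∑ᶠ D ∈ {D : 𝓞 K | Algebra.norm ℤ D ≤ X ∧ Q D}, ((2 * rk D : ℕ) : ℝ)) /
          ({D : 𝓞 K | Algebra.norm ℤ D ≤ X ∧ Q D}.ncard : ℝ) < 3.06 := hX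
    rw [e1, mul_div_assoc] at hX'
    show (∑ᶠ D ∈ {D : 𝓞 K | Algebra.norm ℤ D ≤ X ∧ Q D}, (rk D : ℝ)) /
          ({D : 𝓞 K | Algebra.norm ℤ D ≤ X ∧ Q D}.ncard : ℝ) < 1.53
    linarith

end Pool.Agent.D0H43.MQ
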