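import Pool.Agent.D0H43.MQ.Lk2
import Pool.Agent.D0H43.MQ.Rk

/-!
# Project MQ: the third class over the extensions, with the square roots of `(1 + i) t`
-/

set_option autoImplicit false

open NumberField IsDedekindDomain
open scoped Classical

namespace Pool.Agent.D0H43.MQ

open H385 (ZI RQ im1 nrm)
open Pool.Agent.Y699 (PS PD fam)
open Pool.Agent.H304R2.EC.A1 (prim prim_mul prim_cancel exists_prim prim_norm_odd)
open Pool.Agent.D0H43.RZ (cv)
open Pool.Agent.D0H10.Q4 (dD BD cl FinT OddI TwP inS2_iff twoK oneK inS1_iff two_cl)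
open Pool.Agent.D0H43.Q4
open Pool.Agent.D0H10.Q5 (Ker Kd)

/-- the factors of the twists -/
def UE (u : ZI) : Set ZI := {2, -u, 4 * u}

/-- the factors of the radicands -/
def VE (u : ZI) : Set ZI := {1, -1, 1 + u, -(1 + u)}

lemma sq_u {u : ZI} (hu : u = im1 ∨ u = -im1) : u * u = -1 := by
  rcases hu with rfl | rfl <;> decide

/-- the class -/
theorem cuE {u : ZI} (hu : u = im1 ∨ u = -im1) : CU (UE u) (VE u) (8 * (1 + u)) where
  m0 := by
    rcases hu with rfl | rfl <;> decide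
  u0 := by
    rcases hu with rfl | rfl <;> rintro κ (rfl | rfl | rfl) <;> decide
  v0 := by
    rcases hu with rfl | rfl <;> rintro κ (rfl | rfl | rfl | rfl) <;> decide
  dv := by
    have h := sq_u hu
    rintro κ (rfl | rfl | rfl) v (rfl | rfl | rfl | rfl)
    · exact ⟨2 * (1 + u), by ring⟩
    · exact ⟨-2 * (1 + u), by ring⟩
    · exact ⟨2, by ring⟩
    · exact ⟨-2, by ring⟩
    · exact ⟨4 * u * (1 + u), by linear_combination (8 * (1 + u)) * h⟩
    · exact ⟨-4 * u * (1 + u), by linear_combination (8 * (1 + u)) * h⟩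
    · exact ⟨4 * u, by linear_combination (8 * (1 + u)) * h⟩
    · exact ⟨-4 * u, by linear_combination (8 * (1 + u)) * h⟩
    · exact ⟨-u * (1 + u), by linear_combination (8 * (1 + u)) * h⟩
    · exact ⟨u * (1 + u), by linear_combination (8 * (1 + u)) * h⟩
    · exact ⟨-u, by linear_combination (8 * (1 + u)) * h⟩
    · exact ⟨u, by linear_combination (8 * (1 + u)) * h⟩
  cl := by
    have h := sq_u hu
    rintro κ (rfl | rfl | rfl) v (rfl | rfl | rfl | rfl)
    · exact ⟨2, by simp [UE], 1, one_dvd _, by ring⟩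
    · exact ⟨2, by simp [UE], 1, one_dvd _, by ring⟩
    · exact ⟨4 * u, by simp [UE], 1, one_dvd _, by linear_combination 2 * h⟩
    · exact ⟨4 * u, by simp [UE], 1, one_dvd _, by linear_combination 2 * h⟩
    · exact ⟨-u, by simp [UE], 1, one_dvd _, by ring⟩
    · exact ⟨-u, by simp [UE], 1, one_dvd _, by ring⟩
    · exact ⟨2, by simp [UE], 1, one_dvd _, by linear_combination (-u - 2) * h⟩
    · exact ⟨2, by simp [UE], 1, one_dvd _, by linear_combination (-u - 2) * h⟩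
    · exact ⟨4 * u, by simp [UE], 1, one_dvd _, by ring⟩
    · exact ⟨4 * u, by simp [UE], 1, one_dvd _, by ring⟩
    · refine ⟨2, by simp [UE], 1 + u, Dvd.intro_left _ rfl, ?_⟩
      rcases hu with rfl | rfl <;> decide
    · refine ⟨2, by simp [UE], 1 + u, Dvd.intro_left _ rfl, ?_⟩
      rcases hu with rfl | rfl <;> decide

/-- twisting -/
lemma mem_SUE {u : ZI} (hu : u = im1 ∨ u = -im1) {Δ κ x : ZI} (hκ : κ = 2 ∨ κ = -u)
    (hx : x ∈ TV (VE u) Δ) : κ * Δ * x ^ 2 ∈ SU (UE u) Δ := by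
  have h := sq_u hu
  obtain ⟨v, hv, t, htp, ht, rfl⟩ := hx
  rcases hκ with rfl | rfl <;> rcases hv with rfl | rfl | rfl | rfl
  · exact ⟨2, by simp [UE], t, htp, ht, by ring⟩
  · exact ⟨2, by simp [UE], t, htp, ht, by ring⟩
  · exact ⟨4 * u, by simp [UE], t, htp, ht, by linear_combination (2 * Δ * t ^ 2) * h⟩
  · exact ⟨4 * u, by simp [UE], t, htp, ht, by linear_combination (2 * Δ * t ^ 2) * h⟩
  · exact ⟨-u, by simp [UE], t, htp, ht, by ring⟩
  · exact ⟨-u, by simp [UE], t, htp, ht, by ring⟩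
  · exact ⟨2, by simp [UE], t, htp, ht, by linear_combination ((-u - 2) * Δ * t ^ 2) * h⟩
  · exact ⟨2, by simp [UE], t, htp, ht, by linear_combination ((-u - 2) * Δ * t ^ 2) * h⟩

/-- the twists up to fourth powers -/
lemma SUE_cases {u : ZI} (hu : u = im1 ∨ u = -im1) {Δ A : ZI} (hA : A ∈ SU (UE u) Δ) :
    A ∈ SU {2, -u} Δ ∨ ∃ A' ∈ SU {2, -u} Δ, A = (1 + u) ^ 4 * A' := by
  obtain ⟨κ, hκ, t, htp, ht, rfl⟩ := hA
  rcases hκ with rfl | rfl | rfl
  · exact Or.inl ⟨2, by simp, t, htp, ht, rfl⟩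
  · exact Or.inl ⟨-u, by simp, t, htp, ht, rfl⟩
  · refine Or.inr ⟨-u * Δ * t ^ 2, ⟨-u, by simp, t, htp, ht, rfl⟩, ?_⟩
    have h4 : (1 + u) ^ 4 = -4 := by
      rcases hu with rfl | rfl <;> decide
    rw [h4]
    ring

section

variable {K' : Type} [Field K'] [NumberField K'] (e' : ZI ≃+* 𝓞 K')

lemma u_mem {u : ZI} (hu : u = im1 ∨ u = -im1) : -u = im1 ∨ -u = -im1 := by
  rcases hu with rfl | rfl
  · right; rfl
  · left; rw [neg_neg]

lemma one_u_ne {u : ZI} (hu : u = im1 ∨ u = -im1) : 1 + u ≠ 0 := by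
  rcases hu with rfl | rfl <;> decide

/-- the Euler products, class E -/
theorem plE (B : BD) (M : BM) {u : ZI} (hu : u = im1 ∨ u = -im1) {Δ : ZI} (h : PS Δ)
    (hd : dD Δ = 1) {A : ZI} (hA : A ∈ SU (UE u) Δ) :
    PL K' (e' A) (e' (8 * (1 + u) * Δ ^ 4)) := by
  have C := (cuE hu).Cl h.ne
  have key : ∀ A ∈ SU {2, -u} Δ, PL K' (e' A) (e' (8 * (1 + u) * Δ ^ 4)) := by
    intro A hA
    have hA' : A ∈ SU (UE u) Δ := by
      obtain ⟨κ, hκ, t, htp, ht, rfl⟩ := hA
      refine ⟨κ, ?_, t, htp, ht, rfl⟩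
      rcases hκ with rfl | hκ
      · simp [UE]
      · rw [Set.mem_singleton_iff.1 hκ]
        simp [UE]
    exact plD e' B M (u_mem hu) h hd C.m0 hA ((Dvd.intro _ rfl).trans (C.dv A hA' 1 ⟨1,
      by simp [VE], 1, Pool.Agent.H304R2.EC.A1.prim_one, one_dvd _, by rw [mul_one]⟩))
  rcases SUE_cases hu hA with hA | ⟨A', hA', rfl⟩
  · exact key A hA
  · rw [map_mul, map_pow]
    exact PL_scale (map_dvd e' ((Dvd.intro_left _ rfl : (1 + u) ∣ 8 * (1 + u)).mul_right _))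
      (key A' hA')

lemma e_ne {A : ZI} (hA : A ≠ 0) : ((e' A : 𝓞 K') : K') ≠ 0 := by
  intro h
  apply hA
  apply e'.injective
  rw [map_zero]
  exact RingOfIntegers.ext h

lemma SU_ne {u : ZI} (hu : u = im1 ∨ u = -im1) {Δ : ZI} (h : PS Δ) {A : ZI}
    (hA : A ∈ SU {2, -u} Δ) : A ≠ 0 := by
  obtain ⟨κ, hκ, t, htp, ht, rfl⟩ := hA
  have ht0 : t ≠ 0 := fun h0 => h.ne (zero_dvd_iff.1 (h0 ▸ ht))
  refine mul_ne_zero (mul_ne_zero ?_ h.ne) (pow_ne_zero 2 ht0)
  rcases hκ with rfl | hκ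
  · exact two_ne_zero
  · rw [Set.mem_singleton_iff.1 hκ]
    rcases hu with rfl | rfl <;> decide

/-- the rank, class E -/
theorem rkE {u : ZI} (hu : u = im1 ∨ u = -im1) {Δ : ZI} (h : PS Δ) {r : ℕ}
    (hr : (Ker Δ).ncard = 2 ^ r) {A : ZI} (hA : A ∈ SU (UE u) Δ) :
    Module.finrank ℤ (cv ((e' A : 𝓞 K') : K')).toAffine.Point ≤ 2 * r := by
  rcases SUE_cases hu hA with hA | ⟨A', hA', rfl⟩
  · exact rkD e' (u_mem hu) h hr hA
  · have h1 : ((e' ((1 + u) ^ 4 * A') : 𝓞 K') : K') =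
        ((e' (1 + u) : 𝓞 K') : K') ^ 4 * ((e' A' : 𝓞 K') : K') := by
      rw [map_mul, map_pow]
      push_cast
      rfl
    rw [h1]
    exact (Pool.Agent.D0H43.RZ.rank_scale (e_ne e' (one_u_ne hu))
      (e_ne e' (SU_ne hu h hA'))).trans (rkD e' (u_mem hu) h hr hA')

open Pool.Agent.TH841.NF.D (Sha)

/-- the Tate-Shafarevich group, class E -/
theorem shE {u : ZI} (hu : u = im1 ∨ u = -im1) {Δ : ZI} (h : PS Δ) (hd : (Ker Δ).ncard = 1)
    {A : ZI} (hA : A ∈ SU (UE u) Δ) (n : ℕ) (x : Sha (cv ((e' A : 𝓞 K') : K')))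
    (hx : 2 ^ n • x = 0) : x = 0 := by
  rcases SUE_cases hu hA with hA | ⟨A', hA', rfl⟩
  · exact shD e' (u_mem hu) h hd hA n x hx
  · have h1 : ((e' ((1 + u) ^ 4 * A') : 𝓞 K') : K') =
        ((e' (1 + u) : 𝓞 K') : K') ^ 4 * ((e' A' : 𝓞 K') : K') := by
      rw [map_mul, map_pow]
      push_cast
      rfl
    have key : ∀ x : Sha (cv ((e' ((1 + u) ^ 4 * A') : 𝓞 K') : K')), 2 ^ n • x = 0 → x = 0 := by
      rw [h1]
      intro x hx
      have h2 := sha_scale (e_ne e' (one_u_ne hu)) (e_ne e' (SU_ne hu h hA')) 1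
        (fun n x hx => by rw [one_smul]; exact shD e' (u_mem hu) h hd hA' n x hx) n x hx
      rwa [one_smul] at h2
    exact key x hx

end

section res

variable {K : Type} [Field K] [NumberField K]

/-- **class E** -/
theorem pkE (B : BD) (e : ZI ≃+* 𝓞 K) {u : ZI} (hu : u = im1 ∨ u = -im1) {Δ : ZI} (hΔ : PS Δ)
    (hd : dD Δ = 1) {κ : ZI} (hκ : κ = 2 ∨ κ = -u) :
    Pk (e (κ * Δ)) (TD (e u) (e (κ * Δ))) := by
  have hdiv : ∀ t : ZI, TD (e u) (e (κ * Δ)) (e t) → t ∈ TV (VE u) Δ := by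
    rintro t ⟨t', h1, h2, h3⟩
    obtain ⟨t', rfl⟩ := e.surjective t'
    have h1' : t' ∣ κ * Δ := by
      have h2 := map_dvd e.symm h1
      rwa [e.symm_apply_apply, e.symm_apply_apply] at h2
    have h2' : (2 : ZI) ∣ t' - 1 := (P.two_dvd_e e t').1 h2
    have hodd := odd_of_two h2'
    have h4 : t' ∣ Δ := by
      rcases hκ with rfl | rfl
      · rw [Pool.Agent.Y699.two_eq_pi] at h1'
        have e1 : Pool.Agent.Y699.pi1 ^ 2 * (⟨0, -1⟩ : ZI) * Δ =
            Pool.Agent.Y699.pi1 * (Pool.Agent.Y699.pi1 * ((⟨0, -1⟩ : ZI) * Δ)) := by ring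
        rw [e1] at h1'
        exact dvd_of_unit (IsUnit.of_mul_eq_one (⟨0, 1⟩ : ZI) (by decide))
          (dvd_of_pi hodd (dvd_of_pi hodd h1'))
      · refine dvd_of_unit (IsUnit.of_mul_eq_one u ?_) h1'
        rw [neg_mul, sq_u hu, neg_neg]
    obtain ⟨v, hv, t'', hp'', ht'', h5⟩ := dec2 h4 hΔ.prm h2'
    rcases h3 with h3 | h3
    · have h6 : t = t' := e.injective h3
      rw [h6, h5]
      refine ⟨v, ?_, t'', hp'', ht'', rfl⟩
      rcases hv with rfl | rfl
      · simp [VE]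
      · simp [VE]
    · have h6 : t = (1 + u) * t' := by
        apply e.injective
        rw [h3, map_mul, map_add, map_one]
      rw [h6, h5]
      refine ⟨(1 + u) * v, ?_, t'', hp'', ht'', by ring⟩
      rcases hv with rfl | rfl
      · simp [VE]
      · right; right; right
        rw [Set.mem_singleton_iff]
        ring
  have hk := (Pool.Agent.D0H10.Q5.ker Δ hΔ).2.2 hd
  refine ⟨e, _, _, _, (cuE hu).Cl hΔ.ne, ⟨1, 1, by simp [VE], 1,
    Pool.Agent.H304R2.EC.A1.prim_one, one_dvd _, by rw [mul_one]⟩, hdiv, fun t ht => ?_,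
    fun hs K' _ _ e' A hA => ?_, fun M K' _ _ e' A hA => plE e' B M hu hΔ hd hA,
    fun hs K' _ _ e' A hA => shE e' hu hΔ hk hA⟩
  · refine ⟨κ * Δ * t ^ 2, mem_SUE hu hκ (hdiv t ht), ?_⟩
    simp only [map_mul, map_pow]
  · have h1 := rkE e' hu hΔ (r := 0) (by rw [pow_zero]; exact hk) hA
    rwa [mul_zero] at h1

variable [IsCyclotomicExtension {4} ℚ K]

/-- **the fourth statement** -/
theorem pkN4 (B : BD) {j : 𝓞 K} (hj : j ^ 2 = -1) {D : 𝓞 K}
    (hD : TwP D ∨ (Squarefree D ∧ 2 + 2 * j ∣ D + j)) (hT : FinT D) : Pk D (TD j D) := by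
  obtain ⟨e, he⟩ := Pool.Agent.D0H10.Q4.Rng.exists_e K
  obtain ⟨D, rfl⟩ := e.surjective D
  obtain ⟨u, rfl⟩ := e.surjective j
  have hu2 : u ^ 2 = -1 := by
    apply e.injective
    rw [map_pow, hj, map_neg, map_one]
  have hu := Pool.Agent.D0H10.Q4.sq_neg hu2
  rcases hD with hD | ⟨hs, hD⟩
  · obtain ⟨Δ, hΔ, rfl⟩ := (Pool.Agent.D0H10.Q4.twP_iff e D).1 hD
    have hd : dD Δ = 1 := by
      rw [two_cl] at hT
      exact (Pool.Agent.D0H10.Q4.factsK Pool.Agent.D0H10.Q4.bk e hΔ).2.1 hT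
    exact pkE B e hu hΔ hd (Or.inl rfl)
  · have h1 : (2 + 2 * u : ZI) ∣ D + u := by
      have h5 := map_dvd e.symm hD
      rwa [map_add, map_add, map_mul, e.symm_apply_apply, e.symm_apply_apply, map_ofNat] at h5
    have h2 : (2 + 2 * u : ZI) ∣ u * D - 1 := by
      have h3 : u * D - 1 = u * (D + u) := by linear_combination -hu2
      rw [h3]
      exact h1.mul_left _
    have hp : prim (u * D) := by
      rcases hu with rfl | rfl
      · exact Pool.Agent.D0H10.Q4.prim_dvd.2 h2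
      · exact Pool.Agent.D0H10.Q4.prim_dvd.2 (Pool.Agent.D0H10.Q4.prim_dvd'.1 h2)
    have huu : IsUnit u := IsUnit.of_mul_eq_one (-u) (by rw [mul_neg, sq_u hu, neg_neg])
    have hsq : Squarefree (u * D) := by
      have h4 : Associated D (u * D) := (associated_isUnit_mul_left_iff huu).2 (Associated.refl D) |>.symm
      exact h4.squarefree_iff.1 ((Pool.Agent.D0H10.Q4.sqf_e e D).1 hs)
    have hΔ : PS (u * D) := ⟨hp, hsq⟩
    have hDe : D = -u * (u * D) := by linear_combination D * hu2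
    have hd : dD (u * D) = 1 := by
      rcases hu with h | h
      · have h5 : D = cl 3 0 (u * D) := by
          rw [← Pool.Agent.D0H10.Q4.im1_pow]
          have h6 : (im1 : ZI) ^ 3 = -u := by rw [h]; decide
          rw [h6]
          exact hDe
        have h7 : FinT (e (cl 3 0 (u * D))) := by rw [← h5]; exact hT
        exact (Pool.Agent.D0H10.Q4.factsD B e (by norm_num) hΔ).2.1 h7
      · have h5 : D = cl 1 0 (u * D) := by
          rw [← Pool.Agent.D0H10.Q4.im1_pow]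
          have h6 : (im1 : ZI) ^ 1 = -u := by rw [h]; decide
          rw [h6]
          exact hDe
        have h7 : FinT (e (cl 1 0 (u * D))) := by rw [← h5]; exact hT
        exact (Pool.Agent.D0H10.Q4.factsD B e (by norm_num) hΔ).2.1 h7
    have h8 := pkE B e hu hΔ hd (κ := -u) (Or.inr rfl)
    rwa [← hDe] at h8

end res

end Pool.Agent.D0H43.MQ
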