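import Mathlib

/-!
# Project MQ (helper43): the `L`-function of `y² = x³ + A x` over a quadratic extension of a number field

Statements of the modules 1 - 3 (general number fields, no other library needed).
-/

set_option autoImplicit false

open NumberField IsDedekindDomain

namespace Pool.Agent.D0H43.MQ

/-- the number of the affine points of `y² = x³ + A x` -/
noncomputable def np {k : Type} [CommRing k] (A : k) : ℕ :=
  Nat.card {P : k × k // P.2 ^ 2 = P.1 ^ 3 + A * P.1}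

section

variable {L : Type} [Field L] [NumberField L]

/-- the order of the residue field -/
noncomputable def qn (v : HeightOneSpectrum (𝓞 L)) : ℕ := Nat.card (𝓞 L ⧸ v.asIdeal)

/-- the trace of Frobenius -/
noncomputable def tn (A : 𝓞 L) (v : HeightOneSpectrum (𝓞 L)) : ℤ :=
  (qn v : ℤ) - np (Ideal.Quotient.mk v.asIdeal A)

/-- the Euler factor of `y² = x³ + A x` at a place of good reduction -/
noncomputable def fac (A : 𝓞 L) (s : ℂ) (v : HeightOneSpectrum (𝓞 L)) : ℂ :=
  (1 - (tn A v : ℂ) * (qn v : ℂ) ^ (-s) + (qn v : ℂ) * ((qn v : ℂ) ^ (-s)) ^ 2)⁻¹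

end

/-- MODULE 1 `FF2` (finite fields, 40 min): theorem `ff2 : S_FF2` in `Pool/Agent/D0Hxx/MQ/Ff2.lean`.
`k` is a finite field of odd characteristic.
(a) the trace over the quadratic extension: `a₂ = a₁² - 2 q`;
(b), (c) the quadratic twist; (d) a trivial bound.
Proof. (a): `Pool/Agent/Y18/JT/Cub.lean` (and the files it imports) has for every finite base field `F`
with `ringChar F ≠ 2` the sums `T P n` over the extension of degree `n` (`T_eq_sum`), the recursion
`T_luc` and `A_two_cub` (the coefficient `A (cubp a b c) 2 = q` when the discriminant `dsc` is not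
zero); see how `s_cubext` uses them; here `a = 0`, `b = A`, `c = 0`, `dsc = -4 A³`, `n = 1, 2`.
(b): the bijection `(x, y) ↦ (c² x, c³ y)`.  (c): copy `pts_twist` of
`Pool/Agent/D0H76/BKR/Ek.lean` (substitution `x ↦ d x` in the sum of the quadratic character).
(d): at most two `y` for every `x`. -/
def S_FF2 : Prop := ∀ (k : Type) [Field k] [Fintype k], ringChar k ≠ 2 → ∀ A : k, A ≠ 0 →
  (∀ (k' : Type) [Field k'] [Fintype k'] [Algebra k k'], Module.finrank k k' = 2 →
    (Fintype.card k' : ℤ) - np (algebraMap k k' A) =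
      ((Fintype.card k : ℤ) - np A) ^ 2 - 2 * (Fintype.card k : ℤ)) ∧
  (∀ c : k, c ≠ 0 → np (c ^ 4 * A) = np A) ∧
  (∀ d : k, (¬ ∃ c : k, c ^ 2 = d) →
    (Fintype.card k : ℤ) - np (d ^ 2 * A) = -((Fintype.card k : ℤ) - np A)) ∧
  np A ≤ 2 * Fintype.card k

/-- MODULE 2 `SPL2` (splitting in a quadratic extension, 40 min): theorem `spl2 : S_SPL2` in
`Pool/Agent/D0Hxx/MQ/Spl2.lean`.
Proof. `F/L` is Galois (degree two) with a nontrivial automorphism `σ`, `σ θ = - θ` (see
`Pool.Agent.D0H43.RZ.exists_sigma` in `Pool/Agent/D0H43/RZ/Gal.lean`).  Let `p = w.asIdeal` and `P` a prime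
of `𝓞 F` above `p`.  If `c ^ 2 - d ∈ p`: `(θ - c) (θ + c) ∈ P`; `P` contains one of the factors, `σ P`
contains the other one, and not both (their difference is `± 2 c`, and `c ∉ p`), so `σ P ≠ P`.
If `d` is not a square modulo `p`: `X² - d` has no root in `𝓞 L ⧸ p` but has one in `𝓞 F ⧸ P`, so the
residue degree is not one.  With `∑ e f = 2` (Mathlib `Ideal.sum_ramification_inertia`), or with
`Pool.Agent.W164.RC.split_abs` (`Pool/Agent/W164/RC/Split.lean`, see its use in
`Pool/Agent/R432/V1.lean`, theorem `splitV`: here the group has order two and `x ↦ x ^ q` maps `θ` to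
`θ` or to `- θ` modulo `P`). -/
def S_SPL2 : Prop := ∀ (L F : Type) [Field L] [NumberField L] [Field F] [NumberField F]
  [Algebra L F], Module.finrank L F = 2 → ∀ (d : 𝓞 L) (θ : 𝓞 F),
  θ ^ 2 = algebraMap (𝓞 L) (𝓞 F) d → (∀ x : L, algebraMap L F x ≠ θ) →
  ∀ w : HeightOneSpectrum (𝓞 L), 2 * d ∉ w.asIdeal →
  ((∃ c : 𝓞 L, c ^ 2 - d ∈ w.asIdeal) →
    Nat.card {v : HeightOneSpectrum (𝓞 F) //
      v.asIdeal.comap (algebraMap (𝓞 L) (𝓞 F)) = w.asIdeal} = 2 ∧
    ∀ v : HeightOneSpectrum (𝓞 F), v.asIdeal.comap (algebraMap (𝓞 L) (𝓞 F)) = w.asIdeal →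
      qn v = qn w) ∧
  ((¬ ∃ c : 𝓞 L, c ^ 2 - d ∈ w.asIdeal) →
    Nat.card {v : HeightOneSpectrum (𝓞 F) //
      v.asIdeal.comap (algebraMap (𝓞 L) (𝓞 F)) = w.asIdeal} = 1 ∧
    ∀ v : HeightOneSpectrum (𝓞 F), v.asIdeal.comap (algebraMap (𝓞 L) (𝓞 F)) = w.asIdeal →
      qn v = qn w ^ 2)

/-- MODULE 3 `STEP` (the Euler product, 50 min): theorem `step : S_FF2 → S_SPL2 → S_STEP` in
`Pool/Agent/D0Hxx/MQ/Step.lean`.
Proof. For every place `w` of `L` with `M ∉ w` (so `2 A d ∉ w`), the product of `fac (algebraMap A) s v`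
over the `v` above `w` is `fac A s w * fac (d ^ 2 * A) s w`: the residue field of `v` is the one of `w`
(two places, `fac` the same; `d ^ 2 A = c ^ 4 A` modulo `w`), or its quadratic extension (one place:
`(1 - a X + q X²) (1 + a X + q X²) = 1 - (a² - 2 q) X² + q² X⁴` with `X = q ^ (-s)`, `S_FF2` (a), (c)).
`𝓞 L ⧸ w → 𝓞 F ⧸ v` is injective, and bijective when the orders are equal.  Then multiply the two given
products (`HasProd.mul`) and go from the fibres to the places as in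
`Pool/Agent/D0H76/BKR/Ek.lean` (`hasProd_K`, `HasProd.sigma_of_hasProd`, `multipliable_factor`,
`factor_sub_bound`) or `Pool/Agent/R432/V3.lean` (`mult`, `eul_abs`), with the trivial bound `|a_v| ≤ q_v`
(`S_FF2` (d); `Re s > 2`) and `Pool.Agent.H921R2.TatePole.nm_summable`. -/
def S_STEP : Prop := ∀ (L F : Type) [Field L] [NumberField L] [Field F] [NumberField F]
  [Algebra L F], Module.finrank L F = 2 → ∀ (A d M : 𝓞 L) (θ : 𝓞 F),
  θ ^ 2 = algebraMap (𝓞 L) (𝓞 F) d → (∀ x : L, algebraMap L F x ≠ θ) → 2 * A * d ∣ M →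
  ∀ (s G₁ G₂ : ℂ), 2 < s.re →
  HasProd (fun w : {w : HeightOneSpectrum (𝓞 L) // M ∉ w.asIdeal} => fac A s w.1) G₁ →
  HasProd (fun w : {w : HeightOneSpectrum (𝓞 L) // M ∉ w.asIdeal} => fac (d ^ 2 * A) s w.1) G₂ →
  HasProd (fun v : {v : HeightOneSpectrum (𝓞 F) // algebraMap (𝓞 L) (𝓞 F) M ∉ v.asIdeal} =>
    fac (algebraMap (𝓞 L) (𝓞 F) A) s v.1) (G₁ * G₂)

end Pool.Agent.D0H43.MQ
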