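import Mathlib

/-!
# Project MQ: induction over towers of quadratic extensions
-/

set_option autoImplicit false

open NumberField

namespace Pool.Agent.D0H43.MQ

/-- the degree of `L(θ)` -/
lemma finrank_two {L F : Type} [Field L] [Field F] [Algebra L F] [FiniteDimensional L F] {θ : F}
    {d : L} (hθ : θ ^ 2 = algebraMap L F d) (hn : ∀ x : L, algebraMap L F x ≠ θ)
    (hg : IntermediateField.adjoin L {θ} = ⊤) : Module.finrank L F = 2 := by
  have hint : IsIntegral L θ := IsIntegral.of_finite L θ
  have h1 : Module.finrank L F = (minpoly L θ).natDegree := by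
    rw [← IntermediateField.adjoin.finrank hint, hg, IntermediateField.finrank_top']
  have h2 : (minpoly L θ).natDegree ≤ 2 := by
    have h3 : minpoly L θ ∣ Polynomial.X ^ 2 - Polynomial.C d := by
      apply minpoly.dvd
      rw [map_sub, map_pow, Polynomial.aeval_X, Polynomial.aeval_C, hθ, sub_self]
    have h4 := Polynomial.natDegree_le_of_dvd h3 (Polynomial.X_pow_sub_C_ne_zero (by norm_num) d)
    rwa [Polynomial.natDegree_X_pow_sub_C] at h4
  have h3 : 2 ≤ (minpoly L θ).natDegree := by
    rw [minpoly.two_le_natDegree_iff hint]
    rintro ⟨x, hx⟩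
    exact hn x hx
  omega

/-- **induction over the tower** -/
theorem tower {K : Type} [Field K] [NumberField K] (T : Set (𝓞 K))
    (Q : ∀ (F : Type) [Field F] [NumberField F] [Algebra K F], Prop)
    (h0 : ∀ (F : Type) [Field F] [NumberField F] [Algebra K F],
      Function.Bijective (algebraMap K F) → Q F)
    (hs : ∀ (L F : Type) [Field L] [NumberField L] [Field F] [NumberField F] [Algebra K L]
      [Algebra K F] [Algebra L F] [IsScalarTower K L F], Module.finrank L F = 2 → ∀ t ∈ T,
      ∀ θ : 𝓞 F, θ ^ 2 = algebraMap (𝓞 K) (𝓞 F) t → (∀ x : L, algebraMap L F x ≠ θ) → Q L → Q F) :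
    ∀ (n : ℕ) (F : Type) [Field F] [NumberField F] [Algebra K F] (x : Fin n → F),
      (∀ i, ∃ t ∈ T, x i ^ 2 = algebraMap K F (t : K)) →
      IntermediateField.adjoin K (Set.range x) = ⊤ → Q F := by
  intro n
  induction n with
  | zero =>
    intro F _ _ _ x _ hg
    apply h0
    refine ⟨(algebraMap K F).injective, fun y => ?_⟩
    have h1 : (y : F) ∈ IntermediateField.adjoin K (Set.range x) := by
      rw [hg]
      exact IntermediateField.mem_top
    rw [Set.range_eq_empty, IntermediateField.adjoin_empty, IntermediateField.mem_bot] at h1
    exact h1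
  | succ n ih =>
    intro F _ _ _ x hx hg
    set E : IntermediateField K F :=
      IntermediateField.adjoin K (Set.range fun i : Fin n => x i.castSucc) with hE
    by_cases hmem : x (Fin.last n) ∈ E
    · refine ih F (fun i => x i.castSucc) (fun i => hx i.castSucc) ?_
      rw [← hE, eq_top_iff, ← hg, IntermediateField.adjoin_le_iff]
      rintro _ ⟨i, rfl⟩
      refine Fin.lastCases hmem (fun i => ?_) i
      exact IntermediateField.subset_adjoin K _ ⟨i, rfl⟩
    · obtain ⟨t, htT, ht⟩ := hx (Fin.last n)
      set θ := x (Fin.last n) with hθ
      have hn : ∀ y : E, algebraMap E F y ≠ θ := by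
        intro y hy
        apply hmem
        rw [← hy]
        exact y.2
      haveI : FiniteDimensional E F := by
        haveI : FiniteDimensional K F := by
          haveI : IsScalarTower ℚ K F := IsScalarTower.of_algebraMap_eq' (RingHom.ext_rat _ _)
          exact Module.Finite.of_restrictScalars_finite ℚ K F
        exact Module.Finite.of_restrictScalars_finite K E F
      have hθE : θ ^ 2 = algebraMap E F (algebraMap K E (t : K)) := ht
      have hgE : IntermediateField.adjoin E {θ} = ⊤ := by
        rw [eq_top_iff]
        intro y _
        have hy : y ∈ IntermediateField.adjoin K (Set.range x) := by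
          rw [hg]
          exact IntermediateField.mem_top
        have hle : IntermediateField.adjoin K (Set.range x) ≤
            (IntermediateField.adjoin E {θ}).restrictScalars K := by
          rw [IntermediateField.adjoin_le_iff]
          rintro _ ⟨i, rfl⟩
          refine Fin.lastCases ?_ (fun i => ?_) i
          · exact IntermediateField.subset_adjoin E _ rfl
          · have h2 : x i.castSucc ∈ E := IntermediateField.subset_adjoin K _ ⟨i, rfl⟩
            exact (IntermediateField.adjoin E {θ}).algebraMap_mem ⟨_, h2⟩
        exact hle hy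
      have h2 : Module.finrank E F = 2 := finrank_two hθE hn hgE
      have hint : IsIntegral ℤ θ := by
        refine IsIntegral.of_pow (n := 2) (by norm_num) ?_
        rw [ht]
        exact (RingOfIntegers.isIntegral_coe t).map ((algebraMap K F).toIntAlgHom)
      refine hs E F h2 t htT ⟨θ, hint⟩ ?_ hn ?_
      · apply RingOfIntegers.ext
        show θ ^ 2 = _
        rw [ht]
        rfl
      · refine ih E (fun i => ⟨x i.castSucc, IntermediateField.subset_adjoin K _ ⟨i, rfl⟩⟩)
          (fun i => ?_) ?_
        · obtain ⟨u, hu, hu2⟩ := hx i.castSucc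
          exact ⟨u, hu, Subtype.ext hu2⟩
        · apply IntermediateField.map_injective E.val
          rw [IntermediateField.adjoin_map, ← Set.range_comp]
          have h3 : (⇑E.val ∘ fun i : Fin n => (⟨x i.castSucc,
              IntermediateField.subset_adjoin K _ ⟨i, rfl⟩⟩ : E)) = fun i => x i.castSucc := rfl
          rw [h3, ← hE, ← AlgHom.fieldRange_eq_map, IntermediateField.fieldRange_val]

end Pool.Agent.D0H43.MQ
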